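import Pool.Agent.Lib.MP_9d9c13_pr.Core

/-!
The class of functions for which the product inequality holds, and the decoupling theorem.
-/

open MeasureTheory ProbabilityTheory Matrix Set Filter Topology
open scoped ENNReal NNReal

namespace Pool.Agent.Lib.MP_9d9c13_pr

noncomputable section

/-- the kernel `exp (-1 / (2 w²))` -/
def kf (w : ℝ) : ℝ := expNegInvGlue (2 * w ^ 2)

@[fun_prop]
lemma continuous_kf : Continuous kf :=
  (expNegInvGlue.contDiff (n := 0)).continuous.comp (by fun_prop)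

@[fun_prop]
lemma measurable_kf : Measurable kf := continuous_kf.measurable

lemma kf_nonneg (w : ℝ) : 0 ≤ kf w := expNegInvGlue.nonneg _

lemma kf_of_ne {w : ℝ} (h : w ≠ 0) : kf w = Real.exp (-(1 / w) ^ 2 / 2) := by
  have : 0 < 2 * w ^ 2 := by positivity
  rw [kf, expNegInvGlue, if_neg (not_le.2 this)]
  congr 1; field_simp

lemma kf_zero : kf 0 = 0 := by simp [kf, expNegInvGlue]

lemma kf_le_one (w : ℝ) : kf w ≤ 1 := by
  by_cases h : w = 0
  · simp [h, kf_zero]
  · rw [kf_of_ne h, Real.exp_le_one_iff]; nlinarith [sq_nonneg (1 / w)]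

lemma norm_kf_le (w : ℝ) : ‖kf w‖ ≤ 1 := by
  rw [Real.norm_eq_abs, abs_of_nonneg (kf_nonneg w)]; exact kf_le_one w

variable {ι D : Type} [Fintype ι] [Fintype D] [DecidableEq D]

lemma norm_prod_kf_le (f : D → ℝ) : ‖∏ j, kf (f j)‖ ≤ 1 := by
  rw [norm_prod]
  exact Finset.prod_le_one (fun _ _ => norm_nonneg _) fun _ _ => norm_kf_le _

lemma integral_kf_dot {b : ι → ℝ} (hb : b ⬝ᵥ b ≠ 0) :
    ∫ x, kf (b ⬝ᵥ x) ∂gam ι = Real.exp (-(√(b ⬝ᵥ b))⁻¹) := by
  have h := integral_hw (D := Unit) (B := fun _ => b) (fun _ => hb) (c := fun _ => (√(b ⬝ᵥ b))⁻¹)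
    (fun _ => by positivity)
  simp only [Finset.univ_unique, Finset.sum_singleton] at h
  rw [← h]
  refine integral_congr_ae ?_
  filter_upwards [ae_dot_ne_zero hb] with x hx
  rw [kf_of_ne hx, hw]
  simp only [Vc, Finset.univ_unique, Finset.sum_singleton, smul_dotProduct, dotProduct_smul,
    smul_eq_mul]
  have hpos : 0 < b ⬝ᵥ b := lt_of_le_of_ne (dot_self_nonneg b) (Ne.symm hb)
  have hs : √(b ⬝ᵥ b) ≠ 0 := by positivity
  congr 3
  field_simp
  rw [Real.sq_sqrt hpos.le]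

lemma prod_kf_indep {B U : D → ι → ℝ} (hU : ∀ i j, U i ⬝ᵥ B j = if i = j then 1 else 0) :
    ∏ j, ∫ x, kf (B j ⬝ᵥ x) ∂gam ι ≤ ∫ x, ∏ j, kf (B j ⬝ᵥ x) ∂gam ι := by
  have hB : ∀ j, B j ⬝ᵥ B j ≠ 0 := by
    intro j h
    have h1 := hU j j
    rw [dotProduct_self_eq_zero.1 h] at h1; simp at h1
  have hpos : ∀ j, 0 < B j ⬝ᵥ B j := fun j => lt_of_le_of_ne (dot_self_nonneg _) (Ne.symm (hB j))
  have h := laplace_indep hU (c := fun j => (√(B j ⬝ᵥ B j))⁻¹)
    (fun j => inv_pos.2 (Real.sqrt_pos.2 (hpos j)))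
  simp_rw [fun j => integral_kf_dot (hB j)]
  rw [← Real.exp_sum, Finset.sum_neg_distrib]
  refine h.trans (le_of_eq (integral_congr_ae ?_))
  filter_upwards [ae_all_ne_zero hB] with x hx
  simp_rw [fun j => kf_of_ne (hx j)]
  rw [← Real.exp_sum, neg_div, Finset.sum_div, ← Finset.sum_neg_distrib]
  congr 1
  refine Finset.sum_congr rfl fun j _ => ?_
  have hs : √(B j ⬝ᵥ B j) ≠ 0 := (Real.sqrt_pos.2 (hpos j)).ne'
  have := hx j
  field_simp
  rw [Real.sq_sqrt (hpos j).le]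

lemma mp_inr : MeasurePreserving (fun x : D ⊕ ι → ℝ => x ∘ Sum.inr) (gam (D ⊕ ι)) (gam ι) := by
  refine mp1 (by fun_prop) fun t => ⟨Sum.elim 0 t, fun x => ?_, ?_⟩ <;>
    simp [dotProduct, Fintype.sum_sum_type]

/-- The Laplace form of the Gaussian product inequality. -/
theorem prod_kf (B : D → ι → ℝ) :
    ∏ j, ∫ x, kf (B j ⬝ᵥ x) ∂gam ι ≤ ∫ x, ∏ j, kf (B j ⬝ᵥ x) ∂gam ι := by
  set Be : ℝ → D → D ⊕ ι → ℝ := fun ε j => Sum.elim (Pi.single j ε) (B j) with hBe
  have hdot : ∀ ε j (x : D ⊕ ι → ℝ), Be ε j ⬝ᵥ x = ε * x (Sum.inl j) + B j ⬝ᵥ (x ∘ Sum.inr) := by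
    intro ε j x
    simp [hBe, dotProduct, Fintype.sum_sum_type, Pi.single_apply]
  have h1 : ∀ ε : ℝ, ε ≠ 0 → ∏ j, ∫ x, kf (Be ε j ⬝ᵥ x) ∂gam (D ⊕ ι)
      ≤ ∫ x, ∏ j, kf (Be ε j ⬝ᵥ x) ∂gam (D ⊕ ι) := by
    intro ε hε
    refine prod_kf_indep (U := fun i => Sum.elim (Pi.single i ε⁻¹) 0) fun i j => ?_
    rw [dotProduct_comm, hdot]
    by_cases h : i = j
    · subst h; simp [hε, dotProduct]
    · simp [h, dotProduct]
  have hc1 : Continuous fun ε : ℝ => ∏ j, ∫ x, kf (Be ε j ⬝ᵥ x) ∂gam (D ⊕ ι) := by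
    refine continuous_finsetProd _ fun j _ => ?_
    simp_rw [hdot]
    exact continuous_of_dominated (bound := fun _ => 1)
      (fun ε => (by fun_prop : Measurable _).aestronglyMeasurable)
      (fun ε => ae_of_all _ fun x => norm_kf_le _) (integrable_const _)
      (ae_of_all _ fun x => by fun_prop)
  have hc2 : Continuous fun ε : ℝ => ∫ x, ∏ j, kf (Be ε j ⬝ᵥ x) ∂gam (D ⊕ ι) := by
    simp_rw [hdot]
    exact continuous_of_dominated (bound := fun _ => 1)
      (fun ε => (by fun_prop : Measurable _).aestronglyMeasurable)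
      (fun ε => ae_of_all _ fun x => norm_prod_kf_le _) (integrable_const _)
      (ae_of_all _ fun x => by fun_prop)
  have h2 : ∏ j, ∫ x, kf (Be 0 j ⬝ᵥ x) ∂gam (D ⊕ ι)
      ≤ ∫ x, ∏ j, kf (Be 0 j ⬝ᵥ x) ∂gam (D ⊕ ι) := by
    refine le_of_tendsto_of_tendsto (b := 𝓝[≠] (0 : ℝ))
      (hc1.continuousAt.tendsto.mono_left nhdsWithin_le_nhds)
      (hc2.continuousAt.tendsto.mono_left nhdsWithin_le_nhds) ?_
    filter_upwards [self_mem_nhdsWithin] with ε hε using h1 ε hε
  simp_rw [hdot, zero_mul, zero_add] at h2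
  have hmp := mp_inr (D := D) (ι := ι)
  rw [← hmp.map_eq, integral_map hmp.measurable.aemeasurable
    (by fun_prop : Measurable _).aestronglyMeasurable]
  convert h2 using 2 with j
  rw [integral_map hmp.measurable.aemeasurable (by fun_prop : Measurable _).aestronglyMeasurable]

lemma lintegral_prod_kf (B : D → ι → ℝ) :
    ∏ j, ∫⁻ x, ENNReal.ofReal (kf (B j ⬝ᵥ x)) ∂gam ι
      ≤ ∫⁻ x, ∏ j, ENNReal.ofReal (kf (B j ⬝ᵥ x)) ∂gam ι := by
  have h1 : ∀ j, ∫⁻ x, ENNReal.ofReal (kf (B j ⬝ᵥ x)) ∂gam ι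
      = ENNReal.ofReal (∫ x, kf (B j ⬝ᵥ x) ∂gam ι) := fun j =>
    (ofReal_integral_eq_lintegral_ofReal (Integrable.mono' (integrable_const 1)
      (by fun_prop : Measurable _).aestronglyMeasurable (ae_of_all _ fun x => norm_kf_le _))
      (ae_of_all _ fun x => kf_nonneg _)).symm
  simp_rw [h1, ← ENNReal.ofReal_prod_of_nonneg fun j _ => kf_nonneg _]
  rw [← ofReal_integral_eq_lintegral_ofReal (Integrable.mono' (integrable_const 1)
      (by fun_prop : Measurable _).aestronglyMeasurable (ae_of_all _ fun x => norm_prod_kf_le _))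
      (ae_of_all _ fun x => Finset.prod_nonneg fun j _ => kf_nonneg _),
    ← ENNReal.ofReal_prod_of_nonneg fun j _ => integral_nonneg fun x => kf_nonneg _]
  exact ENNReal.ofReal_le_ofReal (prod_kf B)

/-- the basic functions -/
def basef (b : ι → ℝ) (σ : ℝ) (w : ι → ℝ) : ℝ≥0∞ :=
  ∫⁻ g, ENNReal.ofReal (kf (b ⬝ᵥ w + σ * g)) ∂gaussianReal 0 1

lemma measurable_basef (b : ι → ℝ) (σ : ℝ) : Measurable (basef b σ) := by
  have : Measurable fun q : (ι → ℝ) × ℝ => ENNReal.ofReal (kf (b ⬝ᵥ q.1 + σ * q.2)) := by fun_prop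
  exact this.lintegral_prod_right'

lemma lintegral_eval (j : D) {f : ℝ → ℝ≥0∞} (hf : Measurable f) :
    ∫⁻ g, f (g j) ∂gam D = ∫⁻ g, f g ∂gaussianReal 0 1 := by
  have := lintegral_dot (Pi.single j (1 : ℝ)) hf
  simpa using this

lemma mp_elim : MeasurePreserving (fun p : (ι → ℝ) × (D → ℝ) => Sum.elim p.2 p.1)
    ((gam ι).prod (gam D)) (gam (D ⊕ ι)) := by
  refine mp2 ?_ fun t => ⟨t ∘ Sum.inr, t ∘ Sum.inl, fun x y => ?_, ?_⟩
  · refine measurable_pi_iff.2 fun q => ?_
    rcases q with q | q <;> simp only [Sum.elim_inl, Sum.elim_inr] <;> fun_prop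
  · simp [dotProduct, Fintype.sum_sum_type, add_comm]
  · simp [dotProduct, Fintype.sum_sum_type, add_comm]

lemma prod_basef (b : D → ι → ℝ) (σ : D → ℝ) :
    ∏ j, ∫⁻ w, basef (b j) (σ j) w ∂gam ι ≤ ∫⁻ w, ∏ j, basef (b j) (σ j) w ∂gam ι := by
  have h := lintegral_prod_kf (fun j => Sum.elim (Pi.single j (σ j)) (b j))
  have hdot : ∀ j (w : ι → ℝ) (g : D → ℝ),
      Sum.elim (Pi.single j (σ j)) (b j) ⬝ᵥ Sum.elim g w = b j ⬝ᵥ w + σ j * g j := by
    intro j w g
    simp [dotProduct, Fintype.sum_sum_type, Pi.single_apply, add_comm]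
  have hb : ∀ j w, ∫⁻ g, ENNReal.ofReal (kf (b j ⬝ᵥ w + σ j * g j)) ∂gam D
      = basef (b j) (σ j) w := fun j w =>
    lintegral_eval j (f := fun g => ENNReal.ofReal (kf (b j ⬝ᵥ w + σ j * g))) (by fun_prop)
  rw [lintegral_split mp_elim (by fun_prop)] at h
  convert h using 2 with j _
  · rw [lintegral_split mp_elim (by fun_prop)]
    simp_rw [hdot, hb]
  · ext w
    simp_rw [hdot]
    rw [lintegral_prod_indep (lab := id)
      (ψ := fun j g => ENNReal.ofReal (kf (b j ⬝ᵥ w + σ j * g j))) (fun j => by fun_prop)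
      (fun j x y hxy => by simp only [hxy j rfl])]
    simp_rw [hb]

/-- mixtures of basic functions -/
inductive Allowed {ι : Type} [Fintype ι] : ((ι → ℝ) → ℝ≥0∞) → Prop
  | base (b : ι → ℝ) (σ : ℝ) : Allowed (basef b σ)
  | mix (Ω : Type) (m : MeasurableSpace Ω) (μ : Measure Ω) (hμ : SFinite μ)
      (F : Ω → (ι → ℝ) → ℝ≥0∞) (hF : Measurable (Function.uncurry F))
      (h : ∀ ω, Allowed (F ω)) : Allowed (fun w => ∫⁻ ω, F ω w ∂μ)

lemma Allowed.measurable {f : (ι → ℝ) → ℝ≥0∞} (hf : Allowed f) : Measurable f := by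
  cases hf with
  | base b σ => exact measurable_basef b σ
  | mix Ω m μ hμ F hF h => exact hF.lintegral_prod_left

lemma Allowed.mix' {Ω : Type} [MeasurableSpace Ω] (μ : Measure Ω) [SFinite μ]
    {F : Ω → (ι → ℝ) → ℝ≥0∞} (hF : Measurable (Function.uncurry F))
    (h : ∀ ω, Allowed (F ω)) : Allowed (fun w => ∫⁻ ω, F ω w ∂μ) :=
  Allowed.mix Ω _ μ inferInstance F hF h

lemma Allowed.congr {f g : (ι → ℝ) → ℝ≥0∞} (hf : Allowed f) (h : ∀ w, g w = f w) : Allowed g := by
  rw [show g = f from funext h]; exact hf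

lemma Allowed.cmul {f : (ι → ℝ) → ℝ≥0∞} (hf : Allowed f) (c : ℝ≥0∞) :
    Allowed fun w => c * f w := by
  refine (Allowed.mix' (Ω := Unit) (c • Measure.dirac ()) (F := fun _ => f)
    (hf.measurable.comp measurable_snd) fun _ => hf).congr fun w => ?_
  simp [mul_comm]

theorem Allowed.prod_le {f : D → (ι → ℝ) → ℝ≥0∞} (hf : ∀ i, Allowed (f i)) :
    ∏ i, ∫⁻ w, f i w ∂gam ι ≤ ∫⁻ w, ∏ i, f i w ∂gam ι := by
  suffices H : ∀ s : Finset D, ∀ f : D → (ι → ℝ) → ℝ≥0∞, (∀ i, Allowed (f i)) →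
      (∀ i ∉ s, ∃ b σ, f i = basef b σ) →
      ∏ i, ∫⁻ w, f i w ∂gam ι ≤ ∫⁻ w, ∏ i, f i w ∂gam ι from
    H Finset.univ f hf (by simp)
  intro s
  induction s using Finset.induction_on with
  | empty =>
    intro f _ hb
    choose b σ h using fun i => hb i (by simp)
    simp_rw [h]
    exact prod_basef b σ
  | insert a s ha ih =>
    intro f hf hb
    have hm : Measurable fun w => ∏ i ∈ Finset.univ.erase a, f i w :=
      Finset.measurable_prod _ fun i _ => (hf i).measurable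
    have key : ∀ g, Allowed g → (∫⁻ w, g w ∂gam ι) * ∏ i ∈ Finset.univ.erase a, ∫⁻ w, f i w ∂gam ι
        ≤ ∫⁻ w, g w * ∏ i ∈ Finset.univ.erase a, f i w ∂gam ι := by
      intro g hg
      induction hg with
      | base b σ =>
        have h := ih (Function.update f a (basef b σ)) (fun i => by
          by_cases h : i = a
          · subst h; simpa using Allowed.base b σ
          · simpa [Function.update_of_ne h] using hf i) (fun i hi => by
          by_cases h : i = a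
          · subst h; exact ⟨b, σ, by simp⟩
          · simpa [Function.update_of_ne h] using hb i (by simp [h, hi]))
        simp_rw [← Finset.mul_prod_erase _ _ (Finset.mem_univ a), Function.update_self] at h
        convert h using 2
        · exact Finset.prod_congr rfl fun i hi => by
            rw [Function.update_of_ne (Finset.ne_of_mem_erase hi)]
        · ext w
          congr 1
          exact Finset.prod_congr rfl fun i hi => by
            rw [Function.update_of_ne (Finset.ne_of_mem_erase hi)]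
      | mix Ω m μ hμ F hF h ihF =>
        have hF2 : Measurable (Function.uncurry fun ω w =>
            F ω w * ∏ i ∈ Finset.univ.erase a, f i w) := hF.mul (hm.comp measurable_snd)
        rw [← lintegral_lintegral_swap hF.aemeasurable,
          ← lintegral_mul_const _ hF.lintegral_prod_right]
        refine (lintegral_mono ihF).trans (le_of_eq ?_)
        rw [lintegral_lintegral_swap hF2.aemeasurable]
        refine lintegral_congr fun w => ?_
        rw [lintegral_mul_const _ (hF.of_uncurry_right)]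
    simp_rw [← Finset.mul_prod_erase _ _ (Finset.mem_univ a)]
    exact key _ (hf a)

end

end Pool.Agent.Lib.MP_9d9c13_pr
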