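import Pool.Agent.Lib.MP_9d9c13_pr.Mat

/-!
The block functionals are mixtures of basic functions in each row of the Gaussian matrix.
-/

open MeasureTheory ProbabilityTheory Matrix Set Filter Topology
open scoped ENNReal NNReal

namespace Pool.Agent.Lib.MP_9d9c13_pr

noncomputable section

variable {B ι κ : Type} [Fintype B] [Fintype ι] [Fintype κ] [DecidableEq B] [DecidableEq ι]

/-- keep only the active coordinates -/
def mv (act : ι → Prop) [DecidablePred act] (r : ι → ℝ) : ι → ℝ := fun k => if act k then r k else 0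

/-- keep only the active columns -/
def msk (act : ι → Prop) [DecidablePred act] (T : Matrix B ι ℝ) : Matrix B ι ℝ :=
  Matrix.of fun a k => if act k then T a k else 0

/-- the weighted block functional -/
def PhiB (e : B → ι) (act : ι → Prop) [DecidablePred act] (Q : Matrix κ B ℝ) (γ s : ℝ)
    (T : Matrix B ι ℝ) (Z : Matrix ι κ ℝ) : ℝ≥0∞ :=
  apow γ (T.submatrix id e).det * apow s (msk act T * Z * Q).det

/-- the block functional averaged over the triangular factor -/
def FB (e : B → ι) (act : ι → Prop) [DecidablePred act] (Q : Matrix κ B ℝ) (γ s : ℝ)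
    (z : ι × κ → ℝ) : ℝ≥0∞ :=
  ∫⁻ t, PhiB e act Q γ s (mat t) (mat z) ∂gam (B × ι)

variable (e : B → ι) (act : ι → Prop) [DecidablePred act] (Q : Matrix κ B ℝ) (γ s : ℝ)

@[fun_prop]
lemma continuous_msk : Continuous (msk act : Matrix B ι ℝ → Matrix B ι ℝ) := by
  refine continuous_matrix fun a k => ?_
  simp only [msk, of_apply]
  split_ifs
  · exact continuous_id.matrix_elem a k
  · exact continuous_const

lemma measurable_PhiB {A : Type*} [MeasurableSpace A] {t : A → B × ι → ℝ} {z : A → ι × κ → ℝ}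
    (ht : Measurable t) (hz : Measurable z) :
    Measurable fun a => PhiB e act Q γ s (mat (t a)) (mat (z a)) := by
  have h1 : Continuous fun t : B × ι → ℝ => ((mat t).submatrix id e).det := by fun_prop
  have h2 : Continuous fun p : (B × ι → ℝ) × (ι × κ → ℝ) =>
      (msk act (mat p.1) * mat p.2 * Q).det := by fun_prop
  have h3 : Measurable fun a => ((mat (t a)).submatrix id e).det := h1.measurable.comp ht
  have h4 : Measurable fun a => (msk act (mat (t a)) * mat (z a) * Q).det :=
    h2.measurable.comp (f := fun a => (t a, z a)) (ht.prodMk hz)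
  exact (measurable_apow γ h3).mul (measurable_apow s h4)

lemma measurable_FB : Measurable (FB e act Q γ s) :=
  (measurable_PhiB e act Q γ s measurable_snd measurable_fst).lintegral_prod_right'

lemma msk_add_vecMulVec (A : Matrix B ι ℝ) (t : B → ℝ) (r : ι → ℝ) :
    msk act (A + vecMulVec t r) = msk act A + vecMulVec t (mv act r) := by
  ext a k
  simp only [msk, mv, of_apply, Matrix.add_apply, vecMulVec_apply]
  split_ifs <;> simp

lemma vecMul_msk {A : Matrix B ι ℝ} {t : B → ℝ} (h : t ᵥ* A = 0) : t ᵥ* msk act A = 0 := by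
  ext k
  have := congrFun h k
  by_cases hk : act k
  · simpa [vecMul, dotProduct, msk, hk] using this
  · simp [vecMul, dotProduct, msk, hk]

lemma vecMul_pw_row (u : ι → ℝ) (k : ι) (w x : ι × κ → ℝ) :
    u ᵥ* mat (pw (fun q : ι × κ => q.1 = k) w x)
      = Function.update u k 0 ᵥ* mat x + u k • fun j => w (k, j) := by
  ext j
  simp only [vecMul, dotProduct, mat_apply, pw, Pi.add_apply, Pi.smul_apply, smul_eq_mul]
  rw [← Finset.add_sum_erase _ _ (Finset.mem_univ k), ← Finset.add_sum_erase _ _ (Finset.mem_univ k)]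
  simp only [if_true, Function.update_self, zero_mul, zero_add]
  rw [add_comm]
  congr 1
  refine Finset.sum_congr rfl fun k' hk' => ?_
  have := Finset.ne_of_mem_erase hk'
  simp [this]

lemma mul_pw_row {A : Matrix B ι ℝ} {k : ι} (hA : ∀ a, A a k = 0) (w x : ι × κ → ℝ) :
    A * mat (pw (fun q : ι × κ => q.1 = k) w x) = A * mat x := by
  ext a j
  simp only [mul_apply, mat_apply, pw]
  refine Finset.sum_congr rfl fun k' _ => ?_
  split_ifs with h
  · simp [h, hA]
  · rfl

lemma isLinear_comp {E F : Type*} [AddCommGroup E] [Module ℝ E] [AddCommGroup F] [Module ℝ F]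
    {φ : F → ℝ} (hφ : IsLinearMap ℝ φ) {g : E → F} (hg : IsLinearMap ℝ g) :
    IsLinearMap ℝ fun x => φ (g x) :=
  ⟨fun x y => by rw [hg.map_add, hφ.map_add], fun c x => by rw [hg.map_smul, hφ.map_smul]⟩

lemma isLinear_vecMul {E m n : Type*} [AddCommGroup E] [Module ℝ E] [Fintype m]
    (M : Matrix m n ℝ) {g : E → m → ℝ} (hg : IsLinearMap ℝ g) :
    IsLinearMap ℝ fun x => g x ᵥ* M :=
  ⟨fun x y => by rw [hg.map_add, add_vecMul], fun c x => by rw [hg.map_smul, smul_vecMul]⟩

lemma isLinear_row (c : ℝ) (k : ι) :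
    IsLinearMap ℝ fun w : ι × κ → ℝ => c • fun j => w (k, j) :=
  ⟨fun x y => by ext j; simp [mul_add], fun a x => by ext j; simp; ring⟩

lemma allowed_lin_c {η : Type} [Fintype η] (c : ℝ≥0∞) {s : ℝ} (hs : 0 ≤ s) {β : (η → ℝ) → ℝ}
    (hβ : IsLinearMap ℝ β) {α : (κ → ℝ) → ℝ} (hα : IsLinearMap ℝ α) :
    Allowed fun w => ∫⁻ y, c * apow s (β w + α y) ∂gam κ := by
  obtain ⟨a, ha⟩ := exists_dot_of_isLinear hα
  refine ((allowed_lin hs hβ hα).cmul c).congr fun w => ?_
  simp_rw [ha]
  exact lintegral_const_mul _ (by fun_prop)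

lemma allowed_lin2_c {η η' : Type} [Fintype η] [Fintype η'] (c : ℝ≥0∞) {s : ℝ} (hs : 0 ≤ s)
    {β : (η → ℝ) → ℝ} (hβ : IsLinearMap ℝ β) {α : (η' → ℝ) → ℝ} (hα : IsLinearMap ℝ α)
    {α' : (κ → ℝ) → ℝ} (hα' : IsLinearMap ℝ α') :
    Allowed fun w => ∫⁻ y, ∫⁻ z, c * apow s (β w + α y + α' z) ∂gam κ ∂gam η' := by
  obtain ⟨a, ha⟩ := exists_dot_of_isLinear hα
  obtain ⟨a', ha'⟩ := exists_dot_of_isLinear hα'
  refine ((allowed_lin2 hs hβ hα hα').cmul c).congr fun w => ?_
  simp_rw [ha, ha']
  have : Measurable fun q : (η' → ℝ) × (κ → ℝ) => apow s (β w + a ⬝ᵥ q.1 + a' ⬝ᵥ q.2) := by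
    fun_prop
  rw [← lintegral_const_mul _ this.lintegral_prod_right']
  exact lintegral_congr fun y => lintegral_const_mul _ (by fun_prop)

lemma allowed_inactive {k : ι} (hk : ¬ act k) (x : ι × κ → ℝ) :
    Allowed fun w => FB e act Q γ s (pw (fun q : ι × κ => q.1 = k) w x) := by
  refine (Allowed.const (FB e act Q γ s x)).congr fun w => lintegral_congr fun t => ?_
  simp only [PhiB]
  rw [mul_pw_row (by simp [msk, hk])]

lemma allowed_own (he : Function.Injective e) {s : ℝ} (hs : 0 ≤ s) (b : B) (x : ι × κ → ℝ) :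
    Allowed fun w => FB e act Q γ s (pw (fun q : ι × κ => q.1 = e b) w x) := by
  have : Nonempty B := ⟨b⟩
  refine allowed_reduce (e b)
    (fun T w => PhiB e act Q γ s T (mat (pw (fun q : ι × κ => q.1 = e b) w x)))
    (measurable_PhiB e act Q γ s measurable_fst (by fun_prop)) fun t ρ A ht hA hAk => ?_
  have hl := isLinear_det_add (A := A.submatrix id e) (det_eq_zero_of_vecMul ht (by
    ext b'; exact congrFun hA (e b'))) t
  have hφ := isLinear_det_add (A := msk act A * mat x * Q) (det_eq_zero_of_vecMul ht (by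
    rw [← vecMul_vecMul, ← vecMul_vecMul, vecMul_msk act hA, zero_vecMul, zero_vecMul])) t
  have hg : IsLinearMap ℝ fun r : ι → ℝ => Function.update (mv act r) (e b) 0 := by
    constructor
    · intro r r'; ext k
      by_cases h : k = e b
      · simp [h]
      · simp only [Function.update_of_ne h, mv, Pi.add_apply]; split_ifs <;> simp
    · intro c r; ext k
      by_cases h : k = e b
      · simp [h]
      · simp only [Function.update_of_ne h, mv, Pi.smul_apply]; split_ifs <;> simp
  refine (allowed_lin_c (apow γ (ρ * (A.submatrix id e + vecMulVec t (Pi.single b 1)).det)) hs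
    (isLinear_comp hφ (isLinear_vecMul Q (isLinear_row (if act (e b) then ρ else 0) (e b))))
    (isLinear_comp hφ (isLinear_vecMul Q (isLinear_vecMul (mat x) hg)))).congr fun w => ?_
  refine lintegral_congr fun r => ?_
  simp only [PhiB]
  congr 2
  · have h1 : (A + vecMulVec t (Function.update r (e b) ρ)).submatrix id e = A.submatrix id e
        + vecMulVec t (ρ • Pi.single b 1 + Function.update r (e b) 0 ∘ e) := by
      ext a b'
      by_cases h : b' = b
      · simp [h, vecMulVec_apply]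
      · simp [h, vecMulVec_apply, he.ne h]
    rw [h1, hl.map_add, hl.map_smul, det_eq_zero_of_column_eq_zero b
      (A := A.submatrix id e + vecMulVec t (Function.update r (e b) 0 ∘ e))
      (fun a => by simp [vecMulVec_apply, hAk])]
    simp
  · rw [msk_add_vecMulVec, Matrix.add_mul, Matrix.add_mul, mul_pw_row (by simp [msk, hAk]),
      vecMulVec_mul, vecMulVec_mul, vecMul_pw_row, add_vecMul, hφ.map_add, add_comm]
    have h2 : Function.update (mv act (Function.update r (e b) ρ)) (e b) 0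
        = Function.update (mv act r) (e b) 0 := by
      ext k
      by_cases h : k = e b
      · simp [h]
      · simp [h, mv]
    have h3 : mv act (Function.update r (e b) ρ) (e b) = if act (e b) then ρ else 0 := by
      simp [mv]
    rw [h2, h3]

lemma dot_extend (he : Function.Injective e) (u : ι → ℝ) (n : B → ℝ) :
    u ⬝ᵥ Function.extend e n 0 = (u ∘ e) ⬝ᵥ n := by
  simp only [dotProduct]
  symm
  refine Finset.sum_of_injOn e he.injOn (fun _ _ => Finset.mem_univ _) (fun k _ hk => ?_)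
    fun b _ => by simp [he.extend_apply]
  rw [Function.extend_apply' _ _ _ (by simpa using hk)]
  simp

lemma allowed_low (he : Function.Injective e) (hact : ∀ b, act (e b)) {s : ℝ} (hs : 0 ≤ s)
    (O : Finset ι) (hO : ∀ k, k ∈ O ↔ ∃ b, e b = k) {k : ι} (hk : k ∉ O) (x : ι × κ → ℝ) :
    Allowed fun w => marg (fun q : ι × κ => q.1 ∈ O) (FB e act Q γ s)
      (pw (fun q : ι × κ => q.1 = k) w x) := by
  rcases isEmpty_or_nonempty B with hB | hB
  · refine (Allowed.const 1).congr fun w => ?_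
    simp [marg, FB, PhiB]
  have hke : ∀ b, e b ≠ k := fun b h => hk ((hO k).2 ⟨b, h⟩)
  have hm0 : Measurable fun q : ((B × ι → ℝ) × (ι × κ → ℝ)) × (ι × κ → ℝ) =>
      PhiB e act Q γ s (mat q.1.1)
        (mat (pw (fun q : ι × κ => q.1 ∈ O) q.2 (pw (fun q : ι × κ => q.1 = k) q.1.2 x))) :=
    measurable_PhiB e act Q γ s (by fun_prop) (by fun_prop)
  refine (allowed_reduce k (fun T w => ∫⁻ z, PhiB e act Q γ s T
    (mat (pw (fun q : ι × κ => q.1 ∈ O) z (pw (fun q : ι × κ => q.1 = k) w x))) ∂gam (ι × κ))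
    hm0.lintegral_prod_right' fun t ρ A ht hA hAk => ?_).congr fun w => ?_
  swap
  · exact lintegral_lintegral_swap
      (measurable_PhiB e act Q γ s measurable_snd (by fun_prop)).aemeasurable
  have hA0 : (A.submatrix id e).det = 0 := det_eq_zero_of_vecMul ht (by
    ext b'; exact congrFun hA (e b'))
  have hl := isLinear_det_add hA0 t
  obtain ⟨n, hn, hAn⟩ := exists_unit_mulVec hA0
  set ñ : ι → ℝ := Function.extend e n 0 with hñ
  have hñe : ñ ∘ e = n := by ext b; simp [hñ, he.extend_apply]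
  have hñO : ∀ k', k' ∉ O → ñ k' = 0 := fun k' hk' => by
    rw [hñ, Function.extend_apply' _ _ _ (by rwa [← hO])]; rfl
  have hñd : ∀ u, u ⬝ᵥ ñ = (u ∘ e) ⬝ᵥ n := fun u => dot_extend e he u n
  have hñ1 : ñ ⬝ᵥ ñ = 1 := by rw [hñd, hñe, hn]
  have hmv : ∀ u, mv act u ∘ e = u ∘ e := fun u => by ext b; simp [mv, hact]
  have hmp1 := mp_vec hñ1
  have hmp2 := mp_row (n := κ) hñ1
  -- the integrand after the two splittings
  set G : (Unit → ℝ) → (ι × κ → ℝ) → (ι × κ → ℝ) → (ι → ℝ) → (κ → ℝ) → ℝ≥0∞ :=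
    fun u z w r z' => PhiB e act Q γ s
      (mat (vec (A + vecMulVec t (Function.update (r - (ñ ⬝ᵥ r) • ñ + u () • ñ) k ρ))))
      (mat (pw (fun q : ι × κ => q.1 ∈ O) (vec (prj ñ (mat z) + vecMulVec ñ z'))
        (pw (fun q : ι × κ => q.1 = k) w x))) with hG
  have hc1 : Measurable fun r : ι → ℝ => vec (A + vecMulVec t (Function.update r k ρ)) :=
    Continuous.measurable (by fun_prop)
  have hGm : ∀ {X : Type} [MeasurableSpace X] {u : X → Unit → ℝ} {z w : X → ι × κ → ℝ}
      {r : X → ι → ℝ} {z' : X → κ → ℝ}, Measurable u → Measurable z → Measurable w →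
      Measurable r → Measurable z' → Measurable fun a => G (u a) (z a) (w a) (r a) (z' a) := by
    intro X _ u z w r z' hu hz hw' hr hz'
    exact measurable_PhiB e act Q γ s (hc1.comp (hmp1.measurable.comp (hu.prodMk hr)))
      (measurable_pw _ (hmp2.measurable.comp (hz.prodMk hz')) (by fun_prop))
  have hG1 : Measurable (Function.uncurry fun u w =>
      ∫⁻ z, ∫⁻ r, ∫⁻ z', G u z w r z' ∂gam κ ∂gam ι ∂gam (ι × κ)) := by
    refine Measurable.lintegral_prod_right' (f := fun q : ((Unit → ℝ) × (ι × κ → ℝ)) × (ι × κ → ℝ) =>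
      ∫⁻ r, ∫⁻ z', G q.1.1 q.2 q.1.2 r z' ∂gam κ ∂gam ι) ?_
    refine Measurable.lintegral_prod_right' (f := fun q :
      (((Unit → ℝ) × (ι × κ → ℝ)) × (ι × κ → ℝ)) × (ι → ℝ) =>
      ∫⁻ z', G q.1.1.1 q.1.2 q.1.1.2 q.2 z' ∂gam κ) ?_
    refine Measurable.lintegral_prod_right' (f := fun q :
      ((((Unit → ℝ) × (ι × κ → ℝ)) × (ι × κ → ℝ)) × (ι → ℝ)) × (κ → ℝ) =>
      G q.1.1.1.1 q.1.1.2 q.1.1.1.2 q.1.2 q.2) ?_
    exact hGm (by fun_prop) (by fun_prop) (by fun_prop) (by fun_prop) (by fun_prop)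
  have hG2 : ∀ u, Measurable (Function.uncurry fun z w =>
      ∫⁻ r, ∫⁻ z', G u z w r z' ∂gam κ ∂gam ι) := by
    intro u
    refine Measurable.lintegral_prod_right' (f := fun q :
      ((ι × κ → ℝ) × (ι × κ → ℝ)) × (ι → ℝ) => ∫⁻ z', G u q.1.1 q.1.2 q.2 z' ∂gam κ) ?_
    refine Measurable.lintegral_prod_right' (f := fun q :
      (((ι × κ → ℝ) × (ι × κ → ℝ)) × (ι → ℝ)) × (κ → ℝ) => G u q.1.1.1 q.1.1.2 q.1.2 q.2) ?_
    exact hGm (by fun_prop) (by fun_prop) (by fun_prop) (by fun_prop) (by fun_prop)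
  refine (Allowed.mix' (gam Unit) hG1 fun u => Allowed.mix' (gam (ι × κ)) (hG2 u)
    fun z => ?_).congr fun w => ?_
  swap
  · have hm3 : Measurable fun q : (ι → ℝ) × (ι × κ → ℝ) => PhiB e act Q γ s
        (mat (vec (A + vecMulVec t (Function.update q.1 k ρ))))
        (mat (pw (fun q : ι × κ => q.1 ∈ O) q.2 (pw (fun q : ι × κ => q.1 = k) w x))) :=
      measurable_PhiB e act Q γ s (hc1.comp measurable_fst) (by fun_prop)
    refine (lintegral_split hmp1 hm3.lintegral_prod_right').trans (lintegral_congr fun u => ?_)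
    symm
    rw [lintegral_lintegral_swap]
    · refine lintegral_congr fun r => ?_
      symm
      exact lintegral_split hmp2 (hm3.comp (measurable_const.prodMk measurable_id))
    · refine Measurable.aemeasurable (Measurable.lintegral_prod_right' (f := fun q :
        ((ι × κ → ℝ) × (ι → ℝ)) × (κ → ℝ) => G u q.1.1 w q.1.2 q.2) ?_)
      exact hGm (by fun_prop) (by fun_prop) (by fun_prop) (by fun_prop) (by fun_prop)
  -- the final linear structure
  set x₁ : ι × κ → ℝ := pw (fun q : ι × κ => q.1 ∈ O) (vec (prj ñ (mat z))) x with hx₁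
  have hφ := isLinear_det_add (A := msk act A * mat x₁ * Q) (det_eq_zero_of_vecMul ht (by
    rw [← vecMul_vecMul, ← vecMul_vecMul, vecMul_msk act hA, zero_vecMul, zero_vecMul])) t
  have hg : IsLinearMap ℝ fun r : ι → ℝ => Function.update (mv act (r - (ñ ⬝ᵥ r) • ñ)) k 0 := by
    constructor
    · intro r r'; ext k'
      by_cases h : k' = k
      · simp [h]
      · simp only [Function.update_of_ne h, mv, Pi.add_apply, dotProduct_add, Pi.sub_apply,
          Pi.smul_apply, smul_eq_mul]
        split_ifs <;> ring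
    · intro c r; ext k'
      by_cases h : k' = k
      · simp [h]
      · simp only [Function.update_of_ne h, mv, dotProduct_smul, Pi.sub_apply,
          Pi.smul_apply, smul_eq_mul]
        split_ifs <;> ring
  have hg' : IsLinearMap ℝ fun z' : κ → ℝ => u () • z' :=
    ⟨fun a b => smul_add _ _ _, fun c a => smul_comm _ _ _⟩
  have hα := isLinear_comp hφ (isLinear_vecMul Q (isLinear_vecMul (mat x₁) hg))
  have hα' := isLinear_comp hφ (isLinear_vecMul Q hg')
  refine (allowed_lin2_c (apow γ (u () * (A.submatrix id e + vecMulVec t n).det)) hs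
    (isLinear_comp hφ (isLinear_vecMul Q (isLinear_row (if act k then ρ else 0) k)))
    hα hα').congr fun w => ?_
  refine lintegral_congr fun r => lintegral_congr fun z' => ?_
  simp only [hG, PhiB, mat_vec]
  set r₁ := Function.update (r - (ñ ⬝ᵥ r) • ñ + u () • ñ) k ρ with hr₁
  have hr₁e : r₁ ∘ e = (r ∘ e - (ñ ⬝ᵥ r) • n) + u () • n := by
    ext b
    have := congrFun hñe b
    simp only [Function.comp] at this
    simp [hr₁, hke b, this]
  have hv0 : (r ∘ e - (ñ ⬝ᵥ r) • n) ⬝ᵥ n = 0 := by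
    rw [sub_dotProduct, smul_dotProduct, hn, dotProduct_comm ñ, hñd]; simp
  congr 2
  · have h1 : (A + vecMulVec t r₁).submatrix id e = A.submatrix id e + vecMulVec t (r₁ ∘ e) := by
      ext a b'; simp [vecMulVec_apply]
    rw [h1, hr₁e, hl.map_add, hl.map_smul, det_eq_zero_of_mulVec hn
      (A := A.submatrix id e + vecMulVec t (r ∘ e - (ñ ⬝ᵥ r) • n))
      (by rw [add_mulVec, hAn, vecMulVec_mulVec, hv0]; simp)]
    simp
  · have hZ : mat (pw (fun q : ι × κ => q.1 ∈ O) (vec (prj ñ (mat z) + vecMulVec ñ z'))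
        (pw (fun q : ι × κ => q.1 = k) w x))
        = mat (pw (fun q : ι × κ => q.1 = k) w x₁) + vecMulVec ñ z' := by
      ext k' j
      by_cases h : k' ∈ O
      · have : k' ≠ k := fun h' => hk (h' ▸ h)
        simp [pw, hx₁, h, this]
      · simp [pw, hx₁, h, vecMulVec_apply, hñO k' h]
    have hAñ : msk act A *ᵥ ñ = 0 := by
      ext a
      have h1 : (msk act A *ᵥ ñ) a = mv act (A a) ⬝ᵥ ñ := rfl
      rw [h1, hñd, hmv]
      exact congrFun hAn a
    have h2 : Function.update (mv act r₁) k 0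
        = Function.update (mv act (r - (ñ ⬝ᵥ r) • ñ)) k 0 + u () • ñ := by
      ext k'
      by_cases h : k' = k
      · simp [h, hñO k hk]
      · by_cases h' : k' ∈ O
        · obtain ⟨b, rfl⟩ := (hO k').1 h'
          simp [h, mv, hr₁, hact]
        · simp [h, mv, hr₁, hñO k' h']
    have h3 : mv act r₁ k = if act k then ρ else 0 := by simp [mv, hr₁]
    have h4 : ñ ᵥ* mat x₁ = 0 := by
      rw [← vecMul_prj hñ1 (mat z)]
      ext j
      simp only [vecMul, dotProduct, mat_apply, hx₁, pw]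
      refine Finset.sum_congr rfl fun k' _ => ?_
      split_ifs with h
      · rfl
      · simp [hñO k' h]
    have h5 : mv act r₁ ⬝ᵥ ñ = u () := by
      rw [hñd, hmv, hr₁e, add_dotProduct, hv0, smul_dotProduct, hn]; simp
    rw [hZ, msk_add_vecMulVec, Matrix.add_mul, Matrix.mul_add (msk act A), mul_vecMulVec, hAñ,
      mul_pw_row (by simp [msk, hAk]), zero_vecMulVec, add_zero, Matrix.add_mul,
      vecMulVec_mul, vecMulVec_mul, vecMul_add, vecMul_vecMulVec, h5, vecMul_pw_row, h2, h3,
      add_vecMul (mat x₁), smul_vecMul _ ñ, h4, smul_zero, add_zero, add_vecMul, add_vecMul,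
      hφ.map_add, hφ.map_add]
    ring

end

end Pool.Agent.Lib.MP_9d9c13_pr
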