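import Pool.Agent.Lib.MP_9d9c13_pr.Cross

/-!
The Laplace form of the Gaussian product inequality for linearly independent functionals.
-/

open MeasureTheory ProbabilityTheory Matrix Set Complex Filter Topology
open scoped ENNReal NNReal ComplexConjugate

namespace Pool.Agent.Lib.MP_9d9c13_pr

noncomputable section

variable {ι D : Type*} [Fintype ι] [Fintype D] [DecidableEq D]

/-- shift of one coefficient -/
def cs (c : D → ℝ) (b : D) (s : ℝ) : D → ℝ := fun j => c j + if j = b then s else 0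

@[fun_prop]
lemma measurable_cs {A : Type*} [MeasurableSpace A] (c : D → ℝ) (b : D) {s : A → ℝ}
    (hs : Measurable s) : Measurable fun a => cs c b (s a) := by
  refine measurable_pi_iff.2 fun j => ?_
  unfold cs
  split_ifs <;> fun_prop

lemma cs_zero (c : D → ℝ) (b : D) : cs c b 0 = c := by ext j; simp [cs]

lemma Vc_cs (B : D → ι → ℝ) (c : D → ℝ) (b : D) (s : ℝ) (x : ι → ℝ) :
    Vc B (cs c b s) x = Vc B c x + (s / (B b ⬝ᵥ x)) • B b := by
  simp only [Vc, cs, add_div, add_smul, Finset.sum_add_distrib]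
  congr 1
  rw [Finset.sum_eq_single b] <;> simp +contextual

lemma Vc_cs_dot (B : D → ι → ℝ) (c : D → ℝ) (b : D) (s : ℝ) (x y : ι → ℝ) :
    Vc B (cs c b s) x ⬝ᵥ y = Vc B c x ⬝ᵥ y + s * (B b ⬝ᵥ y / B b ⬝ᵥ x) := by
  rw [Vc_cs, add_dotProduct, smul_dotProduct, smul_eq_mul]; ring

lemma dual_dot_Vc {B U : D → ι → ℝ} (hU : ∀ i j, U i ⬝ᵥ B j = if i = j then 1 else 0)
    (c : D → ℝ) (b : D) (x : ι → ℝ) : U b ⬝ᵥ Vc B c x = c b / (B b ⬝ᵥ x) := by
  simp only [Vc, dotProduct_sum, dotProduct_smul, hU, smul_eq_mul]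
  simp

lemma dot_sq_le (u V : ι → ℝ) : (u ⬝ᵥ V) ^ 2 ≤ (u ⬝ᵥ u) * (V ⬝ᵥ V) := by
  have := Finset.sum_mul_sq_le_sq_mul_sq Finset.univ u V
  simpa only [dotProduct, sq] using this

lemma abs_dot_mul_le (u w V : ι → ℝ) :
    |(u ⬝ᵥ V) * (w ⬝ᵥ V)| * Real.exp (-(V ⬝ᵥ V) / 2) ≤ u ⬝ᵥ u + w ⬝ᵥ w := by
  have h1 := dot_sq_le u V
  have h2 := dot_sq_le w V
  have hV := dot_self_nonneg V
  have hu := dot_self_nonneg u
  have hw' := dot_self_nonneg w
  have h3 : |(u ⬝ᵥ V) * (w ⬝ᵥ V)| ≤ (u ⬝ᵥ u + w ⬝ᵥ w) * (V ⬝ᵥ V / 2) := by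
    rw [abs_le]; constructor <;> nlinarith [sq_nonneg (u ⬝ᵥ V + w ⬝ᵥ V), sq_nonneg (u ⬝ᵥ V - w ⬝ᵥ V)]
  have h4 : (V ⬝ᵥ V / 2) * Real.exp (-(V ⬝ᵥ V) / 2) ≤ 1 := by
    have h5 : V ⬝ᵥ V / 2 ≤ Real.exp (V ⬝ᵥ V / 2) := by
      linarith [Real.add_one_le_exp (V ⬝ᵥ V / 2)]
    calc _ ≤ Real.exp (V ⬝ᵥ V / 2) * Real.exp (-(V ⬝ᵥ V) / 2) := by gcongr
      _ = 1 := by rw [← Real.exp_add, show V ⬝ᵥ V / 2 + -(V ⬝ᵥ V) / 2 = 0 by ring, Real.exp_zero]
  calc _ ≤ (u ⬝ᵥ u + w ⬝ᵥ w) * (V ⬝ᵥ V / 2) * Real.exp (-(V ⬝ᵥ V) / 2) := by gcongr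
    _ = (u ⬝ᵥ u + w ⬝ᵥ w) * ((V ⬝ᵥ V / 2) * Real.exp (-(V ⬝ᵥ V) / 2)) := by ring
    _ ≤ _ := mul_le_of_le_one_right (by positivity) h4

/-- the cross term -/
def cr (B : D → ι → ℝ) (c : D → ℝ) (b : D) (u x : ι → ℝ) : ℝ :=
  (u ⬝ᵥ Vc B c x) / (B b ⬝ᵥ x) * hw B c x

@[fun_prop]
lemma measurable_cr {A : Type*} [MeasurableSpace A] (B : D → ι → ℝ) (b : D) (u : ι → ℝ)
    {c : A → D → ℝ} {x : A → ι → ℝ} (hc : Measurable c) (hx : Measurable x) :
    Measurable fun a => cr B (c a) b u (x a) := by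
  unfold cr; fun_prop

lemma abs_cr_le {B U : D → ι → ℝ} (hU : ∀ i j, U i ⬝ᵥ B j = if i = j then 1 else 0)
    {c : D → ℝ} {b : D} (hc : 0 < c b) (u x : ι → ℝ) :
    |cr B c b u x| ≤ (u ⬝ᵥ u + U b ⬝ᵥ U b) / c b := by
  have h1 : cr B c b u x = (u ⬝ᵥ Vc B c x) * (U b ⬝ᵥ Vc B c x) * hw B c x / c b := by
    rw [cr, dual_dot_Vc hU]; field_simp
  rw [h1, abs_div, abs_of_pos hc, abs_mul, abs_of_pos (hw_pos B c x)]
  gcongr
  exact abs_dot_mul_le _ _ _

lemma integrable_cr {B U : D → ι → ℝ} (hU : ∀ i j, U i ⬝ᵥ B j = if i = j then 1 else 0)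
    {c : D → ℝ} {b : D} (hc : 0 < c b) (u : ι → ℝ) : Integrable (cr B c b u) (gam ι) :=
  Integrable.mono' (integrable_const _)
    (by fun_prop : Measurable fun x => cr B c b u x).aestronglyMeasurable
    (ae_of_all _ fun x => abs_cr_le hU hc u x)

lemma intervalIntegral_mul_ei (a t δ : ℝ) :
    ∫ s in (0 : ℝ)..δ, (t : ℂ) * ei (a + s * t) = (ei (a + δ * t) - ei a) / I := by
  have h := intervalIntegral.integral_eq_sub_of_hasDerivAt (a := 0) (b := δ)
    (f := fun s : ℝ => ei (a + s * t)) (f' := fun s : ℝ => (t : ℂ) * I * ei (a + s * t))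
    (fun s _ => hasDerivAt_ei a t s) (Continuous.intervalIntegrable (by fun_prop) _ _)
  simp only [zero_mul, add_zero] at h
  rw [← h, eq_div_iff I_ne_zero, ← intervalIntegral.integral_mul_const]
  congr 1; ext s; ring

lemma intervalIntegral_cr {B U : D → ι → ℝ} (hU : ∀ i j, U i ⬝ᵥ B j = if i = j then 1 else 0)
    {c : D → ℝ} (hc : ∀ j, 0 < c j) {b : D} {u : ι → ℝ} (hub : u ⬝ᵥ B b = 0) {δ : ℝ}
    (hδ : |δ| ≤ c b / 2) :
    ∫ s in (0 : ℝ)..δ, ∫ x, cr B (cs c b s) b u x ∂gam ι = 0 := by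
  have hB : ∀ j, B j ⬝ᵥ B j ≠ 0 := by
    intro j h
    have h1 := hU j j
    rw [dotProduct_self_eq_zero.1 h] at h1; simp at h1
  have hfin : IsFiniteMeasure (volume.restrict (uIoc (0 : ℝ) δ)) := by
    rw [uIoc]; infer_instance
  have hs : ∀ s ∈ uIoc (0 : ℝ) δ, |s| ≤ c b / 2 := fun s hs =>
    (by simpa using abs_sub_left_of_mem_uIcc (uIoc_subset_uIcc hs) : |s| ≤ |δ|).trans hδ
  have hcs : ∀ s, |s| ≤ c b / 2 → ∀ j, 0 ≤ cs c b s j := by
    intro s hs j
    have := hc j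
    unfold cs
    split_ifs with h
    · subst h; linarith [neg_abs_le s]
    · linarith
  have hcsb : ∀ s, |s| ≤ c b / 2 → c b / 2 ≤ cs c b s b := by
    intro s hs; simp only [cs, if_true]; linarith [neg_abs_le s]
  set P := (gam ι).prod (gam ι) with hP
  have hk := integrable_kap u (hB b)
  have hk0 := integral_kap hub
  -- the three rotation identities
  have hre : ∀ s, |s| ≤ c b / 2 →
      ∫ p, ((kap u (B b) p).re : ℂ) * ei (Vc B (cs c b s) p.1 ⬝ᵥ p.2) ∂P = 0 := by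
    intro s hs
    rw [rotation_lemma hB (hcs s hs) (G := fun p => ((kap u (B b) p).re : ℂ)) (by fun_prop)
      hk.re.ofReal (fun θ p => by rw [kap_rot]),
      integral_complex_ofReal]
    have := integral_re hk
    rw [hk0] at this
    simp only [RCLike.re_to_complex, zero_re] at this
    rw [this]; simp
  have him : ∀ s, |s| ≤ c b / 2 →
      ∫ p, ((kap u (B b) p).im : ℂ) * ei (Vc B (cs c b s) p.1 ⬝ᵥ p.2) ∂P = 0 := by
    intro s hs
    rw [rotation_lemma hB (hcs s hs) (G := fun p => ((kap u (B b) p).im : ℂ)) (by fun_prop)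
      hk.im.ofReal (fun θ p => by rw [kap_rot]),
      integral_complex_ofReal]
    have := integral_im hk
    rw [hk0] at this
    simp only [RCLike.im_to_complex, zero_im] at this
    rw [this]; simp
  -- integrability of the pieces
  have hI1 : Integrable (Function.uncurry fun (s : ℝ) (p : (ι → ℝ) × (ι → ℝ)) =>
      ((kap u (B b) p).im : ℂ) * ei (Vc B (cs c b s) p.1 ⬝ᵥ p.2))
      ((volume.restrict (uIoc 0 δ)).prod P) := by
    refine Integrable.mono' (g := fun q => ‖kap u (B b) q.2‖) (hk.norm.comp_snd _) ?_ ?_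
    · have : Measurable fun q : ℝ × ((ι → ℝ) × (ι → ℝ)) =>
        ((kap u (B b) q.2).im : ℂ) * ei (Vc B (cs c b q.1) q.2.1 ⬝ᵥ q.2.2) := by fun_prop
      exact this.aestronglyMeasurable
    · refine ae_of_all _ fun q => ?_
      simp only [Function.uncurry, norm_mul, norm_ei, mul_one, norm_real, Real.norm_eq_abs]
      exact abs_im_le_norm _
  have hI2 : ∀ s, Integrable (fun p : (ι → ℝ) × (ι → ℝ) =>
      ((kap u (B b) p).re : ℂ) * ei (Vc B (cs c b s) p.1 ⬝ᵥ p.2)) P := by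
    intro s
    refine Integrable.mono' hk.norm (by fun_prop : Measurable _).aestronglyMeasurable ?_
    refine ae_of_all _ fun q => ?_
    simp only [norm_mul, norm_ei, mul_one, norm_real, Real.norm_eq_abs]
    exact abs_re_le_norm _
  have hI3 : Integrable (fun p : (ι → ℝ) × (ι → ℝ) => ∫ s in (0 : ℝ)..δ,
      ((kap u (B b) p).im : ℂ) * ei (Vc B (cs c b s) p.1 ⬝ᵥ p.2)) P := by
    simp_rw [intervalIntegral.intervalIntegral_eq_integral_uIoc]
    exact (hI1.integral_prod_right).smul _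
  set J : (ι → ℝ) × (ι → ℝ) → ℂ := fun p => (∫ s in (0 : ℝ)..δ,
      ((kap u (B b) p).im : ℂ) * ei (Vc B (cs c b s) p.1 ⬝ᵥ p.2))
      + (((kap u (B b) p).re : ℂ) * ei (Vc B (cs c b δ) p.1 ⬝ᵥ p.2)
        - ((kap u (B b) p).re : ℂ) * ei (Vc B (cs c b 0) p.1 ⬝ᵥ p.2)) / I with hJ
  have hJi : Integrable J P := hI3.add (((hI2 δ).sub (hI2 0)).div_const I)
  have hJ0 : ∫ p, J p ∂P = 0 := by
    have hI4 : Integrable (fun p : (ι → ℝ) × (ι → ℝ) =>
        (((kap u (B b) p).re : ℂ) * ei (Vc B (cs c b δ) p.1 ⬝ᵥ p.2)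
        - ((kap u (B b) p).re : ℂ) * ei (Vc B (cs c b 0) p.1 ⬝ᵥ p.2)) / I) P :=
      ((hI2 δ).sub (hI2 0)).div_const I
    simp only [hJ]
    rw [integral_add hI3 hI4, integral_div,
      integral_sub (hI2 δ) (hI2 0), hre δ hδ, hre 0 (by simpa using (half_pos (hc b)).le),
      ← intervalIntegral_integral_swap hI1,
      intervalIntegral.integral_congr_ae (g := fun _ => (0 : ℂ))]
    · simp
    · exact ae_of_all _ fun s hs' => him s (hs s hs')
  -- pointwise identity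
  have hpt : ∀ x, B b ⬝ᵥ x ≠ 0 →
      I * ((∫ s in (0 : ℝ)..δ, cr B (cs c b s) b u x : ℝ) : ℂ) = ∫ y, J (x, y) ∂gam ι := by
    intro x hx
    have hA : Integrable (Function.uncurry fun (s : ℝ) (y : ι → ℝ) =>
        ((u ⬝ᵥ y / B b ⬝ᵥ x : ℝ) : ℂ) * ei (Vc B (cs c b s) x ⬝ᵥ y))
        ((volume.restrict (uIoc 0 δ)).prod (gam ι)) := by
      refine Integrable.mono' (g := fun q => ‖u ⬝ᵥ q.2 / B b ⬝ᵥ x‖)
        (((integrable_dot u).div_const _).norm.comp_snd _) ?_ ?_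
      · have : Measurable fun q : ℝ × (ι → ℝ) =>
          ((u ⬝ᵥ q.2 / B b ⬝ᵥ x : ℝ) : ℂ) * ei (Vc B (cs c b q.1) x ⬝ᵥ q.2) := by fun_prop
        exact this.aestronglyMeasurable
      · refine ae_of_all _ fun q => ?_
        simp only [Function.uncurry, norm_mul, norm_ei, mul_one, norm_real, le_refl]
    have h1 := intervalIntegral_integral_swap hA
    have h2 : ∀ s, ∫ y, ((u ⬝ᵥ y / B b ⬝ᵥ x : ℝ) : ℂ) * ei (Vc B (cs c b s) x ⬝ᵥ y) ∂gam ι
        = I * ((cr B (cs c b s) b u x : ℝ) : ℂ) := by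
      intro s
      have : ∀ y, ((u ⬝ᵥ y / B b ⬝ᵥ x : ℝ) : ℂ) * ei (Vc B (cs c b s) x ⬝ᵥ y)
          = (((u ⬝ᵥ y : ℝ) : ℂ) * ei (Vc B (cs c b s) x ⬝ᵥ y)) / ((B b ⬝ᵥ x : ℝ) : ℂ) := fun y => by
        push_cast; ring
      simp_rw [this, integral_div, tilt, cr, hw]
      push_cast; ring
    simp_rw [h2, intervalIntegral.integral_const_mul, intervalIntegral.integral_ofReal] at h1
    rw [h1]
    refine integral_congr_ae (ae_of_all _ fun y => ?_)
    have h3 := kap_identity u (p := (x, y)) hx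
    simp only at h3
    simp only [hJ, h3, Vc_cs_dot]
    push_cast
    simp_rw [add_mul, mul_assoc]
    have h4 := intervalIntegral_mul_ei (Vc B c x ⬝ᵥ y) (B b ⬝ᵥ y / B b ⬝ᵥ x) δ
    push_cast at h4
    rw [intervalIntegral.integral_const_mul] at h4
    rw [h4, intervalIntegral.integral_const_mul]
    simp only [zero_mul, add_zero]
    ring
  -- conclusion
  have hC : Integrable (Function.uncurry fun (s : ℝ) (x : ι → ℝ) => cr B (cs c b s) b u x)
      ((volume.restrict (uIoc 0 δ)).prod (gam ι)) := by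
    refine Integrable.mono' (integrable_const ((u ⬝ᵥ u + U b ⬝ᵥ U b) / (c b / 2))) ?_ ?_
    · have : Measurable fun q : ℝ × (ι → ℝ) => cr B (cs c b q.1) b u q.2 := by fun_prop
      exact this.aestronglyMeasurable
    · have : ∀ᵐ q ∂(volume.restrict (uIoc (0 : ℝ) δ)).prod (gam ι), q.1 ∈ uIoc (0 : ℝ) δ :=
        Measure.quasiMeasurePreserving_fst.ae (ae_restrict_mem measurableSet_uIoc)
      filter_upwards [this] with q hq
      have h1 := hcsb _ (hs _ hq)
      have h2 := half_pos (hc b)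
      refine (abs_cr_le hU (lt_of_lt_of_le h2 h1) u q.2).trans ?_
      gcongr
      exact add_nonneg (dot_self_nonneg _) (dot_self_nonneg _)
  rw [intervalIntegral_integral_swap hC]
  have h5 : ∫ x, I * ((∫ s in (0 : ℝ)..δ, cr B (cs c b s) b u x : ℝ) : ℂ) ∂gam ι = 0 := by
    rw [← hJ0, integral_prod _ hJi]
    refine integral_congr_ae ?_
    filter_upwards [ae_dot_ne_zero (hB b)] with x hx using hpt x hx
  rw [integral_const_mul, integral_complex_ofReal] at h5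
  simpa using h5

/-- The cross terms have mean zero. -/
lemma integral_cr {B U : D → ι → ℝ} (hU : ∀ i j, U i ⬝ᵥ B j = if i = j then 1 else 0)
    {c : D → ℝ} (hc : ∀ j, 0 < c j) {b : D} {u : ι → ℝ} (hub : u ⬝ᵥ B b = 0) :
    ∫ x, cr B c b u x ∂gam ι = 0 := by
  set F : ℝ → ℝ := fun s => ∫ x, cr B (cs c b s) b u x ∂gam ι with hF
  have h2 := half_pos (hc b)
  have hev : ∀ᶠ s : ℝ in 𝓝 0, |s| ≤ c b / 2 := by
    filter_upwards [Icc_mem_nhds (neg_lt_zero.2 h2) h2] with s hs using abs_le.2 hs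
  have hcont : ContinuousAt F 0 := by
    refine continuousAt_of_dominated (bound := fun _ => (u ⬝ᵥ u + U b ⬝ᵥ U b) / (c b / 2))
      (Eventually.of_forall fun s => (by fun_prop : Measurable _).aestronglyMeasurable) ?_
      (integrable_const _) (ae_of_all _ fun x => ?_)
    · filter_upwards [hev] with s hs
      refine ae_of_all _ fun x => ?_
      have h1 : c b / 2 ≤ cs c b s b := by simp only [cs, if_true]; linarith [neg_abs_le s]
      refine (abs_cr_le hU (lt_of_lt_of_le h2 h1) u x).trans ?_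
      gcongr
      exact add_nonneg (dot_self_nonneg _) (dot_self_nonneg _)
    · simp only [cr, hw, Vc_cs, dotProduct]
      fun_prop
  have hmeas : StronglyMeasurable F := by
    have : Measurable fun q : ℝ × (ι → ℝ) => cr B (cs c b q.1) b u q.2 := by fun_prop
    exact this.stronglyMeasurable.integral_prod_right'
  have hd := intervalIntegral.integral_hasDerivAt_right (a := 0) (b := 0) (f := F) (by simp)
    hmeas.stronglyMeasurableAtFilter hcont
  have hz : (fun δ => ∫ s in (0 : ℝ)..δ, F s) =ᶠ[𝓝 0] fun _ => 0 := by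
    filter_upwards [hev] with δ hδ using intervalIntegral_cr hU hc hub hδ
  have := (hd.congr_of_eventuallyEq hz.symm).unique (hasDerivAt_const (0 : ℝ) (0 : ℝ))
  simpa [hF, cs_zero] using this

/-- The Laplace form of the product inequality, independent functionals. -/
lemma laplace_indep {B U : D → ι → ℝ} (hU : ∀ i j, U i ⬝ᵥ B j = if i = j then 1 else 0)
    {c : D → ℝ} (hc : ∀ j, 0 < c j) :
    Real.exp (-∑ j, c j)
      ≤ ∫ x, Real.exp (-(∑ j, (B j ⬝ᵥ B j) * (c j / (B j ⬝ᵥ x)) ^ 2) / 2) ∂gam ι := by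
  have hB : ∀ j, B j ⬝ᵥ B j ≠ 0 := by
    intro j h
    have h1 := hU j j
    rw [dotProduct_self_eq_zero.1 h] at h1; simp at h1
  set u : D → ι → ℝ := fun b => B b - (B b ⬝ᵥ B b) • U b with hu
  have hub : ∀ b, u b ⬝ᵥ B b = 0 := fun b => by
    simp [hu, sub_dotProduct, hU]
  have hint : ∀ b, Integrable (fun x => c b / 2 * cr B c b (u b) x) (gam ι) := fun b =>
    (integrable_cr hU (hc b) _).const_mul _
  have h1 : ∫ x, (hw B c x + ∑ b, c b / 2 * cr B c b (u b) x) ∂gam ι = Real.exp (-∑ j, c j) := by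
    rw [integral_add (integrable_hw B c) (integrable_finsetSum _ fun b _ => hint b),
      integral_finsetSum _ fun b _ => hint b, integral_hw hB fun j => (hc j).le]
    simp_rw [integral_const_mul, integral_cr hU hc (hub _)]
    simp
  rw [← h1]
  refine integral_mono ((integrable_hw B c).add (integrable_finsetSum _ fun b _ => hint b))
    (Integrable.mono' (integrable_const 1) (by fun_prop : Measurable _).aestronglyMeasurable
      (ae_of_all _ fun x => ?_)) fun x => ?_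
  · rw [Real.norm_eq_abs, abs_of_pos (Real.exp_pos _), Real.exp_le_one_iff]
    have : 0 ≤ ∑ j, (B j ⬝ᵥ B j) * (c j / (B j ⬝ᵥ x)) ^ 2 :=
      Finset.sum_nonneg fun j _ => mul_nonneg (dot_self_nonneg _) (sq_nonneg _)
    linarith
  · have h2 : ∑ b, c b / 2 * cr B c b (u b) x
        = hw B c x * ((Vc B c x ⬝ᵥ Vc B c x - ∑ j, (B j ⬝ᵥ B j) * (c j / (B j ⬝ᵥ x)) ^ 2) / 2) := by
      conv_rhs => rw [Vc_dot]
      rw [← Finset.sum_sub_distrib, Finset.sum_div, Finset.mul_sum]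
      refine Finset.sum_congr rfl fun b _ => ?_
      simp only [cr, hu, sub_dotProduct, smul_dotProduct, dual_dot_Vc hU, smul_eq_mul]
      ring
    simp only [h2]
    set Q := Vc B c x ⬝ᵥ Vc B c x
    set E := ∑ j, (B j ⬝ᵥ B j) * (c j / (B j ⬝ᵥ x)) ^ 2
    have h3 : Real.exp (-E / 2) = hw B c x * Real.exp ((Q - E) / 2) := by
      rw [hw, ← Real.exp_add]; congr 1; ring
    rw [h3]
    have := Real.add_one_le_exp ((Q - E) / 2)
    nlinarith [hw_pos B c x]

end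

end Pool.Agent.Lib.MP_9d9c13_pr
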