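import Pool.Agent.Lib.MP_9d9c13_pr.Rotation

/-!
The Cauchy identity and the vanishing of the cross terms.
-/

open MeasureTheory ProbabilityTheory Matrix Set Complex Filter Topology
open scoped ENNReal NNReal ComplexConjugate

namespace Pool.Agent.Lib.MP_9d9c13_pr

noncomputable section

variable {ι D : Type*} [Fintype ι] [Fintype D]

lemma hasDerivAt_ei (a b s : ℝ) :
    HasDerivAt (fun s : ℝ => ei (a + s * b)) ((b : ℂ) * I * ei (a + s * b)) s := by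
  have h1 : HasDerivAt (fun s : ℝ => ((a + s * b : ℝ) : ℂ) * I) ((b : ℂ) * I) s := by
    have : HasDerivAt (fun s : ℝ => a + s * b) b s := by
      simpa using ((hasDerivAt_id s).mul_const b).const_add a
    exact this.ofReal_comp.mul_const I
  simpa [ei, mul_comm] using h1.cexp

lemma tilt (u V : ι → ℝ) :
    ∫ y, ((u ⬝ᵥ y : ℝ) : ℂ) * ei (V ⬝ᵥ y) ∂gam ι
      = I * (u ⬝ᵥ V : ℝ) * (Real.exp (-(V ⬝ᵥ V) / 2) : ℝ) := by
  have h1 := (hasDerivAt_integral_of_dominated_loc_of_deriv_le (μ := gam ι) (𝕜 := ℝ)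
    (F := fun (t : ℝ) y => ei (V ⬝ᵥ y + t * (u ⬝ᵥ y)))
    (F' := fun (t : ℝ) y => ((u ⬝ᵥ y : ℝ) : ℂ) * I * ei (V ⬝ᵥ y + t * (u ⬝ᵥ y)))
    (x₀ := 0) (bound := fun y => |u ⬝ᵥ y|) univ_mem
    (Eventually.of_forall fun t => (by fun_prop : Measurable _).aestronglyMeasurable)
    (Integrable.mono' (integrable_const 1) (by fun_prop : Measurable _).aestronglyMeasurable
      (ae_of_all _ fun y => (norm_ei _).le))
    (by fun_prop : Measurable _).aestronglyMeasurable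
    (ae_of_all _ fun y t _ => by simp)
    (integrable_dot u).abs
    (ae_of_all _ fun y t _ => hasDerivAt_ei _ _ t)).2
  have h2 : (fun t : ℝ => ∫ y, ei (V ⬝ᵥ y + t * (u ⬝ᵥ y)) ∂gam ι)
      = fun t : ℝ => ((Real.exp (-(V ⬝ᵥ V + 2 * t * (u ⬝ᵥ V) + t ^ 2 * (u ⬝ᵥ u)) / 2) : ℝ) : ℂ) := by
    ext t
    have : ∀ y, V ⬝ᵥ y + t * (u ⬝ᵥ y) = (V + t • u) ⬝ᵥ y := fun y => by
      simp [add_dotProduct]
    simp_rw [this, char_gam]
    congr 4
    simp only [add_dotProduct, dotProduct_add, smul_dotProduct, dotProduct_smul, smul_eq_mul,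
      dotProduct_comm V u]
    ring
  rw [h2] at h1
  have h3 : HasDerivAt (fun t : ℝ => -(V ⬝ᵥ V + 2 * t * (u ⬝ᵥ V) + t ^ 2 * (u ⬝ᵥ u)) / 2)
      (-(u ⬝ᵥ V)) 0 := by
    have := (((((hasDerivAt_id (0 : ℝ)).const_mul 2).mul_const (u ⬝ᵥ V)).const_add (V ⬝ᵥ V)).add
      ((hasDerivAt_pow 2 (0 : ℝ)).mul_const (u ⬝ᵥ u))).neg.div_const 2
    refine (this.congr_deriv ?_).congr_of_eventuallyEq (Eventually.of_forall fun t => ?_)
    · simp; ring
    · simp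
  have h4 := h1.unique h3.exp.ofReal_comp
  simp only [zero_mul, add_zero, mul_zero] at h4
  have h5 : ∀ y, ((u ⬝ᵥ y : ℝ) : ℂ) * I * ei (V ⬝ᵥ y) = I * (((u ⬝ᵥ y : ℝ) : ℂ) * ei (V ⬝ᵥ y)) :=
    fun y => by ring
  simp_rw [h5, integral_const_mul] at h4
  apply mul_left_cancel₀ I_ne_zero
  rw [h4]
  simp only [ne_eq, OfNat.ofNat_ne_zero, not_false_eq_true, zero_pow, zero_mul, add_zero]
  push_cast
  linear_combination (-(((u ⬝ᵥ V : ℝ) : ℂ) * Complex.exp (-((V ⬝ᵥ V : ℝ) : ℂ) / 2))) * I_sq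

/-- the weight `exp (-|V|² / 2)` -/
def hw (B : D → ι → ℝ) (c : D → ℝ) (x : ι → ℝ) : ℝ := Real.exp (-(Vc B c x ⬝ᵥ Vc B c x) / 2)

@[fun_prop]
lemma measurable_dot2 {A : Type*} [MeasurableSpace A] {f g : A → ι → ℝ} (hf : Measurable f)
    (hg : Measurable g) : Measurable fun a => f a ⬝ᵥ g a := by
  unfold dotProduct; fun_prop

@[fun_prop]
lemma measurable_hw {A : Type*} [MeasurableSpace A] (B : D → ι → ℝ) {c : A → D → ℝ}
    {x : A → ι → ℝ} (hc : Measurable c) (hx : Measurable x) :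
    Measurable fun a => hw B (c a) (x a) := by
  unfold hw; fun_prop

lemma hw_pos (B : D → ι → ℝ) (c : D → ℝ) (x : ι → ℝ) : 0 < hw B c x := Real.exp_pos _

lemma hw_le_one (B : D → ι → ℝ) (c : D → ℝ) (x : ι → ℝ) : hw B c x ≤ 1 := by
  rw [hw, Real.exp_le_one_iff]
  have := dot_self_nonneg (Vc B c x)
  linarith

lemma integrable_hw (B : D → ι → ℝ) (c : D → ℝ) : Integrable (hw B c) (gam ι) :=
  Integrable.mono' (integrable_const 1)
    (by fun_prop : Measurable fun x => hw B c x).aestronglyMeasurable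
    (ae_of_all _ fun x => by rw [Real.norm_eq_abs, abs_of_pos (hw_pos B c x)]; exact hw_le_one B c x)

/-- The Cauchy identity. -/
lemma integral_hw {B : D → ι → ℝ} (hB : ∀ j, B j ⬝ᵥ B j ≠ 0) {c : D → ℝ} (hc : ∀ j, 0 ≤ c j) :
    ∫ x, hw B c x ∂gam ι = Real.exp (-∑ j, c j) := by
  have h := rotation_lemma hB hc (G := fun _ => 1) measurable_const (integrable_const _)
    (fun _ _ => rfl)
  simp only [one_mul, integral_const, probReal_univ, one_smul, mul_one] at h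
  rw [integral_prod _ (Integrable.mono' (integrable_const 1)
    (by fun_prop : Measurable _).aestronglyMeasurable (ae_of_all _ fun p => (norm_ei _).le))] at h
  simp_rw [char_gam] at h
  rw [integral_complex_ofReal] at h
  exact_mod_cast h

/-- the rotation invariant ratio -/
def kap (u b : ι → ℝ) (p : (ι → ℝ) × (ι → ℝ)) : ℂ := cx u p / cx b p

@[fun_prop]
lemma measurable_kap (u b : ι → ℝ) : Measurable (kap u b) := by
  unfold kap; fun_prop

lemma kap_rot (u b : ι → ℝ) (θ : ℝ) (p : (ι → ℝ) × (ι → ℝ)) : kap u b (rot θ p) = kap u b p := by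
  simp only [kap, cx_rot, mul_div_mul_left _ _ (ei_ne_zero θ)]

lemma inv_norm_le {X Y R s t : ℝ} (hX : X ≠ 0) (hY : Y ≠ 0) (hXR : |X| ≤ R) (hYR : |Y| ≤ R)
    (hs : 0 ≤ s) (ht : 0 ≤ t) (hst : s + t = 1) : R⁻¹ ≤ |X| ^ (-s) * |Y| ^ (-t) := by
  have hX' := abs_pos.2 hX
  have hY' := abs_pos.2 hY
  have hR : 0 < R := lt_of_lt_of_le hX' hXR
  calc R⁻¹ = R ^ (-s) * R ^ (-t) := by
        rw [← Real.rpow_add hR, show -s + -t = -1 by linarith, Real.rpow_neg_one]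
    _ ≤ _ := mul_le_mul (Real.rpow_le_rpow_of_nonpos hX' hXR (by linarith))
        (Real.rpow_le_rpow_of_nonpos hY' hYR (by linarith)) (by positivity) (by positivity)

lemma integrable_kap (u : ι → ℝ) {b : ι → ℝ} (hb : b ⬝ᵥ b ≠ 0) :
    Integrable (kap u b) ((gam ι).prod (gam ι)) := by
  have hg : Integrable (fun x => |b ⬝ᵥ x| ^ (-(2 / 3) : ℝ)) (gam ι) :=
    integrable_abs_dot_rpow b (by norm_num)
  have hf := (integrable_dot_sq u).add hg
  refine Integrable.mono' ((hf.mul_prod hg).add (hg.mul_prod hf))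
    (measurable_kap u b).aestronglyMeasurable ?_
  filter_upwards [Measure.quasiMeasurePreserving_fst.ae (ae_dot_ne_zero hb),
    Measure.quasiMeasurePreserving_snd.ae (ae_dot_ne_zero hb)] with p hX hY
  have hXR : |b ⬝ᵥ p.1| ≤ ‖cx b p‖ := by rw [← cx_re]; exact abs_re_le_norm _
  have hYR : |b ⬝ᵥ p.2| ≤ ‖cx b p‖ := by rw [← cx_im]; exact abs_im_le_norm _
  have h1 := inv_norm_le hX hY hXR hYR (s := 1 / 3) (t := 2 / 3) (by norm_num) (by norm_num)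
    (by norm_num)
  have h2 := inv_norm_le hX hY hXR hYR (s := 2 / 3) (t := 1 / 3) (by norm_num) (by norm_num)
    (by norm_num)
  have h3 : ‖cx u p‖ ≤ |u ⬝ᵥ p.1| + |u ⬝ᵥ p.2| := by
    rw [← cx_re, ← cx_im]; exact norm_le_abs_re_add_abs_im _
  have key : ∀ (a X : ℝ), X ≠ 0 → |a| * |X| ^ (-(1 / 3) : ℝ) ≤ a ^ 2 + |X| ^ (-(2 / 3) : ℝ) := by
    intro a X hX
    have : |X| ^ (-(2 / 3) : ℝ) = (|X| ^ (-(1 / 3) : ℝ)) ^ 2 := by
      rw [← Real.rpow_natCast, ← Real.rpow_mul (abs_nonneg _)]; norm_num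
    rw [this, ← sq_abs a]
    nlinarith [sq_nonneg (|a| - |X| ^ (-(1 / 3) : ℝ)), sq_nonneg |a|,
      sq_nonneg (|X| ^ (-(1 / 3) : ℝ))]
  have hRinv : 0 ≤ ‖cx b p‖⁻¹ := by positivity
  simp only [kap, norm_div, Pi.add_apply]
  calc ‖cx u p‖ / ‖cx b p‖ ≤ |u ⬝ᵥ p.1| * ‖cx b p‖⁻¹ + |u ⬝ᵥ p.2| * ‖cx b p‖⁻¹ := by
        rw [div_eq_mul_inv, ← add_mul]; exact mul_le_mul_of_nonneg_right h3 hRinv
    _ ≤ |u ⬝ᵥ p.1| * (|b ⬝ᵥ p.1| ^ (-(1 / 3) : ℝ) * |b ⬝ᵥ p.2| ^ (-(2 / 3) : ℝ))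
        + |u ⬝ᵥ p.2| * (|b ⬝ᵥ p.1| ^ (-(2 / 3) : ℝ) * |b ⬝ᵥ p.2| ^ (-(1 / 3) : ℝ)) := by
        gcongr
    _ = (|u ⬝ᵥ p.1| * |b ⬝ᵥ p.1| ^ (-(1 / 3) : ℝ)) * |b ⬝ᵥ p.2| ^ (-(2 / 3) : ℝ)
        + |b ⬝ᵥ p.1| ^ (-(2 / 3) : ℝ) * (|u ⬝ᵥ p.2| * |b ⬝ᵥ p.2| ^ (-(1 / 3) : ℝ)) := by ring
    _ ≤ _ := by
        gcongr
        · exact key _ _ hX
        · exact key _ _ hY

/-- reflection in the hyperplane orthogonal to `u` -/
def refl (u x : ι → ℝ) : ι → ℝ := x - (2 * (u ⬝ᵥ x) / (u ⬝ᵥ u)) • u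

lemma mp_refl (u : ι → ℝ) : MeasurePreserving (refl u) (gam ι) (gam ι) := by
  refine mp1 (by unfold refl; fun_prop) fun t => ⟨refl u t, fun x => ?_, ?_⟩
  · simp only [refl, dotProduct_sub, sub_dotProduct, dotProduct_smul, smul_dotProduct, smul_eq_mul,
      dotProduct_comm t u]
    ring
  · simp only [refl, dotProduct_sub, sub_dotProduct, dotProduct_smul, smul_dotProduct, smul_eq_mul,
      dotProduct_comm t u]
    by_cases h : u ⬝ᵥ u = 0
    · simp [h]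
    · field_simp; ring

lemma integral_kap {u b : ι → ℝ} (hub : u ⬝ᵥ b = 0) :
    ∫ p, kap u b p ∂(gam ι).prod (gam ι) = 0 := by
  by_cases hu : u ⬝ᵥ u = 0
  · have : u = 0 := dotProduct_self_eq_zero.1 hu
    simp [kap, cx, this]
  have hmp := (mp_refl u).prod (mp_refl u)
  have h1 : ∀ x, u ⬝ᵥ refl u x = -(u ⬝ᵥ x) := fun x => by
    simp only [refl, dotProduct_sub, dotProduct_smul, smul_eq_mul]; field_simp; ring
  have h2 : ∀ x, b ⬝ᵥ refl u x = b ⬝ᵥ x := fun x => by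
    simp [refl, dotProduct_sub, dotProduct_smul, dotProduct_comm b u, hub]
  have h3 : ∀ p, kap u b (Prod.map (refl u) (refl u) p) = -kap u b p := fun p => by
    simp only [kap, cx, Prod.map_fst, Prod.map_snd, h1, h2]
    push_cast; ring
  have h4 : ∫ p, kap u b p ∂(gam ι).prod (gam ι) = -∫ p, kap u b p ∂(gam ι).prod (gam ι) := by
    conv_lhs => rw [← hmp.map_eq]
    rw [integral_map hmp.measurable.aemeasurable (measurable_kap u b).aestronglyMeasurable]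
    simp_rw [h3, integral_neg]
  linear_combination h4 / 2

lemma kap_identity (u : ι → ℝ) {b : ι → ℝ} {p : (ι → ℝ) × (ι → ℝ)} (h : b ⬝ᵥ p.1 ≠ 0) :
    u ⬝ᵥ p.2 / b ⬝ᵥ p.1 = (kap u b p).im + (kap u b p).re * (b ⬝ᵥ p.2 / b ⬝ᵥ p.1) := by
  have hn : normSq (cx b p) ≠ 0 := by
    rw [normSq_apply, cx_re]
    have := mul_self_pos.2 h
    nlinarith [mul_self_nonneg (cx b p).im]
  rw [kap, div_im, div_re, cx_re, cx_re, cx_im, cx_im]
  have hn' := hn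
  rw [normSq_apply, cx_re, cx_im] at hn'
  rw [normSq_apply, cx_re, cx_im]
  field_simp
  ring

end

end Pool.Agent.Lib.MP_9d9c13_pr
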