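import Pool.Agent.Lib.MP_9d9c13_pr.Allowed

/-!
Powers of Gaussian affine functionals are mixtures of basic functions; the decoupling theorem.
-/

open MeasureTheory ProbabilityTheory Matrix Set Filter Topology
open scoped ENNReal NNReal

namespace Pool.Agent.Lib.MP_9d9c13_pr

noncomputable section

variable {ι κ η D : Type} [Fintype ι] [Fintype κ] [Fintype η] [Fintype D]

/-- normalising constant of the mixture representation of a power -/
def Kc (s : ℝ) : ℝ≥0∞ := ∫⁻ c, apow (s - 1) c * ENNReal.ofReal (kf (1 / c))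

lemma Kc_eq (s : ℝ) :
    Kc s = ∫⁻ c : ℝ, ENNReal.ofReal (|c| ^ (s - 1) * Real.exp (-(1 / 2) * c ^ 2)) := by
  refine lintegral_congr_ae ?_
  filter_upwards [(volume : Measure ℝ).ae_ne 0] with c hc
  rw [apow_eq_ofReal (Or.inl hc), kf_of_ne (one_div_ne_zero hc), ENNReal.ofReal_mul (by positivity)]
  congr 3
  field_simp

lemma Kc_ne_top {s : ℝ} (hs : 0 < s) : Kc s ≠ ⊤ := by
  rw [Kc_eq]
  exact (integrable_abs_rpow_mul_exp (b := 1 / 2) (by norm_num) (by linarith)).lintegral_lt_top.ne

lemma Kc_ne_zero (s : ℝ) : Kc s ≠ 0 := by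
  rw [Kc_eq]
  intro h
  rw [lintegral_eq_zero_iff (by fun_prop)] at h
  have h2 : ∀ᵐ c : ℝ, False := by
    filter_upwards [h, (volume : Measure ℝ).ae_ne 0] with c hc hc0
    have : 0 < |c| ^ (s - 1) * Real.exp (-(1 / 2) * c ^ 2) := by
      have := abs_pos.2 hc0
      positivity
    simp only [Pi.zero_apply, ENNReal.ofReal_eq_zero] at hc
    linarith
  simp [NeZero.ne] at h2

lemma lintegral_kf_scale {s : ℝ} (hs : 0 < s) (x : ℝ) :
    ∫⁻ c, apow (s - 1) c * ENNReal.ofReal (kf (x / c)) = apow s x * Kc s := by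
  by_cases hx : x = 0
  · subst hx
    simp [kf_zero, apow, ENNReal.zero_rpow_of_pos hs]
  have hm : Measurable fun c => apow (s - 1) c * ENNReal.ofReal (kf (x / c)) := by fun_prop
  have h1 := lintegral_map (μ := (volume : Measure ℝ)) hm (measurable_const_mul x)
  rw [Real.map_volume_mul_left hx, lintegral_smul_measure, smul_eq_mul] at h1
  have h2 : ∀ c, apow (s - 1) (x * c) * ENNReal.ofReal (kf (x / (x * c)))
      = apow (s - 1) x * (apow (s - 1) c * ENNReal.ofReal (kf (1 / c))) := by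
    intro c
    rw [apow_mul, mul_assoc, ← div_div, div_self hx]
  simp_rw [h2] at h1
  rw [lintegral_const_mul _ (by fun_prop)] at h1
  have hx' := abs_pos.2 hx
  have h3 : ENNReal.ofReal |x| * ENNReal.ofReal |x⁻¹| = 1 := by
    rw [← ENNReal.ofReal_mul (abs_nonneg _), ← abs_mul, mul_inv_cancel₀ hx]; simp
  have h4 : ENNReal.ofReal |x| * apow (s - 1) x = apow s x := by
    rw [apow_eq_ofReal (Or.inl hx), apow_eq_ofReal (Or.inl hx), ← ENNReal.ofReal_mul (abs_nonneg _),
      Real.rpow_sub_one hx'.ne']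
    congr 1; field_simp
  calc _ = ENNReal.ofReal |x| * (ENNReal.ofReal |x⁻¹| *
        ∫⁻ c, apow (s - 1) c * ENNReal.ofReal (kf (x / c))) := by rw [← mul_assoc, h3, one_mul]
    _ = _ := by rw [h1, ← mul_assoc, h4]; rfl

lemma Allowed.const (c : ℝ≥0∞) : Allowed fun _ : ι → ℝ => c := by
  set K := ∫⁻ g, ENNReal.ofReal (kf g) ∂gaussianReal 0 1 with hK
  have h1 : K ≠ ⊤ := by
    refine ne_top_of_le_ne_top ENNReal.one_ne_top ?_
    calc K ≤ ∫⁻ _, 1 ∂gaussianReal 0 1 :=
          lintegral_mono fun g => ENNReal.ofReal_le_one.2 (kf_le_one g)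
      _ = 1 := by simp
  have h0 : K ≠ 0 := by
    intro h
    rw [hK, lintegral_eq_zero_iff (by fun_prop)] at h
    have := nullSingletonClass_gaussianReal (μ := 0) (v := 1) one_ne_zero
    have h2 : ∀ᵐ g ∂gaussianReal 0 1, False := by
      filter_upwards [h, (gaussianReal 0 1).ae_ne 0] with g hg hg0
      simp only [Pi.zero_apply, ENNReal.ofReal_eq_zero, kf_of_ne hg0] at hg
      exact absurd hg (not_le.2 (Real.exp_pos _))
    simp [NeZero.ne] at h2
  refine ((Allowed.base (0 : ι → ℝ) 1).cmul (c * K⁻¹)).congr fun w => ?_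
  simp only [basef, zero_dotProduct, one_mul, zero_add, ← hK]
  rw [mul_assoc, ENNReal.inv_mul_cancel h0 h1, mul_one]

lemma allowed_apow {s : ℝ} (hs : 0 ≤ s) (b : ι → ℝ) (σ : ℝ) :
    Allowed fun w => ∫⁻ g, apow s (b ⬝ᵥ w + σ * g) ∂gaussianReal 0 1 := by
  rcases hs.eq_or_lt with rfl | hs
  · exact (Allowed.const 1).congr fun w => by simp
  have hF : Measurable (Function.uncurry fun (c : ℝ) (w : ι → ℝ) =>
      apow (s - 1) c * basef (c⁻¹ • b) (σ / c) w) := by
    have h1 : Measurable fun q : (ℝ × (ι → ℝ)) × ℝ =>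
        ENNReal.ofReal (kf ((q.1.1⁻¹ • b) ⬝ᵥ q.1.2 + σ / q.1.1 * q.2)) := by fun_prop
    exact (by fun_prop : Measurable fun q : ℝ × (ι → ℝ) => apow (s - 1) q.1).mul
      h1.lintegral_prod_right'
  refine ((Allowed.mix' volume hF fun c => (Allowed.base _ _).cmul _).cmul (Kc s)⁻¹).congr
    fun w => ?_
  have h2 : ∀ c, apow (s - 1) c * basef (c⁻¹ • b) (σ / c) w
      = ∫⁻ g, apow (s - 1) c * ENNReal.ofReal (kf ((b ⬝ᵥ w + σ * g) / c)) ∂gaussianReal 0 1 := by
    intro c
    rw [lintegral_const_mul _ (by fun_prop), basef]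
    congr 1
    refine lintegral_congr fun g => ?_
    rw [smul_dotProduct, smul_eq_mul]
    congr 2; ring
  simp_rw [h2]
  rw [lintegral_lintegral_swap (Measurable.aemeasurable (by unfold Function.uncurry; fun_prop))]
  simp_rw [lintegral_kf_scale hs]
  rw [lintegral_mul_const _ (by fun_prop), mul_comm, mul_assoc,
    ENNReal.mul_inv_cancel (Kc_ne_zero s) (Kc_ne_top hs), mul_one]

lemma allowed_lin {s : ℝ} (hs : 0 ≤ s) {β : (ι → ℝ) → ℝ} (hβ : IsLinearMap ℝ β)
    {α : (κ → ℝ) → ℝ} (hα : IsLinearMap ℝ α) :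
    Allowed fun w => ∫⁻ y, apow s (β w + α y) ∂gam κ := by
  obtain ⟨b, hb⟩ := exists_dot_of_isLinear hβ
  obtain ⟨a, ha⟩ := exists_dot_of_isLinear hα
  refine (allowed_apow hs b (√(a ⬝ᵥ a))).congr fun w => ?_
  simp_rw [ha, hb]
  exact lintegral_dot a (f := fun t => apow s (b ⬝ᵥ w + t)) (by fun_prop)

lemma allowed_lin2 {s : ℝ} (hs : 0 ≤ s) {β : (ι → ℝ) → ℝ} (hβ : IsLinearMap ℝ β)
    {α : (κ → ℝ) → ℝ} (hα : IsLinearMap ℝ α) {α' : (η → ℝ) → ℝ} (hα' : IsLinearMap ℝ α') :
    Allowed fun w => ∫⁻ y, ∫⁻ z, apow s (β w + α y + α' z) ∂gam η ∂gam κ := by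
  classical
  obtain ⟨b, hb⟩ := exists_dot_of_isLinear hβ
  obtain ⟨a, ha⟩ := exists_dot_of_isLinear hα
  obtain ⟨a', ha'⟩ := exists_dot_of_isLinear hα'
  refine (allowed_apow hs b (√(Sum.elim a' a ⬝ᵥ Sum.elim a' a))).congr fun w => ?_
  rw [← lintegral_dot (Sum.elim a' a) (f := fun t => apow s (b ⬝ᵥ w + t)) (by fun_prop),
    lintegral_split mp_elim (by fun_prop)]
  simp_rw [ha, hb, ha']
  refine lintegral_congr fun y => lintegral_congr fun z => ?_
  congr 1
  simp [dotProduct, Fintype.sum_sum_type, add_comm, add_assoc]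

/-- integrate out the coordinates satisfying `P` -/
def marg (P : ι → Prop) [DecidablePred P] (F : (ι → ℝ) → ℝ≥0∞) (x : ι → ℝ) : ℝ≥0∞ :=
  ∫⁻ y, F (pw P y x) ∂gam ι

lemma measurable_marg {A : Type*} [MeasurableSpace A] (P : ι → Prop) [DecidablePred P]
    {F : (ι → ℝ) → ℝ≥0∞} (hF : Measurable F) {x : A → ι → ℝ} (hx : Measurable x) :
    Measurable fun a => marg P F (x a) := by
  have : Measurable fun q : A × (ι → ℝ) => F (pw P q.2 (x q.1)) := by fun_prop
  exact this.lintegral_prod_right'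

lemma marg_split (P Q R : ι → Prop) [DecidablePred P] [DecidablePred Q] [DecidablePred R]
    (h : ∀ q, R q ↔ P q ∨ Q q) {F : (ι → ℝ) → ℝ≥0∞} (hF : Measurable F) (x : ι → ℝ) :
    marg R F x = ∫⁻ y, marg Q F (pw P y x) ∂gam ι := by
  unfold marg
  rw [lintegral_pw Q (g := fun y => F (pw R y x)) (by fun_prop)]
  refine lintegral_congr fun y => lintegral_congr fun y' => ?_
  congr 1
  ext q
  have := h q
  simp only [pw]
  split_ifs <;> simp_all

/-- The decoupling theorem. -/
theorem decouple [DecidableEq D] {K L : Type} [Fintype K] [DecidableEq K] [LinearOrder L]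
    (row : ι → K) (rank : K → L) (F : D → (ι → ℝ) → ℝ≥0∞) (hF : ∀ i, Measurable (F i))
    (h : ∀ i k, ∃ O : Finset K, (∀ k' ∈ O, rank k < rank k') ∧ ∀ x,
      Allowed fun w => marg (fun q => row q ∈ O) (F i) (pw (fun q => row q = k) w x)) :
    ∏ i, ∫⁻ x, F i x ∂gam ι ≤ ∫⁻ x, ∏ i, F i x ∂gam ι := by
  have key : ∀ s : Finset K, ∏ i, ∫⁻ x, F i x ∂gam ι
      ≤ ∫⁻ x, ∏ i, marg (fun q => row q ∉ s) (F i) x ∂gam ι := by
    intro s
    induction s using Finset.induction_on_max_value rank with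
    | empty =>
      have : ∀ i x, marg (fun q => row q ∉ (∅ : Finset K)) (F i) x = ∫⁻ x, F i x ∂gam ι := by
        intro i x
        rfl
      simp_rw [this]
      simp
    | insert k s hk hmax ih =>
      refine ih.trans ?_
      have hm : ∀ i, Measurable fun x => marg (fun q => row q ∉ insert k s) (F i) x := fun i =>
        measurable_marg _ (hF i) measurable_id
      rw [lintegral_pw (fun q => row q = k)
        (g := fun x => ∏ i, marg (fun q => row q ∉ insert k s) (F i) x)
        (Finset.measurable_prod _ fun i _ => hm i)]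
      refine lintegral_mono fun x => ?_
      have h1 : ∀ i, marg (fun q => row q ∉ s) (F i) x = ∫⁻ w,
          marg (fun q => row q ∉ insert k s) (F i) (pw (fun q => row q = k) w x) ∂gam ι := by
        intro i
        refine marg_split _ _ _ (fun q => ?_) (hF i) x
        by_cases hq : row q = k
        · simp [hq, hk]
        · simp [hq]
      simp_rw [h1]
      refine Allowed.prod_le fun i => ?_
      obtain ⟨O, hO, hA⟩ := h i k
      have hOs : ∀ k' ∈ O, k' ∉ insert k s := by
        intro k' hk' hmem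
        rcases Finset.mem_insert.1 hmem with rfl | hmem
        · exact lt_irrefl _ (hO _ hk')
        · exact absurd (hO _ hk') (not_lt.2 (hmax _ hmem))
      have hmeas : Measurable (Function.uncurry fun y w => marg (fun q => row q ∈ O) (F i)
          (pw (fun q => row q = k) w (pw (fun q => row q ∉ insert k s) y x))) :=
        measurable_marg _ (hF i) (by fun_prop)
      refine (Allowed.mix' (gam ι) hmeas fun y => hA _).congr fun w => ?_
      rw [marg_split (fun q => row q ∉ insert k s) (fun q => row q ∈ O) _ (fun q => ?_) (hF i)]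
      · refine lintegral_congr fun y => ?_
        congr 1
        ext q
        simp only [pw]
        by_cases hq : row q = k <;> simp [hq]
      · exact ⟨Or.inl, fun h => h.elim id (hOs _)⟩
  refine (key Finset.univ).trans (le_of_eq (lintegral_congr fun x => ?_))
  refine Finset.prod_congr rfl fun i _ => ?_
  have : ∀ y, pw (fun q => row q ∉ (Finset.univ : Finset K)) y x = x := fun y => by
    ext q; simp [pw]
  simp [marg, this]

end

end Pool.Agent.Lib.MP_9d9c13_pr
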