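import Mathlib

/-!
Definitions used in the statement: the Wishart law with real parameter and the diagonal blocks.
A real symmetric `p × p` matrix is given by its coordinates `X i j = X j i`, indexed by unordered
pairs `s(i, j)`; Lebesgue measure `dX` is the product measure `volume` on these coordinates.
-/

open MeasureTheory

namespace Pool.Agent.Lib.MP_9d9c13_pr

noncomputable section

/-- The symmetric matrix with entries `X i j = X j i = x s(i, j)`. -/
def symMat {p : ℕ} (x : Sym2 (Fin p) → ℝ) : Matrix (Fin p) (Fin p) ℝ :=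
  Matrix.of fun i j => x s(i, j)

/-- The cone of positive definite symmetric matrices, in coordinates. -/
def posCone (p : ℕ) : Set (Sym2 (Fin p) → ℝ) := {x | (symMat x).PosDef}

/-- The multivariate gamma function `Γ_p(β) = ∫ |X| ^ (β - (p + 1) / 2) etr(-X) dX`. -/
def mvGamma (p : ℕ) (β : ℝ) : ℝ :=
  ∫ x in posCone p, (symMat x).det ^ (β - ((p : ℝ) + 1) / 2) * Real.exp (-symMat x).trace

/-- The Wishart density `f_{α,S}(X)`. -/
def wishartDensity {p : ℕ} (α : ℝ) (S X : Matrix (Fin p) (Fin p) ℝ) : ℝ :=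
  X.det ^ (α / 2 - ((p : ℝ) + 1) / 2) * Real.exp (-((1 / 2 : ℝ) • S⁻¹) * X).trace
    / (((2 : ℝ) • S).det ^ (α / 2) * mvGamma p (α / 2))

/-- The Wishart law `W_p(α, S)`: density `f_{α,S}` on the positive definite cone. -/
def wishart {p : ℕ} (α : ℝ) (S : Matrix (Fin p) (Fin p) ℝ) : Measure (Sym2 (Fin p) → ℝ) :=
  (volume.restrict (posCone p)).withDensity fun x =>
    ENNReal.ofReal (wishartDensity α S (symMat x))

/-- The `i`-th diagonal block for the partition into consecutive blocks of sizes `p 0, p 1, …`. -/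
def diagBlock {d : ℕ} (p : Fin d → ℕ) (X : Matrix (Fin (∑ i, p i)) (Fin (∑ i, p i)) ℝ)
    (i : Fin d) : Matrix (Fin (p i)) (Fin (p i)) ℝ :=
  X.submatrix (fun a => finSigmaFinEquiv ⟨i, a⟩) (fun a => finSigmaFinEquiv ⟨i, a⟩)

end

end Pool.Agent.Lib.MP_9d9c13_pr
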