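import Pool.Agent.Lib.MP_9d9c13_pr.Block

/-!
Moments of the determinant of a square Gaussian matrix are finite and positive.
-/

open MeasureTheory ProbabilityTheory Matrix Set Filter Topology
open scoped ENNReal NNReal

namespace Pool.Agent.Lib.MP_9d9c13_pr

noncomputable section

variable {B : Type} [Fintype B] [DecidableEq B]

/-- absolute moments of the determinant of a square Gaussian matrix -/
def dmom (B : Type) [Fintype B] [DecidableEq B] (s : ℝ) : ℝ≥0∞ :=
  ∫⁻ t, apow s (mat t).det ∂gam (B × B)

@[simp] lemma dmom_zero : dmom B 0 = 1 := by simp [dmom]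

lemma integrable_norm_rpow_gam {ι : Type} [Fintype ι] {r : ℝ} (hr : 0 ≤ r) :
    Integrable (fun t : ι → ℝ => ‖t‖ ^ r) (gam ι) := by
  rcases hr.eq_or_lt with rfl | hr
  · simp
  have h1 : MemLp (fun t : ι → ℝ => t) (ENNReal.ofReal r) (gam ι) := by
    refine memLp_pi_iff.2 fun i => ?_
    exact (memLp_id_gaussianReal' (μ := 0) (v := 1) _ ENNReal.ofReal_ne_top).comp_measurePreserving
      (measurePreserving_eval (fun _ : ι => gaussianReal 0 1) i)
  simpa [ENNReal.toReal_ofReal hr.le] using
    h1.integrable_norm_rpow (by simpa using hr) ENNReal.ofReal_ne_top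

lemma dmom_lt_top_of_nonneg {s : ℝ} (hs : 0 ≤ s) : dmom B s < ⊤ := by
  have h := ((integrable_norm_rpow_gam (ι := B × B) (r := Fintype.card B * s)
    (by positivity)).const_mul (((Fintype.card B).factorial : ℝ) ^ s)).lintegral_lt_top
  refine lt_of_le_of_lt (lintegral_mono fun t => ?_) h
  rw [apow_eq_ofReal (Or.inr hs)]
  refine ENNReal.ofReal_le_ofReal ?_
  have h1 : |(mat t).det| ≤ ((Fintype.card B).factorial : ℝ) * ‖t‖ ^ Fintype.card B := by
    have := Matrix.det_le (A := mat t) (abv := AbsoluteValue.abs) (x := ‖t‖)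
      fun i j => norm_le_pi_norm t (i, j)
    simpa using this
  rw [Real.rpow_natCast_mul (norm_nonneg _), ← Real.mul_rpow (by positivity) (by positivity)]
  exact Real.rpow_le_rpow (abs_nonneg _) h1 hs

lemma apow_le_of_nonpos {s x y : ℝ} (hs : s ≤ 0) (h : |x| ≤ |y|) : apow s y ≤ apow s x := by
  unfold apow
  obtain ⟨r, hr, rfl⟩ : ∃ r, 0 ≤ r ∧ s = -r := ⟨-s, by linarith, by ring⟩
  rw [ENNReal.rpow_neg, ENNReal.rpow_neg]
  exact ENNReal.inv_le_inv.2 (ENNReal.rpow_le_rpow (ENNReal.ofReal_le_ofReal h) hr)

lemma dmom_lt_top_of_nonpos {s : ℝ} (hs : -1 < s) (hs0 : s ≤ 0) : dmom B s < ⊤ := by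
  set A : Finset B → (B × B → ℝ) → Matrix B B ℝ := fun S t =>
    Matrix.of fun a b => if a ∈ S then t (a, b) else (1 : Matrix B B ℝ) a b with hA
  have hAm : ∀ S, Measurable fun t => apow s (A S t).det := by
    intro S
    refine measurable_apow s (Continuous.measurable (Continuous.matrix_det ?_))
    refine continuous_matrix fun a b => ?_
    simp only [hA, of_apply]
    split_ifs <;> fun_prop
  have key : ∀ S : Finset B, ∫⁻ t, apow s (A S t).det ∂gam (B × B) < ⊤ := by
    intro S
    induction S using Finset.induction_on with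
    | empty =>
      have : ∀ t, A ∅ t = 1 := fun t => by ext a b; simp [hA]
      simp [this]
    | insert a S ha ih =>
      rw [lintegral_pw (fun q : B × B => q.1 = a) (hAm _)]
      refine lt_of_le_of_lt (lintegral_mono (g := fun x => apow s (A S x).det * gmom s) fun x => ?_) ?_
      swap
      · rw [lintegral_mul_const _ (hAm S)]
        exact ENNReal.mul_lt_top ih (gmom_lt_top hs)
      have h1 : ∀ y, A (insert a S) (pw (fun q : B × B => q.1 = a) y x)
          = (A S x).updateRow a fun b => y (a, b) := by
        intro y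
        ext a' b
        by_cases h : a' = a
        · simp [hA, h, pw]
        · simp [hA, h, pw]
      have hlin : IsLinearMap ℝ fun y : B × B → ℝ =>
          ((A S x).updateRow a fun b => y (a, b)).det :=
        ⟨fun y y' => det_updateRow_add _ _ _ _, fun c y => det_updateRow_smul _ _ _ _⟩
      obtain ⟨v, hv⟩ := exists_dot_of_isLinear hlin
      simp_rw [h1, hv]
      rw [lintegral_apow_dot]
      gcongr
      refine apow_le_of_nonpos hs0 ?_
      have h2 : v (a, a) = (A S x).det := by
        have := hv (Pi.single (a, a) 1)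
        rw [dotProduct_single_one] at this
        rw [← this]
        congr 1
        ext a' b
        by_cases h : a' = a
        · subst h
          simp [hA, ha, Pi.single_apply, one_apply, eq_comm]
        · simp [updateRow_ne h]
      rw [← h2, abs_of_nonneg (Real.sqrt_nonneg _)]
      refine Real.abs_le_sqrt ?_
      rw [sq]
      exact Finset.single_le_sum (f := fun q => v q * v q) (fun q _ => mul_self_nonneg _)
        (Finset.mem_univ (a, a))
  have h := key Finset.univ
  have : ∀ t, A Finset.univ t = mat t := fun t => by ext a b; simp [hA]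
  simpa [this, dmom] using h

lemma dmom_ne_top {s : ℝ} (hs : -1 < s) : dmom B s ≠ ⊤ := by
  rcases le_total s 0 with h | h
  · exact (dmom_lt_top_of_nonpos hs h).ne
  · exact (dmom_lt_top_of_nonneg h).ne

lemma measurable_apow_det (s : ℝ) : Measurable fun t : B × B → ℝ => apow s (mat t).det :=
  measurable_apow s (Continuous.measurable (by fun_prop))

lemma dmom_ne_zero (s : ℝ) : dmom B s ≠ 0 := by
  intro h
  rw [dmom, lintegral_eq_zero_iff (measurable_apow_det s)] at h
  have h1 := ae_lt_top (measurable_apow_det (B := B) (-1 / 2))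
    (dmom_ne_top (B := B) (s := -1 / 2) (by norm_num))
  have h2 : ∀ᵐ t ∂gam (B × B), False := by
    filter_upwards [h, h1] with t ht ht'
    by_cases h0 : (mat t).det = 0
    · rw [h0, apow, abs_zero, ENNReal.ofReal_zero, ENNReal.zero_rpow_of_neg (by norm_num)] at ht'
      exact lt_irrefl _ ht'
    · rw [apow_eq_ofReal (Or.inl h0)] at ht
      simp only [Pi.zero_apply, ENNReal.ofReal_eq_zero] at ht
      exact absurd ht (not_le.2 (Real.rpow_pos_of_pos (abs_pos.2 h0) _))
  simp [NeZero.ne] at h2

end

end Pool.Agent.Lib.MP_9d9c13_pr
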