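import Pool.Agent.Lib.MP_9d9c13_pr.Main

/-!
Consecutive blocks, finiteness of the joint moment, passage to real-valued expectations.
-/

open MeasureTheory ProbabilityTheory Matrix Set Filter Topology
open scoped ENNReal NNReal

namespace Pool.Agent.Lib.MP_9d9c13_pr

noncomputable section

lemma exists_sub_smul_posDef {p : ℕ} {A : Matrix (Fin p) (Fin p) ℝ} (hA : A.PosDef) :
    ∃ r : ℝ, 0 < r ∧ (A + (-r) • (1 : Matrix (Fin p) (Fin p) ℝ)).PosDef := by
  obtain ⟨Q, hQ⟩ := exists_factor_psd hA.posSemidef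
  have hQne : Q.det ≠ 0 := by
    intro h
    have := hA.det_pos
    rw [← hQ, det_mul, h, mul_zero] at this
    exact lt_irrefl _ this
  set K := ∑ i, ∑ j, Q⁻¹ i j ^ 2 with hK
  have hK0 : 0 ≤ K := by positivity
  refine ⟨1 / (K + 1), by positivity, PosDef.of_dotProduct_mulVec_pos
    (hA.1.add (isHermitian_one.smul (IsSelfAdjoint.all _))) fun v hv => ?_⟩
  have h1 := hA.dotProduct_mulVec_pos hv
  have h2 : v ⬝ᵥ (A *ᵥ v) = ∑ j, (Q *ᵥ v) j ^ 2 := by
    rw [← hQ, ← mulVec_mulVec, dotProduct_mulVec, vecMul_transpose]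
    simp only [dotProduct, _root_.sq]
  have h3 : v ⬝ᵥ v ≤ K * ∑ j, (Q *ᵥ v) j ^ 2 := by
    conv_lhs => rw [← one_mulVec v, ← nonsing_inv_mul _ hQne.isUnit, ← mulVec_mulVec]
    rw [hK, Finset.sum_mul]
    refine Finset.sum_le_sum fun i _ => ?_
    rw [← _root_.sq]
    exact Finset.sum_mul_sq_le_sq_mul_sq Finset.univ (fun j => Q⁻¹ i j) fun j => (Q *ᵥ v) j
  rw [star_trivial] at h1 ⊢
  rw [add_mulVec, dotProduct_add, smul_mulVec, one_mulVec, dotProduct_smul, smul_eq_mul]
  rw [h2] at h1 ⊢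
  have h4 : 1 / (K + 1) * (v ⬝ᵥ v) < ∑ j, (Q *ᵥ v) j ^ 2 := by
    rw [one_div, inv_mul_lt_iff₀ (by positivity)]
    linarith
  linarith

lemma wishart_joint_ne_top {p : ℕ} {D : Type} [Fintype D] [LinearOrder D] (blk : Fin p → D) {α : ℝ}
    (hα : (p : ℝ) - 1 < α) {S : Matrix (Fin p) (Fin p) ℝ} (hS : S.PosDef) {ν : D → ℝ}
    (hν : ∀ i, 0 ≤ ν i) :
    ∫⁻ x, ∏ i, apow (ν i) (sq blk i (symMat x)).det ∂wishart α S ≠ ⊤ := by
  obtain ⟨r, hr, hP⟩ := exists_sub_smul_posDef hS.inv
  have hL := wishart_laplace_gen hα hS hP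
  set N := Fintype.card D with hN
  choose C hC hle using fun i => exists_det_rpow_le
    (Subtype.val : {a // blk a = i} → Fin p) (ε := r / 2 / (N + 1)) (hν i) (by positivity)
  refine ne_top_of_le_ne_top (ENNReal.mul_ne_top (ENNReal.ofReal_ne_top (r := ∏ i, C i))
    (hL.trans_ne ENNReal.ofReal_ne_top)) ?_
  rw [← lintegral_const_mul' _ _ ENNReal.ofReal_ne_top]
  refine lintegral_mono_ae ((ae_wishart α S).mono fun x hx => ?_)
  have hx' : (symMat x).PosSemidef := PosDef.posSemidef hx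
  have ht := hx'.trace_nonneg
  have h1 : ∀ i, apow (ν i) (sq blk i (symMat x)).det
      = ENNReal.ofReal ((sq blk i (symMat x)).det ^ ν i) := fun i => by
    rw [apow_eq_ofReal (Or.inr (hν i)), abs_of_nonneg (hx'.submatrix _).det_nonneg]
  simp only [h1]
  rw [← ENNReal.ofReal_prod_of_nonneg fun i _ => Real.rpow_nonneg (hx'.submatrix _).det_nonneg _,
    ← ENNReal.ofReal_mul (Finset.prod_nonneg fun i _ => (hC i).le)]
  refine ENNReal.ofReal_le_ofReal ?_
  calc _ ≤ ∏ i, C i * Real.exp (r / 2 / (N + 1) * (symMat x).trace) :=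
        Finset.prod_le_prod (fun i _ => Real.rpow_nonneg (hx'.submatrix _).det_nonneg _)
          fun i _ => hle i _ hx'
    _ = (∏ i, C i) * Real.exp (N * (r / 2 / (N + 1) * (symMat x).trace)) := by
        rw [Finset.prod_mul_distrib, Finset.prod_const, Finset.card_univ, Real.exp_nat_mul]
    _ ≤ _ := by
        refine mul_le_mul_of_nonneg_left (Real.exp_le_exp.2 ?_)
          (Finset.prod_nonneg fun i _ => (hC i).le)
        rw [Matrix.smul_mul, Matrix.one_mul, trace_smul, smul_eq_mul]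
        have h2 : (N : ℝ) * (r / 2 / (N + 1)) ≤ r / 2 := by
          rw [mul_div_assoc', div_le_iff₀ (by positivity)]
          nlinarith
        nlinarith

theorem wishart_integral_prod_le {p : ℕ} {D : Type} [Fintype D] [LinearOrder D] {blk : Fin p → D}
    (hblk : Monotone blk) {α : ℝ} (hα : (p : ℝ) - 1 < α) {S : Matrix (Fin p) (Fin p) ℝ}
    (hS : S.PosDef) {ν : D → ℝ} (hν : ∀ i, 0 ≤ ν i) :
    ∏ i, ∫ x, (sq blk i (symMat x)).det ^ ν i ∂wishart α S
      ≤ ∫ x, ∏ i, (sq blk i (symMat x)).det ^ ν i ∂wishart α S := by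
  have hm : ∀ i, Measurable fun x : Sym2 (Fin p) → ℝ => (sq blk i (symMat x)).det ^ ν i := by
    intro i
    have : Measurable fun x : Sym2 (Fin p) → ℝ => (sq blk i (symMat x)).det :=
      Continuous.measurable (by fun_prop)
    fun_prop
  have h0 : ∀ x ∈ posCone p, ∀ i, 0 ≤ (sq blk i (symMat x)).det := fun x hx i =>
    ((PosDef.posSemidef hx).submatrix _).det_nonneg
  have h1 : ∀ x ∈ posCone p, ∀ i, ENNReal.ofReal ((sq blk i (symMat x)).det ^ ν i)
      = apow (ν i) (sq blk i (symMat x)).det := fun x hx i => by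
    rw [apow_eq_ofReal (Or.inr (hν i)), abs_of_nonneg (h0 x hx i)]
  have h2 : ∀ i, ∫ x, (sq blk i (symMat x)).det ^ ν i ∂wishart α S
      = (∫⁻ x, apow (ν i) (sq blk i (symMat x)).det ∂wishart α S).toReal := by
    intro i
    rw [integral_eq_lintegral_of_nonneg_ae ((ae_wishart α S).mono fun x hx =>
      Real.rpow_nonneg (h0 x hx i) _) (hm i).aestronglyMeasurable]
    congr 1
    exact lintegral_congr_ae ((ae_wishart α S).mono fun x hx => h1 x hx i)
  have h3 : ∫ x, ∏ i, (sq blk i (symMat x)).det ^ ν i ∂wishart α S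
      = (∫⁻ x, ∏ i, apow (ν i) (sq blk i (symMat x)).det ∂wishart α S).toReal := by
    rw [integral_eq_lintegral_of_nonneg_ae ((ae_wishart α S).mono fun x hx =>
      Finset.prod_nonneg fun i _ => Real.rpow_nonneg (h0 x hx i) _)
      (Finset.measurable_prod _ fun i _ => hm i).aestronglyMeasurable]
    congr 1
    refine lintegral_congr_ae ((ae_wishart α S).mono fun x hx => ?_)
    simp only
    rw [ENNReal.ofReal_prod_of_nonneg fun i _ => Real.rpow_nonneg (h0 x hx i) _]
    exact Finset.prod_congr rfl fun i _ => h1 x hx i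
  simp only [h2, h3]
  rw [← ENNReal.toReal_prod]
  exact ENNReal.toReal_mono (wishart_joint_ne_top blk hα hS hν)
    (wishart_lintegral_prod_le hblk hα hS hν)

/-- the label of the block containing an index -/
def blkOf {d : ℕ} (p : Fin d → ℕ) (k : Fin (∑ i, p i)) : Fin d := (finSigmaFinEquiv.symm k).1

lemma monotone_blkOf {d : ℕ} (p : Fin d → ℕ) : Monotone (blkOf p) := by
  intro k k' hk
  obtain ⟨⟨i, a⟩, rfl⟩ := finSigmaFinEquiv.surjective k
  obtain ⟨⟨j, b⟩, rfl⟩ := finSigmaFinEquiv.surjective k'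
  simp only [blkOf, Equiv.symm_apply_apply]
  by_contra hij
  rw [not_le] at hij
  have h1 : ∀ i : Fin d, ∑ x : Fin i, p (Fin.castLE i.2.le x) = ∑ x ∈ Finset.Iio i, p x := by
    intro i
    refine Finset.sum_bij (fun x _ => Fin.castLE i.2.le x) (fun x _ => by simp [Fin.lt_def])
      (fun x _ y _ h => Fin.castLE_injective _ h) (fun y hy => ?_) fun _ _ => rfl
    exact ⟨⟨y, Fin.lt_def.1 (Finset.mem_Iio.1 hy)⟩, Finset.mem_univ _, rfl⟩
  rw [Fin.le_def, finSigmaFinEquiv_apply, finSigmaFinEquiv_apply] at hk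
  simp only [h1] at hk
  have h2 : ∑ x ∈ insert j (Finset.Iio j), p x ≤ ∑ x ∈ Finset.Iio i, p x := by
    refine Finset.sum_le_sum_of_subset fun x hx => ?_
    rcases Finset.mem_insert.1 hx with rfl | hx
    · exact Finset.mem_Iio.2 hij
    · exact Finset.mem_Iio.2 ((Finset.mem_Iio.1 hx).trans hij)
  rw [Finset.sum_insert (by simp)] at h2
  have := b.2
  omega

lemma det_diagBlock {d : ℕ} (p : Fin d → ℕ) (X : Matrix (Fin (∑ i, p i)) (Fin (∑ i, p i)) ℝ)
    (i : Fin d) : (diagBlock p X i).det = (sq (blkOf p) i X).det := by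
  let f : Fin (p i) → {a // blkOf p a = i} := fun a => ⟨finSigmaFinEquiv ⟨i, a⟩, by simp [blkOf]⟩
  have hf : Function.Bijective f := by
    constructor
    · intro a b h
      have := finSigmaFinEquiv.injective (congrArg Subtype.val h)
      simpa using this
    · rintro ⟨k, hk⟩
      obtain ⟨⟨j, b⟩, rfl⟩ := finSigmaFinEquiv.surjective k
      simp only [blkOf, Equiv.symm_apply_apply] at hk
      subst hk
      exact ⟨b, rfl⟩
  rw [← det_submatrix_equiv_self (Equiv.ofBijective f hf)]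
  rfl

end

end Pool.Agent.Lib.MP_9d9c13_pr
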