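import Pool.Agent.Lib.MP_9d9c13_pr.Scaling

/-!
The multivariate gamma integral is finite and positive.
-/

open MeasureTheory ProbabilityTheory Matrix Set Filter Topology
open scoped ENNReal NNReal

namespace Pool.Agent.Lib.MP_9d9c13_pr

noncomputable section

variable {p : ℕ}

lemma abs_entry_le_trace {M : Matrix (Fin p) (Fin p) ℝ} (hM : M.PosSemidef) (i j : Fin p) :
    |M i j| ≤ M.trace := by
  have hd : ∀ a, M a a ≤ M.trace := fun a =>
    Finset.single_le_sum (f := fun a => M a a) (fun a _ => hM.diag_nonneg) (Finset.mem_univ a)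
  have hs : M j i = M i j := by simpa using hM.1.apply i j
  have h1 := hM.dotProduct_mulVec_nonneg (Pi.single i 1 + Pi.single j 1)
  have h2 := hM.dotProduct_mulVec_nonneg (Pi.single i 1 - Pi.single j 1)
  simp only [star_trivial, mulVec_add, mulVec_sub, add_dotProduct, sub_dotProduct, dotProduct_add,
    dotProduct_sub, mulVec_single_one, single_one_dotProduct, col_apply, hs] at h1 h2
  rw [abs_le]
  constructor <;> linarith [hd i, hd j]

lemma abs_det_submatrix_le {m : Type} [Fintype m] [DecidableEq m] {M : Matrix (Fin p) (Fin p) ℝ}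
    (hM : M.PosSemidef) (e : m → Fin p) :
    |(M.submatrix e e).det| ≤ (Fintype.card m).factorial * M.trace ^ Fintype.card m := by
  have := Matrix.det_le (A := M.submatrix e e) (abv := AbsoluteValue.abs) (x := M.trace)
    fun i j => abs_entry_le_trace hM (e i) (e j)
  simpa using this

lemma exists_rpow_le_exp {s ε : ℝ} (hs : 0 ≤ s) (hε : 0 < ε) :
    ∃ C : ℝ, 0 < C ∧ ∀ y : ℝ, 0 ≤ y → y ^ s ≤ C * Real.exp (ε * y) := by
  obtain ⟨N, hN⟩ := exists_nat_ge s
  refine ⟨1 + N.factorial / ε ^ N, by positivity, fun y hy => ?_⟩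
  have h1 : 1 ≤ Real.exp (ε * y) := Real.one_le_exp (by positivity)
  have h2 : y ^ N ≤ N.factorial / ε ^ N * Real.exp (ε * y) := by
    have := Real.pow_div_factorial_le_exp (ε * y) (by positivity) N
    rw [div_le_iff₀ (by positivity), mul_pow] at this
    rw [div_mul_eq_mul_div, le_div_iff₀ (by positivity)]
    linarith
  have h3 : y ^ s ≤ 1 + y ^ N := by
    rcases le_total y 1 with h | h
    · exact (Real.rpow_le_one hy h hs).trans (le_add_of_nonneg_right (by positivity))
    · calc y ^ s ≤ y ^ (N : ℝ) := Real.rpow_le_rpow_of_exponent_le h hN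
        _ ≤ 1 + y ^ N := by rw [Real.rpow_natCast]; linarith
  calc y ^ s ≤ Real.exp (ε * y) + N.factorial / ε ^ N * Real.exp (ε * y) := by linarith
    _ = _ := by ring

lemma exists_det_rpow_le {m : Type} [Fintype m] [DecidableEq m] (e : m → Fin p) {s ε : ℝ}
    (hs : 0 ≤ s) (hε : 0 < ε) : ∃ C : ℝ, 0 < C ∧ ∀ M : Matrix (Fin p) (Fin p) ℝ, M.PosSemidef →
      (M.submatrix e e).det ^ s ≤ C * Real.exp (ε * M.trace) := by
  obtain ⟨C, hC, h⟩ := exists_rpow_le_exp (s := Fintype.card m * s) (by positivity) hε
  refine ⟨((Fintype.card m).factorial : ℝ) ^ s * C, by positivity, fun M hM => ?_⟩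
  have ht := hM.trace_nonneg
  calc _ ≤ ((Fintype.card m).factorial * M.trace ^ Fintype.card m) ^ s :=
        Real.rpow_le_rpow (hM.submatrix e).det_nonneg
          ((le_abs_self _).trans (abs_det_submatrix_le hM e)) hs
    _ = ((Fintype.card m).factorial : ℝ) ^ s * M.trace ^ (Fintype.card m * s) := by
        rw [Real.mul_rpow (by positivity) (by positivity), Real.rpow_natCast_mul ht]
    _ ≤ _ := by rw [mul_assoc]; gcongr; exact h _ ht

/-- the one-dimensional weight -/
def cw (t : ℝ) : ℝ≥0∞ := ENNReal.ofReal (1 + t ^ 2)⁻¹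

lemma measurable_cw : Measurable cw := by unfold cw; fun_prop

lemma cw_ne_zero (t : ℝ) : cw t ≠ 0 := by
  simp only [cw, ne_eq, ENNReal.ofReal_eq_zero, not_le]; positivity

lemma cw_le_one (t : ℝ) : cw t ≤ 1 :=
  ENNReal.ofReal_le_one.2 (inv_le_one_of_one_le₀ (by nlinarith [sq_nonneg t]))

lemma lintegral_cw_ne_top : ∫⁻ t, cw t ≠ ⊤ := integrable_inv_one_add_sq.lintegral_lt_top.ne

lemma lintegral_cw_ne_zero : ∫⁻ t, cw t ≠ 0 := by
  intro h
  rw [lintegral_eq_zero_iff measurable_cw] at h
  have h2 : ∀ᵐ t : ℝ, False := by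
    filter_upwards [h] with t ht using cw_ne_zero t ht
  simp [NeZero.ne] at h2

lemma exists_shift_bound {e : ℝ} (he : -1 < e) (he0 : e ≤ 0) :
    ∃ C : ℝ≥0∞, C ≠ ⊤ ∧ C ≠ 0 ∧ ∀ θ : ℝ, ∫⁻ t, apow e (t + θ) * cw t ≤ C := by
  have h1 := ((integrable_abs_rpow_mul_exp (b := 1) one_pos he).const_mul
    (Real.exp 1)).lintegral_lt_top
  refine ⟨(∫⁻ t, cw t) + ∫⁻ u : ℝ, ENNReal.ofReal (Real.exp 1 * (|u| ^ e * Real.exp (-1 * u ^ 2))),
    ENNReal.add_ne_top.2 ⟨lintegral_cw_ne_top, h1.ne⟩, by simp [lintegral_cw_ne_zero], fun θ => ?_⟩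
  rw [← lintegral_add_right_eq_self (fun u : ℝ =>
    ENNReal.ofReal (Real.exp 1 * (|u| ^ e * Real.exp (-1 * u ^ 2)))) θ,
    ← lintegral_add_left measurable_cw]
  refine lintegral_mono_ae ?_
  filter_upwards [(volume : Measure ℝ).ae_ne (-θ)] with t ht
  have hu : t + θ ≠ 0 := fun h => ht (by linarith)
  rcases le_total 1 |t + θ| with h | h
  · refine le_trans ?_ le_self_add
    refine mul_le_of_le_one_left' ?_
    rw [apow_eq_ofReal (Or.inl hu)]
    exact ENNReal.ofReal_le_one.2 (Real.rpow_le_one_of_one_le_of_nonpos h he0)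
  · refine le_trans ?_ le_add_self
    refine (mul_le_of_le_one_right' (cw_le_one t)).trans ?_
    rw [apow_eq_ofReal (Or.inl hu)]
    refine ENNReal.ofReal_le_ofReal ?_
    rw [mul_left_comm, ← Real.exp_add]
    refine le_mul_of_one_le_right (by positivity) (Real.one_le_exp ?_)
    nlinarith [sq_abs (t + θ), abs_nonneg (t + θ)]

lemma lintegral_det_cw_lt_top {e : ℝ} (he : -1 < e) (he0 : e < 0) :
    ∫⁻ x : Sym2 (Fin p) → ℝ, apow e (symMat x).det * ∏ q, cw (x q) < ⊤ := by
  obtain ⟨C, hC, hC0, hθ⟩ := exists_shift_bound he he0.le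
  set A : Finset (Fin p) → (Sym2 (Fin p) → ℝ) → Matrix (Fin p) (Fin p) ℝ := fun S x =>
    Matrix.of fun i j => if i ∈ S ∧ j ∈ S then x s(i, j) else (1 : Matrix (Fin p) (Fin p) ℝ) i j
    with hA
  have hW : Measurable fun x : Sym2 (Fin p) → ℝ => ∏ q, cw (x q) :=
    Finset.measurable_prod _ fun q _ => measurable_cw.comp (measurable_pi_apply q)
  have hAm : ∀ S, Measurable fun x => apow e (A S x).det * ∏ q, cw (x q) := by
    intro S
    refine (measurable_apow e (Continuous.measurable (Continuous.matrix_det ?_))).mul hW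
    refine continuous_matrix fun a b => ?_
    simp only [hA, of_apply]
    split_ifs <;> fun_prop
  have key : ∀ S : Finset (Fin p), ∫⁻ x, apow e (A S x).det * ∏ q, cw (x q) < ⊤ := by
    intro S
    induction S using Finset.induction_on with
    | empty =>
      have : ∀ x, A ∅ x = 1 := fun x => by ext a b; simp [hA]
      have h2 : ∀ x : Sym2 (Fin p) → ℝ, ∏ q, cw (x q)
          = ENNReal.ofReal (∏ q, (1 + x q ^ 2)⁻¹) := fun x =>
        (ENNReal.ofReal_prod_of_nonneg fun q _ => by positivity).symm
      simp only [this, det_one, apow_one, one_mul, h2]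
      exact (Integrable.fintype_prod (f := fun (_ : Sym2 (Fin p)) (t : ℝ) => (1 + t ^ 2)⁻¹)
        fun _ => integrable_inv_one_add_sq).lintegral_lt_top
    | insert a S ha ih =>
      have hle := lintegral_le_of_lmarginal_le (μ := fun _ : Sym2 (Fin p) => (volume : Measure ℝ))
        {s(a, a)} (hAm (insert a S)) ((hAm S).const_mul (C * (∫⁻ t, cw t)⁻¹)) ?_
      · refine lt_of_le_of_lt hle ?_
        rw [lintegral_const_mul _ (hAm S)]
        exact ENNReal.mul_lt_top (ENNReal.mul_lt_top hC.lt_top
          (ENNReal.inv_lt_top.2 (pos_iff_ne_zero.2 lintegral_cw_ne_zero))) ih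
      rw [lmarginal_singleton, lmarginal_singleton]
      intro x
      have hne : ∀ i j, ¬ (i = a ∧ j = a) → s(i, j) ≠ s(a, a) := fun i j h => by simpa using h
      have h1 : ∀ t, A S (Function.update x s(a, a) t) = A S x := fun t => by
        ext i j
        simp only [hA, of_apply]
        split_ifs with h
        · rw [Function.update_of_ne (hne i j fun h' => ha (h'.1 ▸ h.1))]
        · rfl
      have h2 : ∀ t, ∏ q, cw (Function.update x s(a, a) t q)
          = cw t * ∏ q ∈ Finset.univ.erase s(a, a), cw (x q) := fun t => by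
        rw [← Finset.mul_prod_erase _ _ (Finset.mem_univ s(a, a)), Function.update_self]
        congr 1
        exact Finset.prod_congr rfl fun q hq => by
          rw [Function.update_of_ne (Finset.ne_of_mem_erase hq)]
      set M := A (insert a S) x with hM
      set u : Fin p → ℝ := Function.update (M a) a 0 with hu
      have h3 : ∀ t, A (insert a S) (Function.update x s(a, a) t)
          = M.updateRow a (t • Pi.single a 1 + u) := fun t => by
        ext i j
        by_cases hi : i = a
        · subst hi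
          by_cases hj : j = i
          · subst hj; simp [hA, hu]
          · simp [hA, hu, hM, hj]
        · simp [hA, hM, hi]
      have h4 : (M.updateRow a (Pi.single a 1)).det = (A S x).det := by
        have h5 : M.updateRow a (Pi.single a 1) = (A S x).updateCol a
            ((fun i => A S x i a) + fun i => if i ∈ S then x s(i, a) else 0) := by
          ext i j
          by_cases hi : i = a
          · subst hi
            by_cases hj : j = i
            · subst hj; simp [hA, ha]
            · simp [hA, ha, hj, one_apply_ne (Ne.symm hj)]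
          · by_cases hj : j = a
            · subst hj; simp [hA, hM, hi, ha, one_apply_ne hi]
            · simp [hA, hM, hi, hj]
        rw [h5, det_updateCol_add, updateCol_eq_self, add_eq_left]
        refine det_eq_zero_of_row_eq_zero a fun j => ?_
        by_cases hj : j = a
        · subst hj; simp [ha]
        · simp [hA, ha, hj, one_apply_ne (Ne.symm hj)]
      have h6 : ∀ t, (A (insert a S) (Function.update x s(a, a) t)).det
          = t * (A S x).det + (M.updateRow a u).det := fun t => by
        rw [h3, det_updateRow_add, det_updateRow_smul, h4]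
      simp only [h1, h2, h6]
      set W := ∏ q ∈ Finset.univ.erase s(a, a), cw (x q) with hWd
      have hW0 : W ≠ 0 := Finset.prod_ne_zero_iff.2 fun q _ => cw_ne_zero _
      have h7 : ∫⁻ t, C * (∫⁻ t, cw t)⁻¹ * (apow e (A S x).det * (cw t * W))
          = apow e (A S x).det * C * W := by
        rw [lintegral_const_mul _ (by have := measurable_cw; fun_prop),
          lintegral_const_mul _ (by have := measurable_cw; fun_prop),
          lintegral_mul_const _ measurable_cw]
        calc _ = apow e (A S x).det * C * W * ((∫⁻ t, cw t)⁻¹ * ∫⁻ t, cw t) := by ring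
          _ = _ := by rw [ENNReal.inv_mul_cancel lintegral_cw_ne_zero lintegral_cw_ne_top, mul_one]
      rw [h7]
      by_cases hm : (A S x).det = 0
      · rw [hm, apow, abs_zero, ENNReal.ofReal_zero, ENNReal.zero_rpow_of_neg he0,
          ENNReal.top_mul hC0, ENNReal.top_mul hW0]
        exact le_top
      have h8 : ∀ t, apow e (t * (A S x).det + (M.updateRow a u).det) * (cw t * W)
          = apow e (A S x).det * (apow e (t + (M.updateRow a u).det / (A S x).det) * cw t) * W := by
        intro t
        rw [show t * (A S x).det + (M.updateRow a u).det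
          = (A S x).det * (t + (M.updateRow a u).det / (A S x).det) by field_simp, apow_mul]
        ring
      simp_rw [h8]
      rw [lintegral_mul_const _ (by have := measurable_cw; fun_prop),
        lintegral_const_mul _ (by have := measurable_cw; fun_prop)]
      gcongr
      exact hθ _
  have h := key Finset.univ
  have : ∀ x, A Finset.univ x = symMat x := fun t => by ext a b; simp [hA]
  simpa [this] using h

lemma exists_exp_le_prod_cw : ∃ C : ℝ≥0∞, C ≠ ⊤ ∧ ∀ x ∈ posCone p,
    ENNReal.ofReal (Real.exp (-(symMat x).trace)) ≤ C * ∏ q, cw (x q) := by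
  set N := Fintype.card (Sym2 (Fin p)) with hN
  refine ⟨ENNReal.ofReal ((2 * N).factorial * Real.exp 1), ENNReal.ofReal_ne_top, fun x hx => ?_⟩
  have hM : (symMat x).PosSemidef := PosDef.posSemidef hx
  set y := (symMat x).trace with hy
  have hy0 : 0 ≤ y := hM.trace_nonneg
  have h1 : ∀ q, ENNReal.ofReal ((1 + y) ^ 2)⁻¹ ≤ cw (x q) := by
    intro q
    induction q using Sym2.ind with
    | _ i j =>
      have h := abs_entry_le_trace hM i j
      rw [symMat_apply] at h
      refine ENNReal.ofReal_le_ofReal (inv_anti₀ (by positivity) ?_)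
      nlinarith [sq_abs (x s(i, j)), abs_nonneg (x s(i, j))]
  have h2 : ENNReal.ofReal (((1 + y) ^ 2)⁻¹ ^ N) ≤ ∏ q, cw (x q) := by
    rw [ENNReal.ofReal_pow (by positivity), hN, ← Finset.card_univ, ← Finset.prod_const]
    exact Finset.prod_le_prod' fun q _ => h1 q
  refine le_trans ?_ (mul_le_mul_right h2 _)
  rw [← ENNReal.ofReal_mul (by positivity)]
  refine ENNReal.ofReal_le_ofReal ?_
  have h3 := Real.pow_div_factorial_le_exp (1 + y) (by positivity) (2 * N)
  rw [div_le_iff₀ (by positivity), Real.exp_add] at h3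
  rw [inv_pow, ← pow_mul, ← div_eq_mul_inv, le_div_iff₀ (by positivity), Real.exp_neg,
    inv_mul_le_iff₀ (Real.exp_pos _)]
  linarith

lemma GamL_neg_ne_top {e : ℝ} (he : -1 < e) (he0 : e < 0) : GamL p e 1 ≠ ⊤ := by
  obtain ⟨C, hC, h⟩ := exists_exp_le_prod_cw (p := p)
  refine ne_top_of_le_ne_top (ENNReal.mul_ne_top hC (lintegral_det_cw_lt_top (p := p) he he0).ne) ?_
  rw [← lintegral_const_mul' _ _ hC]
  refine le_trans (setLIntegral_mono' measurableSet_posCone fun x hx => ?_)
    (setLIntegral_le_lintegral (posCone p) _)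
  have hd : 0 < (symMat x).det := PosDef.det_pos hx
  rw [Matrix.one_mul, ENNReal.ofReal_mul (by positivity), apow_eq_ofReal (Or.inl hd.ne'),
    abs_of_pos hd, mul_left_comm]
  exact mul_le_mul_right (h x hx) _

lemma GamL_ne_top {e : ℝ} (he : -1 < e) {A : Matrix (Fin p) (Fin p) ℝ} (hA : A.PosDef) :
    GamL p e A ≠ ⊤ := by
  rw [GamL_scale e hA]
  refine ENNReal.mul_ne_top ENNReal.ofReal_ne_top ?_
  rcases lt_or_ge e 0 with he0 | he0
  · exact GamL_neg_ne_top he he0
  obtain ⟨C, hC, h⟩ := exists_det_rpow_le (p := p) id (s := e + 1 / 2) (ε := 1 / 2)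
    (by positivity) (by positivity)
  have hP : ((1 / 2 : ℝ) • (1 : Matrix (Fin p) (Fin p) ℝ)).PosDef :=
    PosDef.one.smul (by norm_num)
  have h1 : GamL p (-(1 / 2)) ((1 / 2 : ℝ) • 1) ≠ ⊤ := by
    rw [GamL_scale _ hP]
    exact ENNReal.mul_ne_top ENNReal.ofReal_ne_top (GamL_neg_ne_top (by norm_num) (by norm_num))
  refine ne_top_of_le_ne_top (ENNReal.mul_ne_top (ENNReal.ofReal_ne_top (r := C)) h1) ?_
  unfold GamL
  rw [← lintegral_const_mul' _ _ ENNReal.ofReal_ne_top]
  refine setLIntegral_mono' measurableSet_posCone fun x hx => ?_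
  have hd : 0 < (symMat x).det := PosDef.det_pos hx
  rw [← ENNReal.ofReal_mul hC.le]
  refine ENNReal.ofReal_le_ofReal ?_
  have h2 := h _ (PosDef.posSemidef hx)
  rw [submatrix_id_id] at h2
  rw [Matrix.one_mul, Matrix.smul_mul, Matrix.one_mul, trace_smul, smul_eq_mul,
    show e = -(1 / 2) + (e + 1 / 2) by ring, Real.rpow_add hd, mul_assoc, mul_left_comm C]
  refine mul_le_mul_of_nonneg_left ?_ (by positivity)
  calc _ ≤ C * Real.exp (1 / 2 * (symMat x).trace) * Real.exp (-(symMat x).trace) := by gcongr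
    _ = _ := by rw [mul_assoc, ← Real.exp_add]; congr 2; ring

lemma volume_posCone_ne_zero : volume (posCone p) ≠ 0 := by
  set x₀ : Sym2 (Fin p) → ℝ := unSym 1 with hx₀
  have h0 : symMat x₀ = 1 := symMat_unSym transpose_one
  have hsub : Metric.ball x₀ (1 / (p + 1)) ⊆ posCone p := by
    intro x hx
    have hent : ∀ i j, |(symMat x - 1) i j| ≤ 1 / (p + 1) := fun i j => by
      rw [← h0]
      have := (dist_pi_lt_iff (by positivity)).1 hx s(i, j)
      exact (Real.dist_eq _ _ ▸ this).le
    refine PosDef.of_dotProduct_mulVec_pos (symMat_isHermitian x) fun v hv => ?_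
    have hvv : 0 < v ⬝ᵥ v := lt_of_le_of_ne (dot_self_nonneg v) fun h =>
      hv (dotProduct_self_eq_zero.1 h.symm)
    have h1 : symMat x = 1 + (symMat x - 1) := by abel
    have h2 : |v ⬝ᵥ ((symMat x - 1) *ᵥ v)| ≤ (p / (p + 1)) * (v ⬝ᵥ v) := by
      calc _ = |∑ i, ∑ j, v i * (symMat x - 1) i j * v j| := by
            simp only [dotProduct, mulVec, Finset.mul_sum, mul_assoc]
        _ ≤ ∑ i, ∑ j, (1 / (p + 1)) * ((v i * v i + v j * v j) / 2) := by
            refine (Finset.abs_sum_le_sum_abs _ _).trans (Finset.sum_le_sum fun i _ => ?_)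
            refine (Finset.abs_sum_le_sum_abs _ _).trans (Finset.sum_le_sum fun j _ => ?_)
            rw [mul_right_comm, abs_mul, mul_comm]
            refine mul_le_mul (hent i j) ?_ (abs_nonneg _) (by positivity)
            rw [abs_le]
            constructor <;> nlinarith [sq_nonneg (v i + v j), sq_nonneg (v i - v j)]
        _ = _ := by
            simp only [← Finset.mul_sum, ← Finset.sum_div, Finset.sum_add_distrib,
              Finset.sum_const, Finset.card_univ, Fintype.card_fin, nsmul_eq_mul, dotProduct]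
            simp only [mul_left_comm _ (p : ℝ), ← Finset.mul_sum]
            ring
    rw [star_trivial, h1, add_mulVec, dotProduct_add, one_mulVec]
    have h3 : (p / (p + 1) : ℝ) < 1 := (div_lt_one (by positivity)).2 (by linarith)
    nlinarith [neg_abs_le (v ⬝ᵥ ((symMat x - 1) *ᵥ v))]
  exact fun h => (Metric.measure_ball_pos volume x₀ (by positivity)).ne' (measure_mono_null hsub h)

lemma GamL_ne_zero (e : ℝ) (A : Matrix (Fin p) (Fin p) ℝ) : GamL p e A ≠ 0 := by
  intro h
  unfold GamL at h
  rw [lintegral_eq_zero_iff (measurable_gamIntegrand e A).ennreal_ofReal, Filter.EventuallyEq,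
    ae_restrict_iff' measurableSet_posCone] at h
  refine volume_posCone_ne_zero (p := p) (measure_mono_null (fun x hx => ?_) (ae_iff.1 h))
  have hd : 0 < (symMat x).det := PosDef.det_pos hx
  simp only [mem_ofPred_eq, Pi.zero_apply, ENNReal.ofReal_eq_zero, not_forall, not_le]
  exact ⟨hx, by positivity⟩

lemma mvGamma_eq (β : ℝ) : mvGamma p β = (GamL p (β - ((p : ℝ) + 1) / 2) 1).toReal := by
  unfold mvGamma GamL
  have hm := measurable_gamIntegrand (p := p) (β - ((p : ℝ) + 1) / 2) 1
  simp only [Matrix.one_mul, ← trace_neg] at hm ⊢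
  refine integral_eq_lintegral_of_nonneg_ae ?_ hm.aestronglyMeasurable
  filter_upwards [ae_restrict_mem measurableSet_posCone] with x hx
  have hd : 0 < (symMat x).det := PosDef.det_pos hx
  positivity

end

end Pool.Agent.Lib.MP_9d9c13_pr
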