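import Mathlib

/-!
Standard Gaussian measures on coordinate spaces: characteristic functions, measure preserving
linear maps, splitting of coordinates, independence.
-/

open MeasureTheory ProbabilityTheory Matrix
open scoped ENNReal NNReal

namespace Pool.Agent.Lib.MP_9d9c13_pr

noncomputable section

/-- The standard Gaussian measure on a coordinate space. -/
abbrev gam (ι : Type*) [Fintype ι] : Measure (ι → ℝ) := Measure.pi fun _ => gaussianReal 0 1

variable {ι κ η : Type*} [Fintype ι] [Fintype κ] [Fintype η]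

/-- the character attached to a real number -/
abbrev ei (t : ℝ) : ℂ := Complex.exp (t * Complex.I)

lemma norm_ei (t : ℝ) : ‖ei t‖ = 1 := Complex.norm_exp_ofReal_mul_I t

lemma ei_add (s t : ℝ) : ei (s + t) = ei s * ei t := by
  simp only [ei]; rw [← Complex.exp_add]; push_cast; ring_nf

@[fun_prop]
lemma continuous_ei : Continuous ei := by unfold ei; fun_prop

@[fun_prop]
lemma measurable_dot (t : ι → ℝ) : Measurable fun x : ι → ℝ => t ⬝ᵥ x := by
  unfold dotProduct; fun_prop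

@[fun_prop]
lemma continuous_dot (t : ι → ℝ) : Continuous fun x : ι → ℝ => t ⬝ᵥ x := by
  unfold dotProduct; fun_prop

lemma dot_self_nonneg (t : ι → ℝ) : 0 ≤ t ⬝ᵥ t :=
  Finset.sum_nonneg fun i _ => mul_self_nonneg (t i)

lemma char_gam (t : ι → ℝ) :
    ∫ x, ei (t ⬝ᵥ x) ∂gam ι = (Real.exp (-(t ⬝ᵥ t) / 2) : ℝ) := by
  have h1 : ∀ x : ι → ℝ, ei (t ⬝ᵥ x) = ∏ i, Complex.exp ((t i : ℂ) * (x i : ℂ) * Complex.I) := by
    intro x
    simp only [ei, dotProduct]
    rw [← Complex.exp_sum, ← Finset.sum_mul]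
    push_cast; rfl
  simp_rw [h1]
  rw [integral_fintype_prod_eq_prod
    (f := fun i (y : ℝ) => Complex.exp ((t i : ℂ) * (y : ℂ) * Complex.I))]
  simp_rw [← charFun_apply_real, charFun_gaussianReal]
  rw [← Complex.exp_sum, Complex.ofReal_exp]
  congr 1
  simp only [dotProduct]
  push_cast
  rw [neg_div, Finset.sum_div, ← Finset.sum_neg_distrib]
  refine Finset.sum_congr rfl fun i _ => ?_
  simp; ring

lemma dual_eq_dot [DecidableEq ι] (L : (ι → ℝ) →ₗ[ℝ] ℝ) (x : ι → ℝ) :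
    L x = (fun i => L (Pi.single i 1)) ⬝ᵥ x := by
  rw [LinearMap.pi_apply_eq_sum_univ]
  simp only [dotProduct, smul_eq_mul]
  refine Finset.sum_congr rfl fun i _ => ?_
  rw [mul_comm]; congr 2
  ext j; simp [Pi.single_apply, eq_comm]

lemma exists_dot_of_isLinear {f : (ι → ℝ) → ℝ} (hf : IsLinearMap ℝ f) :
    ∃ b : ι → ℝ, ∀ x, f x = b ⬝ᵥ x := by
  classical
  exact ⟨_, fun x => dual_eq_dot (IsLinearMap.mk' f hf) x⟩

lemma ext_char {μ ν : Measure (ι → ℝ)} [IsFiniteMeasure μ] [IsFiniteMeasure ν]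
    (h : ∀ t : ι → ℝ, ∫ x, ei (t ⬝ᵥ x) ∂μ = ∫ x, ei (t ⬝ᵥ x) ∂ν) : μ = ν := by
  classical
  refine Measure.ext_of_charFunDual (funext fun L => ?_)
  simp only [charFunDual_apply]
  obtain ⟨b, hb⟩ : ∃ b : ι → ℝ, ∀ x, L x = b ⬝ᵥ x :=
    ⟨_, fun x => dual_eq_dot (L : (ι → ℝ) →ₗ[ℝ] ℝ) x⟩
  simp_rw [hb]
  exact h _

lemma ext_char_prod {μ ν : Measure ((ι → ℝ) × (κ → ℝ))} [IsFiniteMeasure μ] [IsFiniteMeasure ν]
    (h : ∀ (s : ι → ℝ) (t : κ → ℝ),
      ∫ x, ei (s ⬝ᵥ x.1 + t ⬝ᵥ x.2) ∂μ = ∫ x, ei (s ⬝ᵥ x.1 + t ⬝ᵥ x.2) ∂ν) : μ = ν := by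
  classical
  refine Measure.ext_of_charFunDual (funext fun L => ?_)
  simp only [charFunDual_apply]
  obtain ⟨a, b, this⟩ : ∃ (a : ι → ℝ) (b : κ → ℝ),
      ∀ x : (ι → ℝ) × (κ → ℝ), L x = a ⬝ᵥ x.1 + b ⬝ᵥ x.2 := by
    refine ⟨fun i => L (Pi.single i 1, 0), fun i => L (0, Pi.single i 1), fun x => ?_⟩
    have h1 := dual_eq_dot ((L : _ →ₗ[ℝ] ℝ).comp (LinearMap.inl ℝ (ι → ℝ) (κ → ℝ))) x.1
    have h2 := dual_eq_dot ((L : _ →ₗ[ℝ] ℝ).comp (LinearMap.inr ℝ (ι → ℝ) (κ → ℝ))) x.2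
    simp only [LinearMap.comp_apply, LinearMap.inl_apply, LinearMap.inr_apply,
      ContinuousLinearMap.coe_coe] at h1 h2
    rw [← h1, ← h2, ← map_add]; simp
  simp_rw [this]
  exact h _ _

lemma char_gam_prod (a : ι → ℝ) (b : κ → ℝ) :
    ∫ p, ei (a ⬝ᵥ p.1 + b ⬝ᵥ p.2) ∂(gam ι).prod (gam κ)
      = (Real.exp (-(a ⬝ᵥ a + b ⬝ᵥ b) / 2) : ℝ) := by
  simp_rw [ei_add]
  rw [integral_prod_mul (fun x => ei (a ⬝ᵥ x)) (fun y => ei (b ⬝ᵥ y)), char_gam, char_gam,
    ← Complex.ofReal_mul, ← Real.exp_add]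
  congr 2; ring

/-- one-variable master lemma -/
lemma mp1 {f : (ι → ℝ) → (η → ℝ)} (hf : Measurable f)
    (h : ∀ t : η → ℝ, ∃ a : ι → ℝ, (∀ x, t ⬝ᵥ f x = a ⬝ᵥ x) ∧ a ⬝ᵥ a = t ⬝ᵥ t) :
    MeasurePreserving f (gam ι) (gam η) := by
  refine ⟨hf, ?_⟩
  have : IsProbabilityMeasure ((gam ι).map f) := Measure.isProbabilityMeasure_map hf.aemeasurable
  refine ext_char fun t => ?_
  obtain ⟨a, ha, hn⟩ := h t
  rw [integral_map hf.aemeasurable (by fun_prop)]
  simp_rw [ha]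
  rw [char_gam, char_gam, hn]

/-- two-variable master lemma -/
lemma mp2 {f : (ι → ℝ) × (κ → ℝ) → (η → ℝ)} (hf : Measurable f)
    (h : ∀ t : η → ℝ, ∃ (a : ι → ℝ) (b : κ → ℝ),
      (∀ x y, t ⬝ᵥ f (x, y) = a ⬝ᵥ x + b ⬝ᵥ y) ∧ a ⬝ᵥ a + b ⬝ᵥ b = t ⬝ᵥ t) :
    MeasurePreserving f ((gam ι).prod (gam κ)) (gam η) := by
  refine ⟨hf, ?_⟩
  have : IsProbabilityMeasure (((gam ι).prod (gam κ)).map f) :=
    Measure.isProbabilityMeasure_map hf.aemeasurable
  refine ext_char fun t => ?_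
  obtain ⟨a, b, ha, hn⟩ := h t
  rw [integral_map hf.aemeasurable (by fun_prop)]
  have : ∀ p : (ι → ℝ) × (κ → ℝ), t ⬝ᵥ f p = a ⬝ᵥ p.1 + b ⬝ᵥ p.2 := fun p => ha p.1 p.2
  simp_rw [this]
  rw [char_gam_prod, char_gam, hn]

/-- the rotation of a pair of vectors -/
def rot (θ : ℝ) (p : (ι → ℝ) × (ι → ℝ)) : (ι → ℝ) × (ι → ℝ) :=
  (Real.cos θ • p.1 - Real.sin θ • p.2, Real.sin θ • p.1 + Real.cos θ • p.2)

lemma measurable_rot_uncurry :
    Measurable fun q : ℝ × ((ι → ℝ) × (ι → ℝ)) => rot q.1 q.2 := by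
  unfold rot; fun_prop

lemma mp_rot (θ : ℝ) :
    MeasurePreserving (rot θ) ((gam ι).prod (gam ι)) ((gam ι).prod (gam ι)) := by
  have hf : Measurable (rot (ι := ι) θ) := by unfold rot; fun_prop
  refine ⟨hf, ?_⟩
  have : IsProbabilityMeasure (((gam ι).prod (gam ι)).map (rot θ)) :=
    Measure.isProbabilityMeasure_map hf.aemeasurable
  refine ext_char_prod fun s t => ?_
  rw [integral_map hf.aemeasurable (by fun_prop)]
  have : ∀ p : (ι → ℝ) × (ι → ℝ), s ⬝ᵥ (rot θ p).1 + t ⬝ᵥ (rot θ p).2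
      = (Real.cos θ • s + Real.sin θ • t) ⬝ᵥ p.1 + (Real.cos θ • t - Real.sin θ • s) ⬝ᵥ p.2 := by
    intro p
    simp only [rot, dotProduct_sub, dotProduct_add, dotProduct_smul, add_dotProduct,
      sub_dotProduct, smul_dotProduct, smul_eq_mul]
    ring
  simp_rw [this]
  rw [char_gam_prod, char_gam_prod]
  congr 4
  simp only [dotProduct_sub, dotProduct_add, dotProduct_smul, add_dotProduct,
    sub_dotProduct, smul_dotProduct, smul_eq_mul, dotProduct_comm t s]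
  have := Real.cos_sq_add_sin_sq θ
  linear_combination (s ⬝ᵥ s + t ⬝ᵥ t) * this

/-- law of a linear functional -/
lemma map_dot (a : ι → ℝ) :
    (gam ι).map (fun x => a ⬝ᵥ x) = gaussianReal 0 (a ⬝ᵥ a).toNNReal := by
  have : IsProbabilityMeasure ((gam ι).map (fun x => a ⬝ᵥ x)) :=
    Measure.isProbabilityMeasure_map (measurable_dot a).aemeasurable
  refine Measure.ext_of_charFun (funext fun t => ?_)
  rw [charFun_gaussianReal, charFun_apply_real,
    integral_map (measurable_dot a).aemeasurable (by fun_prop)]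
  have : ∀ x : ι → ℝ, Complex.exp ((t : ℂ) * ((a ⬝ᵥ x : ℝ) : ℂ) * Complex.I)
      = ei ((t • a) ⬝ᵥ x) := by
    intro x; simp [ei]
  simp_rw [this]
  rw [char_gam, Complex.ofReal_exp]
  congr 1
  rw [Real.coe_toNNReal _ (dot_self_nonneg a)]
  simp only [smul_dotProduct, dotProduct_smul, smul_eq_mul]
  push_cast; ring

lemma map_dot' (a : ι → ℝ) :
    (gam ι).map (fun x => a ⬝ᵥ x)
      = (gaussianReal 0 1).map (fun g => Real.sqrt (a ⬝ᵥ a) * g) := by
  rw [map_dot, gaussianReal_map_const_mul]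
  congr 1
  · simp
  · ext
    simp [Real.sq_sqrt (dot_self_nonneg a), Real.coe_toNNReal _ (dot_self_nonneg a)]

lemma lintegral_dot (a : ι → ℝ) {f : ℝ → ℝ≥0∞} (hf : Measurable f) :
    ∫⁻ x, f (a ⬝ᵥ x) ∂gam ι = ∫⁻ g, f (Real.sqrt (a ⬝ᵥ a) * g) ∂gaussianReal 0 1 := by
  rw [← lintegral_map hf (measurable_dot a), map_dot', lintegral_map hf (by fun_prop)]

lemma ae_dot_ne_zero {a : ι → ℝ} (ha : a ⬝ᵥ a ≠ 0) : ∀ᵐ x ∂gam ι, a ⬝ᵥ x ≠ 0 := by
  have hpos : 0 < a ⬝ᵥ a := lt_of_le_of_ne (dot_self_nonneg a) (Ne.symm ha)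
  have hv : (a ⬝ᵥ a).toNNReal ≠ 0 := by
    simpa [Real.toNNReal_eq_zero] using hpos
  have := nullSingletonClass_gaussianReal (μ := 0) hv
  have h0 : (gam ι).map (fun x => a ⬝ᵥ x) {0} = 0 := by rw [map_dot]; simp
  rw [Measure.map_apply (measurable_dot a) (measurableSet_singleton 0)] at h0
  rw [ae_iff]
  simpa [Set.preimage] using h0

/-- splitting an integral along a measure preserving map from a product -/
lemma lintegral_split {A B C : Type*} [MeasurableSpace A] [MeasurableSpace B] [MeasurableSpace C]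
    {μ : Measure A} {ν : Measure B} {ρ : Measure C} [SFinite ν] {f : A × B → C}
    (hf : MeasurePreserving f (μ.prod ν) ρ) {g : C → ℝ≥0∞} (hg : Measurable g) :
    ∫⁻ z, g z ∂ρ = ∫⁻ x, ∫⁻ y, g (f (x, y)) ∂ν ∂μ := by
  rw [← hf.lintegral_comp hg]
  exact lintegral_prod _ (hg.comp hf.measurable).aemeasurable

/-- take the coordinates satisfying `P` from `y` and the others from `x` -/
def pw (P : ι → Prop) [DecidablePred P] (y x : ι → ℝ) : ι → ℝ := fun q => if P q then y q else x q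

omit [Fintype ι] in
@[fun_prop]
lemma measurable_pw {A : Type*} [MeasurableSpace A] (P : ι → Prop) [DecidablePred P]
    {f g : A → ι → ℝ} (hf : Measurable f) (hg : Measurable g) :
    Measurable fun a => pw P (f a) (g a) := by
  refine measurable_pi_iff.2 fun q => ?_
  unfold pw
  split_ifs
  · exact (measurable_pi_apply q).comp hf
  · exact (measurable_pi_apply q).comp hg

lemma mp_pw (P : ι → Prop) [DecidablePred P] :
    MeasurePreserving (fun p : (ι → ℝ) × (ι → ℝ) => pw P p.2 p.1)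
      ((gam ι).prod (gam ι)) (gam ι) := by
  refine mp2 (by fun_prop) fun t => ⟨pw P 0 t, pw P t 0, fun x y => ?_, ?_⟩
  · simp only [dotProduct, pw, ← Finset.sum_add_distrib]
    refine Finset.sum_congr rfl fun q _ => ?_
    split_ifs <;> simp
  · simp only [dotProduct, pw, ← Finset.sum_add_distrib]
    refine Finset.sum_congr rfl fun q _ => ?_
    split_ifs <;> simp

lemma lintegral_pw (P : ι → Prop) [DecidablePred P] {g : (ι → ℝ) → ℝ≥0∞} (hg : Measurable g) :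
    ∫⁻ z, g z ∂gam ι = ∫⁻ x, ∫⁻ y, g (pw P y x) ∂gam ι ∂gam ι :=
  lintegral_split (mp_pw P) hg

/-- functions of disjoint groups of coordinates are independent -/
lemma lintegral_prod_indep {D : Type*} [DecidableEq D] (lab : ι → D) (ψ : D → (ι → ℝ) → ℝ≥0∞)
    (hψ : ∀ i, Measurable (ψ i))
    (hdep : ∀ i x y, (∀ q, lab q = i → x q = y q) → ψ i x = ψ i y) (s : Finset D) :
    ∫⁻ x, ∏ i ∈ s, ψ i x ∂gam ι = ∏ i ∈ s, ∫⁻ x, ψ i x ∂gam ι := by
  induction s using Finset.induction_on with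
  | empty => simp
  | insert a s ha ih =>
    simp_rw [Finset.prod_insert ha]
    have hm : Measurable fun x => ∏ i ∈ s, ψ i x := Finset.measurable_prod _ fun i _ => hψ i
    rw [lintegral_pw (fun q => lab q = a) (g := fun x => ψ a x * ∏ i ∈ s, ψ i x)
      ((hψ a).mul hm)]
    have : ∀ x y : ι → ℝ, ψ a (pw (fun q => lab q = a) y x)
        * ∏ i ∈ s, ψ i (pw (fun q => lab q = a) y x) = ψ a y * ∏ i ∈ s, ψ i x := by
      intro x y
      congr 1
      · exact hdep _ _ _ fun q hq => by simp [pw, hq]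
      · refine Finset.prod_congr rfl fun i hi => hdep _ _ _ fun q hq => ?_
        have : lab q ≠ a := by rintro rfl; exact ha (hq ▸ hi)
        simp [pw, this]
    simp_rw [this]
    simp_rw [lintegral_mul_const _ (hψ a)]
    rw [lintegral_const_mul _ hm, ih]

end

end Pool.Agent.Lib.MP_9d9c13_pr
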