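import Pool.Agent.Lib.MP_9d9c13_pr.WLap

/-!
Identification of the law of the diagonal blocks in the two Gaussian models.
-/

open MeasureTheory ProbabilityTheory Matrix Set Filter Topology
open scoped ENNReal NNReal

namespace Pool.Agent.Lib.MP_9d9c13_pr

noncomputable section

variable {p : ℕ} {D : Type} [Fintype D] [LinearOrder D]

lemma mp_mul {m n ι κ : Type} [Fintype m] [Fintype n] [Fintype ι] [Fintype κ] [DecidableEq m]
    [DecidableEq n] {E : Matrix m ι ℝ} {U : Matrix κ n ℝ} (hE : E * Eᵀ = 1) (hU : Uᵀ * U = 1) :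
    MeasurePreserving (fun z : ι × κ → ℝ => vec (E * mat z * U)) (gam (ι × κ)) (gam (m × n)) := by
  refine mp1 (Continuous.measurable (by fun_prop)) fun t =>
    ⟨vec (Eᵀ * mat t * Uᵀ), fun z => ?_, ?_⟩
  · rw [dot_eq_trace, dot_eq_trace, mat_vec, mat_vec, ← Matrix.mul_assoc, trace_mul_comm]
    simp only [transpose_mul, transpose_transpose, Matrix.mul_assoc]
  · rw [dot_eq_trace, dot_eq_trace, mat_vec]
    simp only [transpose_mul, transpose_transpose, Matrix.mul_assoc]
    rw [trace_mul_comm, ← Matrix.mul_assoc E, hE]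
    simp only [Matrix.one_mul, Matrix.mul_assoc, hU, Matrix.mul_one]

lemma integral_ei_mix {A ι : Type} [MeasurableSpace A] [Fintype ι] (μ : Measure A)
    [IsFiniteMeasure μ] {a : A → ι → ℝ} (ha : Measurable a) :
    ∫ q, ei (a q.1 ⬝ᵥ q.2) ∂μ.prod (gam ι)
      = ((∫⁻ x, ENNReal.ofReal (Real.exp (-(a x ⬝ᵥ a x) / 2)) ∂μ).toReal : ℝ) := by
  have h1 : Measurable fun q : A × (ι → ℝ) => a q.1 ⬝ᵥ q.2 := by
    unfold dotProduct; fun_prop
  have h2 : Measurable fun x => a x ⬝ᵥ a x := by
    unfold dotProduct; fun_prop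
  have h3 : Measurable fun q : A × (ι → ℝ) => ei (a q.1 ⬝ᵥ q.2) :=
    continuous_ei.measurable.comp h1
  rw [integral_prod _ (Integrable.of_bound h3.aestronglyMeasurable 1
    (ae_of_all _ fun q => (norm_ei _).le))]
  simp_rw [char_gam]
  rw [integral_complex_ofReal, integral_eq_lintegral_of_nonneg_ae
    (ae_of_all _ fun x => (Real.exp_pos _).le) (Measurable.aestronglyMeasurable (by fun_prop))]

/-- the block diagonal part -/
def bmask (blk : Fin p → D) (M : Matrix (Fin p) (Fin p) ℝ) : Matrix (Fin p) (Fin p) ℝ :=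
  Matrix.of fun a b => if blk a = blk b then M a b else 0

@[fun_prop]
lemma continuous_bmask (blk : Fin p → D) : Continuous (bmask blk) := by
  refine continuous_matrix fun a k => ?_
  simp only [bmask, of_apply]
  split_ifs
  · exact continuous_id.matrix_elem a k
  · exact continuous_const

lemma dot_bmask (blk : Fin p → D) (θ : Fin p × Fin p → ℝ) (M : Matrix (Fin p) (Fin p) ℝ) :
    θ ⬝ᵥ vec (bmask blk M) = ((bmask blk (mat θ))ᵀ * M).trace := by
  rw [← vec_dot_vec]
  simp only [dotProduct, vec_apply, bmask, of_apply, mat_apply]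
  exact Finset.sum_congr rfl fun q _ => by split_ifs <;> simp

lemma sq_bmask (blk : Fin p → D) (i : D) (M : Matrix (Fin p) (Fin p) ℝ) :
    sq blk i (bmask blk M) = sq blk i M := by
  ext a b
  simp [bmask, a.2, b.2]

lemma law_eq {blk : Fin p → D} (hblk : Monotone blk) {α : ℝ} (hα : (p : ℝ) - 1 < α)
    {S Q : Matrix (Fin p) (Fin p) ℝ} (hS : S.PosDef) (hQ : Qᵀ * Q = S)
    {R : (Sym2 (Fin p) → ℝ) → (Fin p × Fin p → ℝ)} (hR : Measurable R)
    (hRR : ∀ x ∈ posCone p, (mat (R x))ᵀ * mat (R x) = symMat x)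
    (hζ : ∫⁻ t, wT blk α t ∂gam (Fin p × Fin p) ≠ ⊤)
    {G : (Fin p × Fin p → ℝ) → ℝ≥0∞} (hG : Measurable G) :
    ∫⁻ t, wT blk α t * ∫⁻ z, G (vec (bmask blk (tmask blk (mat t) * mat z * Q)))
        ∂gam (Fin p × Fin p) ∂gam (Fin p × Fin p)
      = (∫⁻ t, wT blk α t ∂gam (Fin p × Fin p)) * ∫⁻ x, ∫⁻ n,
        G (vec (bmask blk (mat n * mat (R x)))) ∂gam (Fin p × Fin p) ∂wishart α S := by
  set ζ := ∫⁻ t, wT blk α t ∂gam (Fin p × Fin p) with hζd
  have := isProbabilityMeasure_wishart hα hS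
  have : IsFiniteMeasure ((gam (Fin p × Fin p)).withDensity (wT blk α)) :=
    isFiniteMeasure_withDensity hζ
  have : IsFiniteMeasure (ζ • wishart α S) := Measure.smul_finite _ hζ
  set fT : (Fin p × Fin p → ℝ) × (Fin p × Fin p → ℝ) → (Fin p × Fin p → ℝ) := fun q =>
    vec (bmask blk (tmask blk (mat q.1) * mat q.2 * Q)) with hfT
  set fX : (Sym2 (Fin p) → ℝ) × (Fin p × Fin p → ℝ) → (Fin p × Fin p → ℝ) := fun q =>
    vec (bmask blk (mat q.2 * mat (R q.1))) with hfX
  have hfTm : Measurable fT := Continuous.measurable (by fun_prop)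
  have hfXm : Measurable fX := by
    have h1 : Continuous fun q : (Fin p × Fin p → ℝ) × (Fin p × Fin p → ℝ) =>
        vec (bmask blk (mat q.2 * mat q.1)) := by fun_prop
    exact h1.measurable.comp (f := fun q : (Sym2 (Fin p) → ℝ) × (Fin p × Fin p → ℝ) =>
      (R q.1, q.2)) (by fun_prop)
  have key : (((gam (Fin p × Fin p)).withDensity (wT blk α)).prod (gam (Fin p × Fin p))).map fT
      = ((ζ • wishart α S).prod (gam (Fin p × Fin p))).map fX := by
    refine ext_char fun θ => ?_
    rw [integral_map hfTm.aemeasurable (by fun_prop), integral_map hfXm.aemeasurable (by fun_prop)]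
    set Θ := bmask blk (mat θ) with hΘ
    have h1 : ∀ q : (Fin p × Fin p → ℝ) × (Fin p × Fin p → ℝ),
        θ ⬝ᵥ fT q = vec ((tmask blk (mat q.1))ᵀ * Θ * Qᵀ) ⬝ᵥ q.2 := by
      intro q
      rw [hfT, dot_bmask, dot_eq_trace, mat_vec, ← Matrix.mul_assoc, trace_mul_comm]
      simp only [transpose_mul, transpose_transpose, Matrix.mul_assoc, hΘ]
    have h2 : ∀ q : (Sym2 (Fin p) → ℝ) × (Fin p × Fin p → ℝ),
        θ ⬝ᵥ fX q = vec (Θ * (mat (R q.1))ᵀ) ⬝ᵥ q.2 := by
      intro q
      rw [hfX, dot_bmask, dot_eq_trace, mat_vec, ← Matrix.mul_assoc, trace_mul_comm]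
      simp only [transpose_mul, transpose_transpose, Matrix.mul_assoc, hΘ]
    simp_rw [h1, h2]
    have hm2 : Measurable fun x => vec (Θ * (mat (R x))ᵀ) :=
      (Continuous.measurable (f := fun r : Fin p × Fin p → ℝ => vec (Θ * (mat r)ᵀ))
        (by fun_prop)).comp hR
    rw [integral_ei_mix _ (a := fun t => vec ((tmask blk (mat t))ᵀ * Θ * Qᵀ))
      (Continuous.measurable (by fun_prop)), integral_ei_mix _ hm2]
    congr 2
    have h3 : ∀ t : Fin p × Fin p → ℝ, vec ((tmask blk (mat t))ᵀ * Θ * Qᵀ)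
        ⬝ᵥ vec ((tmask blk (mat t))ᵀ * Θ * Qᵀ)
        = ((tmask blk (mat t))ᵀ * (Θ * S * Θᵀ) * tmask blk (mat t)).trace := by
      intro t
      rw [vec_dot_vec, trace_mul_comm, ← hQ]
      simp only [transpose_mul, transpose_transpose, Matrix.mul_assoc]
    have h4 : ∀ x ∈ posCone p, vec (Θ * (mat (R x))ᵀ) ⬝ᵥ vec (Θ * (mat (R x))ᵀ)
        = (Θᵀ * Θ * symMat x).trace := by
      intro x hx
      rw [vec_dot_vec, ← hRR x hx, transpose_mul, transpose_transpose, Matrix.mul_assoc,
        trace_mul_comm]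
      simp only [Matrix.mul_assoc]
    simp_rw [h3]
    have hm3 : Measurable fun t : Fin p × Fin p → ℝ => ENNReal.ofReal
        (Real.exp (-((tmask blk (mat t))ᵀ * (Θ * S * Θᵀ) * tmask blk (mat t)).trace / 2)) :=
      ENNReal.measurable_ofReal.comp (Continuous.measurable (by fun_prop))
    have hP1 : (Θ * S * Θᵀ).PosSemidef := by
      have := hS.posSemidef.mul_mul_conjTranspose_same Θ
      rwa [conjTranspose_eq_transpose_of_trivial] at this
    have hP2 : (Θᵀ * Θ).PosSemidef := by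
      have := posSemidef_conjTranspose_mul_self Θ
      rwa [conjTranspose_eq_transpose_of_trivial] at this
    rw [lintegral_withDensity_eq_lintegral_mul _ (measurable_wT blk α) hm3]
    simp only [Pi.mul_apply]
    rw [laplace_T hblk α hP1, lintegral_smul_measure, smul_eq_mul,
      lintegral_congr_ae (g := fun x =>
        ENNReal.ofReal (Real.exp (-(Θᵀ * Θ * symMat x).trace / 2)))
        ((ae_wishart α S).mono fun x hx => by simp only [h4 x hx]),
      wishart_laplace hα hS hP2, mul_comm, Matrix.mul_assoc, det_one_add_mul_comm,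
      Matrix.mul_assoc]
  have h5 := congrArg (fun μ => ∫⁻ m, G m ∂μ) key
  have hGT : Measurable fun q => G (fT q) := hG.comp hfTm
  have hGX : Measurable fun q => G (fX q) := hG.comp hfXm
  rw [lintegral_map hG hfTm, lintegral_map hG hfXm, lintegral_prod _ hGT.aemeasurable,
    lintegral_prod _ hGX.aemeasurable, lintegral_smul_measure, smul_eq_mul,
    lintegral_withDensity_eq_lintegral_mul _ (measurable_wT blk α) hGT.lintegral_prod_right'] at h5
  exact h5

end

end Pool.Agent.Lib.MP_9d9c13_pr
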