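import Pool.Agent.Lib.MP_9d9c13_pr.Law

/-!
The product inequality for the determinants of the diagonal blocks, in `[0, ∞]`.
-/

open MeasureTheory ProbabilityTheory Matrix Set Filter Topology
open scoped ENNReal NNReal

namespace Pool.Agent.Lib.MP_9d9c13_pr

noncomputable section

variable {p : ℕ} {D : Type} [Fintype D] [LinearOrder D]

/-- the selection matrix -/
def sel {B ι : Type} [DecidableEq ι] (e : B → ι) : Matrix B ι ℝ := (1 : Matrix ι ι ℝ).submatrix e id

lemma sel_mul {B ι κ : Type} [Fintype ι] [DecidableEq ι] (e : B → ι) (M : Matrix ι κ ℝ) :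
    sel e * M = M.submatrix e id := by
  ext a k; simp [sel, mul_apply, one_apply]

lemma mul_sel {B ι κ : Type} [Fintype ι] [DecidableEq ι] (e : B → ι) (M : Matrix κ ι ℝ) :
    M * (sel e)ᵀ = M.submatrix id e := by
  ext a k; simp [sel, mul_apply, one_apply]

lemma sel_mul_sel {B ι : Type} [Fintype ι] [DecidableEq ι] [DecidableEq B] {e : B → ι}
    (he : Function.Injective e) : sel e * (sel e)ᵀ = 1 := by
  rw [mul_sel]; ext a b; simp [sel, one_apply, he.eq_iff]

lemma FB_zero {B ι κ : Type} [Fintype B] [Fintype ι] [Fintype κ] [DecidableEq B] [DecidableEq ι]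
    {e : B → ι} (he : Function.Injective e) (act : ι → Prop) [DecidablePred act]
    (Q : Matrix κ B ℝ) (γ : ℝ) (z : ι × κ → ℝ) : FB e act Q γ 0 z = dmom B γ := by
  have h := (mp_mul (E := (1 : Matrix B B ℝ)) (U := (sel e)ᵀ) (by simp)
    (by rw [transpose_transpose, sel_mul_sel he])).lintegral_comp (measurable_apow_det (B := B) γ)
  simp only [mat_vec, Matrix.one_mul, mul_sel] at h
  simp only [FB, PhiB, apow_zero, mul_one]
  exact h

lemma X_side (blk : Fin p → D) (s : D → ℝ) {P : Matrix (Fin p) (Fin p) ℝ} (hP : (Pᵀ * P).PosDef) :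
    ∫⁻ n, ∏ i, apow (s i) (sq blk i (mat n * P)).det ∂gam (Fin p × Fin p)
      = (∏ i, dmom {a // blk a = i} (s i)) * ∏ i, apow (s i / 2) (sq blk i (Pᵀ * P)).det := by
  have hm : ∀ i, Measurable fun n : Fin p × Fin p → ℝ => apow (s i) (sq blk i (mat n * P)).det :=
    fun i => measurable_apow _ (Continuous.measurable (by fun_prop))
  rw [lintegral_prod_indep (fun q : Fin p × Fin p => blk q.1) _ hm, ← Finset.prod_mul_distrib]
  swap
  · intro i x y h
    congr 2
    ext a b
    simp only [submatrix_apply, mul_apply, mat_apply]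
    exact Finset.sum_congr rfl fun k _ => by rw [h (a, k) a.2]
  refine Finset.prod_congr rfl fun i _ => ?_
  have hY : (sq blk i (Pᵀ * P)).PosDef := hP.submatrix Subtype.val_injective
  obtain ⟨V, hV⟩ := exists_factor_psd hY.posSemidef
  have hdet : (sq blk i (Pᵀ * P)).det = V.det ^ 2 := by
    rw [← hV, det_mul, det_transpose, _root_.sq]
  have hVne : V.det ≠ 0 := by
    intro h; have := hY.det_pos; rw [hdet, h] at this; simp at this
  set P' : Matrix (Fin p) {a // blk a = i} ℝ := P.submatrix id Subtype.val with hP'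
  have hPP : P'ᵀ * P' = Vᵀ * V := by rw [hV]; ext a b; simp [hP', mul_apply]
  have hU : (P' * V⁻¹)ᵀ * (P' * V⁻¹) = 1 := by
    rw [transpose_mul, Matrix.mul_assoc, ← Matrix.mul_assoc P'ᵀ, hPP, Matrix.mul_assoc,
      mul_nonsing_inv _ hVne.isUnit, Matrix.mul_one, ← transpose_mul,
      mul_nonsing_inv _ hVne.isUnit, transpose_one]
  have h := (mp_mul (sel_mul_sel (e := (Subtype.val : {a // blk a = i} → Fin p))
    Subtype.val_injective) hU).lintegral_comp (measurable_apow_det (s i))
  have h1 : ∀ n : Fin p × Fin p → ℝ, sq blk i (mat n * P)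
      = sel (Subtype.val : {a // blk a = i} → Fin p) * mat n * (P' * V⁻¹) * V := by
    intro n
    rw [Matrix.mul_assoc, nonsing_inv_mul_cancel_right _ _ hVne.isUnit, sel_mul]
    ext a b; simp [hP', mul_apply]
  simp only [mat_vec] at h
  simp_rw [h1, det_mul _ V, apow_mul]
  rw [lintegral_mul_const _ (measurable_apow _ (Continuous.measurable (by fun_prop))), h, hdet]
  congr 1
  rw [apow_eq_ofReal (Or.inl hVne), apow_eq_ofReal (Or.inl (pow_ne_zero 2 hVne)), abs_pow,
    ← Real.rpow_natCast, ← Real.rpow_mul (abs_nonneg _)]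
  congr 2; push_cast; ring

/-- the block functional of the triangular model -/
abbrev FT (blk : Fin p → D) (α : ℝ) (Q : Matrix (Fin p) (Fin p) ℝ) (i : D) (s : ℝ) :
    (Fin p × Fin p → ℝ) → ℝ≥0∞ :=
  FB (Subtype.val : {a // blk a = i} → Fin p) (fun k => blk k ≤ i) (Q.submatrix id Subtype.val)
    (α - nle blk i) s

lemma T_side (blk : Fin p → D) (α : ℝ) (Q : Matrix (Fin p) (Fin p) ℝ) (s : D → ℝ) :
    ∫⁻ t, wT blk α t * ∫⁻ z, ∏ i, apow (s i) (sq blk i (tmask blk (mat t) * mat z * Q)).det
        ∂gam (Fin p × Fin p) ∂gam (Fin p × Fin p)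
      = ∫⁻ z, ∏ i, FT blk α Q i (s i) z ∂gam (Fin p × Fin p) := by
  obtain ⟨r, hmp, hr'⟩ : ∃ r : ∀ i : D, (Fin p × Fin p → ℝ) → ({a // blk a = i} × Fin p → ℝ),
      (∀ i, MeasurePreserving (r i) (gam _) (gam _))
        ∧ ∀ i t, mat (r i t) = (mat t).submatrix Subtype.val id :=
    ⟨fun i t => vec (sel (Subtype.val : {a // blk a = i} → Fin p) * mat t
      * (1 : Matrix (Fin p) (Fin p) ℝ)),
      fun i => mp_mul (sel_mul_sel Subtype.val_injective) (by simp),
      fun i t => by rw [mat_vec, Matrix.mul_one, sel_mul]⟩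
  obtain ⟨Φ, hΦ⟩ : ∃ Φ : D → (Fin p × Fin p → ℝ) → (Fin p × Fin p → ℝ) → ℝ≥0∞, ∀ i t z, Φ i t z =
    PhiB (Subtype.val : {a // blk a = i} → Fin p) (fun k => blk k ≤ i)
      (Q.submatrix id Subtype.val) (α - nle blk i) (s i) (mat (r i t)) (mat z) :=
    ⟨_, fun _ _ _ => rfl⟩
  have hΦm : ∀ i, Measurable fun q : (Fin p × Fin p → ℝ) × (Fin p × Fin p → ℝ) =>
      Φ i q.1 q.2 := by
    intro i
    simp only [hΦ]
    exact measurable_PhiB _ _ _ _ _ (t := fun q : (Fin p × Fin p → ℝ) × (Fin p × Fin p → ℝ) =>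
      r i q.1) ((hmp i).measurable.comp measurable_fst) measurable_snd
  have h1 : ∀ t z, wT blk α t * ∏ i, apow (s i) (sq blk i (tmask blk (mat t) * mat z * Q)).det
      = ∏ i, Φ i t z := by
    intro t z
    rw [wT, ← Finset.prod_mul_distrib]
    refine Finset.prod_congr rfl fun i _ => ?_
    have h2 : sq blk i (tmask blk (mat t) * mat z * Q)
        = msk (fun k => blk k ≤ i) ((mat t).submatrix Subtype.val id) * mat z
          * Q.submatrix id Subtype.val := by
      ext a b
      simp [mul_apply, tmask, msk, a.2]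
    rw [hΦ, PhiB, hr', h2]
    rfl
  have h2 : ∀ t, Measurable fun z : Fin p × Fin p → ℝ =>
      ∏ i, apow (s i) (sq blk i (tmask blk (mat t) * mat z * Q)).det := fun t =>
    Finset.measurable_prod _ fun i _ => measurable_apow _ (Continuous.measurable (by fun_prop))
  simp_rw [← lintegral_const_mul _ (h2 _), h1]
  have h3 : Measurable fun q : (Fin p × Fin p → ℝ) × (Fin p × Fin p → ℝ) => ∏ i, Φ i q.1 q.2 :=
    Finset.measurable_prod _ fun i _ => hΦm i
  rw [lintegral_lintegral_swap h3.aemeasurable]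
  refine lintegral_congr fun z => ?_
  rw [lintegral_prod_indep (fun q : Fin p × Fin p => blk q.1) (fun i t => Φ i t z)
    (fun i => (hΦm i).comp (measurable_id.prodMk measurable_const))]
  · refine Finset.prod_congr rfl fun i _ => ?_
    simp only [hΦ]
    exact (hmp i).lintegral_comp (f := fun t => PhiB (Subtype.val : {a // blk a = i} → Fin p)
      (fun k => blk k ≤ i) (Q.submatrix id Subtype.val) (α - nle blk i) (s i) (mat t) (mat z))
      (measurable_PhiB _ _ _ _ _ measurable_id measurable_const)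
  · intro i x y h
    have h4 : (mat x).submatrix (Subtype.val : {a // blk a = i} → Fin p) id
        = (mat y).submatrix Subtype.val id := by
      ext a b
      exact h (a, b) a.2
    simp only [hΦ, hr', h4]

lemma FT_decouple (blk : Fin p → D) (α : ℝ) (Q : Matrix (Fin p) (Fin p) ℝ) {s : D → ℝ}
    (hs : ∀ i, 0 ≤ s i) : ∏ i, ∫⁻ z, FT blk α Q i (s i) z ∂gam (Fin p × Fin p)
      ≤ ∫⁻ z, ∏ i, FT blk α Q i (s i) z ∂gam (Fin p × Fin p) := by
  refine decouple Prod.fst blk (fun i => FT blk α Q i (s i)) (fun i => measurable_FB _ _ _ _ _)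
    fun i k => ?_
  have h0 : ∀ (F : (Fin p × Fin p → ℝ) → ℝ≥0∞) x,
      marg (fun q : Fin p × Fin p => q.1 ∈ (∅ : Finset (Fin p))) F x = F x := by
    intro F x
    have : ∀ y, pw (fun q : Fin p × Fin p => q.1 ∈ (∅ : Finset (Fin p))) y x = x := fun y => by
      ext q; simp [pw]
    simp [marg, this]
  rcases lt_trichotomy (blk k) i with h | h | h
  · refine ⟨Finset.univ.filter fun a => blk a = i, fun k' hk' => ?_, fun x => ?_⟩
    · rw [(Finset.mem_filter.1 hk').2]; exact h
    · exact allowed_low _ _ _ _ Subtype.val_injective (fun b => b.2.le) (hs i) _ (by simp)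
        (by simpa using h.ne) x
  · refine ⟨∅, by simp, fun x => ?_⟩
    simp_rw [h0]
    exact allowed_own _ _ _ _ Subtype.val_injective (hs i) ⟨k, h⟩ x
  · refine ⟨∅, by simp, fun x => ?_⟩
    simp_rw [h0]
    exact allowed_inactive _ (fun k => blk k ≤ i) _ _ _ (not_le.2 h) x

theorem wishart_lintegral_prod_le {blk : Fin p → D} (hblk : Monotone blk) {α : ℝ}
    (hα : (p : ℝ) - 1 < α) {S : Matrix (Fin p) (Fin p) ℝ} (hS : S.PosDef) {ν : D → ℝ}
    (hν : ∀ i, 0 ≤ ν i) :
    ∏ i, ∫⁻ x, apow (ν i) (sq blk i (symMat x)).det ∂wishart α S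
      ≤ ∫⁻ x, ∏ i, apow (ν i) (sq blk i (symMat x)).det ∂wishart α S := by
  obtain ⟨Q, hQ⟩ := exists_factor_psd hS.posSemidef
  obtain ⟨R, hR, hRR⟩ := exists_measurable_root (p := p)
  have hγ : ∀ i, -1 < α - nle blk i := fun i => by
    have : nle blk i ≤ p := by simpa [nle] using Finset.card_filter_le Finset.univ fun k => blk k ≤ i
    have : (nle blk i : ℝ) ≤ p := by exact_mod_cast this
    linarith
  set c : D → ℝ≥0∞ := fun i => dmom {a // blk a = i} (α - nle blk i) with hc
  have hc0 : ∀ i, c i ≠ 0 := fun i => dmom_ne_zero _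
  have hct : ∀ i, c i ≠ ⊤ := fun i => dmom_ne_top (hγ i)
  have hζ : ∫⁻ t, wT blk α t ∂gam (Fin p × Fin p) = ∏ i, c i := by
    have := T_side blk α Q 0
    simpa [FT, FB_zero Subtype.val_injective] using this
  have hid : ∀ s : D → ℝ, ∫⁻ z, ∏ i, FT blk α Q i (s i) z ∂gam (Fin p × Fin p)
      = (∏ i, c i) * ((∏ i, dmom {a // blk a = i} (s i))
        * ∫⁻ x, ∏ i, apow (s i / 2) (sq blk i (symMat x)).det ∂wishart α S) := by
    intro s
    have h := law_eq hblk hα hS hQ hR hRR (by rw [hζ]; exact ENNReal.prod_ne_top fun i _ => hct i)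
      (G := fun m => ∏ i, apow (s i) (sq blk i (mat m)).det)
      (Finset.measurable_prod _ fun i _ => measurable_apow _ (measurable_sq_det blk i))
    simp only [mat_vec, sq_bmask] at h
    rw [← T_side, h, hζ, ← lintegral_const_mul _ (Finset.measurable_prod _ fun i _ =>
      measurable_apow _ (Continuous.measurable (by fun_prop)))]
    congr 1
    refine lintegral_congr_ae ((ae_wishart α S).mono fun x hx => ?_)
    have hP : ((mat (R x))ᵀ * mat (R x)).PosDef := by rw [hRR x hx]; exact hx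
    simp only [X_side blk s hP, hRR x hx]
  have hone : ∀ i, ∫⁻ z, FT blk α Q i (2 * ν i) z ∂gam (Fin p × Fin p)
      = c i * (dmom {a // blk a = i} (2 * ν i)
        * ∫⁻ x, apow (ν i) (sq blk i (symMat x)).det ∂wishart α S) := by
    intro i
    have h := hid (Pi.single i (2 * ν i))
    have h1 : ∀ z, ∏ j, FT blk α Q j ((Pi.single i (2 * ν i) : D → ℝ) j) z
        = (∏ j ∈ Finset.univ.erase i, c j) * FT blk α Q i (2 * ν i) z := by
      intro z
      rw [← Finset.prod_erase_mul _ _ (Finset.mem_univ i), Pi.single_eq_same]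
      congr 1
      refine Finset.prod_congr rfl fun j hj => ?_
      rw [Pi.single_eq_of_ne (Finset.ne_of_mem_erase hj), FT, FB_zero Subtype.val_injective]
    have h2 : ∀ x, ∏ j, apow ((Pi.single i (2 * ν i) : D → ℝ) j / 2) (sq blk j (symMat x)).det
        = apow (ν i) (sq blk i (symMat x)).det := by
      intro x
      rw [Finset.prod_eq_single i (fun j _ hj => by simp [Pi.single_eq_of_ne hj]) (by simp)]
      simp
    have h3 : ∏ j, dmom {a // blk a = j} ((Pi.single i (2 * ν i) : D → ℝ) j)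
        = dmom {a // blk a = i} (2 * ν i) := by
      rw [Finset.prod_eq_single i (fun j _ hj => by simp [Pi.single_eq_of_ne hj]) (by simp)]
      simp
    simp_rw [h1, h2, h3] at h
    rw [lintegral_const_mul _ (measurable_FB _ _ _ _ _),
      ← Finset.prod_erase_mul _ _ (Finset.mem_univ i), mul_assoc] at h
    exact (ENNReal.mul_right_inj (Finset.prod_ne_zero_iff.2 fun j _ => hc0 j)
      (ENNReal.prod_ne_top fun j _ => hct j)).1 h
  have h := FT_decouple blk α Q (s := fun i => 2 * ν i) fun i => by linarith [hν i]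
  rw [hid] at h
  simp only [hone, Finset.prod_mul_distrib, mul_div_cancel_left₀ _ (two_ne_zero (α := ℝ))] at h
  rwa [ENNReal.mul_le_mul_iff_right (Finset.prod_ne_zero_iff.2 fun j _ => hc0 j)
    (ENNReal.prod_ne_top fun j _ => hct j), ENNReal.mul_le_mul_iff_right
    (Finset.prod_ne_zero_iff.2 fun j _ => dmom_ne_zero _)
    (ENNReal.prod_ne_top fun j _ => dmom_ne_top (by linarith [hν j]))] at h

end

end Pool.Agent.Lib.MP_9d9c13_pr
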