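import Pool.Agent.Lib.MP_9d9c13_pr.Decouple

/-!
Gaussian matrices in flat coordinates, rank one splittings.
-/

open MeasureTheory ProbabilityTheory Matrix Set Filter Topology
open scoped ENNReal NNReal

namespace Pool.Agent.Lib.MP_9d9c13_pr

noncomputable section

/-- the matrix with given flat coordinates -/
def mat {m n : Type} (x : m × n → ℝ) : Matrix m n ℝ := Matrix.of fun a b => x (a, b)

/-- the flat coordinates of a matrix -/
def vec {m n : Type} (M : Matrix m n ℝ) : m × n → ℝ := fun q => M q.1 q.2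

@[simp] lemma mat_apply {m n : Type} (x : m × n → ℝ) (a : m) (b : n) : mat x a b = x (a, b) := rfl

@[simp] lemma vec_apply {m n : Type} (M : Matrix m n ℝ) (q : m × n) : vec M q = M q.1 q.2 := rfl

@[simp] lemma mat_vec {m n : Type} (M : Matrix m n ℝ) : mat (vec M) = M := rfl

@[simp] lemma vec_mat {m n : Type} (x : m × n → ℝ) : vec (mat x) = x := rfl

@[fun_prop]
lemma continuous_mat {m n : Type} : Continuous (mat : (m × n → ℝ) → Matrix m n ℝ) :=
  continuous_matrix fun a b => continuous_apply (a, b)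

@[fun_prop]
lemma continuous_vec {m n : Type} : Continuous (vec : Matrix m n ℝ → (m × n → ℝ)) :=
  continuous_pi fun q => continuous_id.matrix_elem q.1 q.2

variable {m n : Type} [Fintype m] [Fintype n]

lemma vec_dot_vec (A B : Matrix m n ℝ) : vec A ⬝ᵥ vec B = (Aᵀ * B).trace := by
  simp only [dotProduct, vec, Fintype.sum_prod_type_right, trace, diag, mul_apply, transpose_apply]

lemma dot_eq_trace (x y : m × n → ℝ) : x ⬝ᵥ y = ((mat x)ᵀ * mat y).trace :=
  vec_dot_vec (mat x) (mat y)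

/-- `det (A + t rᵀ)` is a linear function of `r` when `A` is singular -/
lemma isLinear_det_add [DecidableEq m] {A : Matrix m m ℝ} (hA : A.det = 0) (t : m → ℝ) :
    IsLinearMap ℝ fun r : m → ℝ => (A + vecMulVec t r).det := by
  set M : Matrix (m ⊕ Unit) (m ⊕ Unit) ℝ := fromBlocks A (replicateCol Unit t) 0 1 with hM
  have h1 : ∀ r : m → ℝ, (A + vecMulVec t r).det
      = (M.updateRow (Sum.inr ()) (Sum.elim (-r) 0)).det := by
    intro r
    have h2 : (A + vecMulVec t r).det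
        = (fromBlocks A (replicateCol Unit t) (replicateRow Unit (-r)) 1).det := by
      rw [det_fromBlocks_one₂₂, ← vecMulVec_eq Unit]
      congr 1; ext a b; simp [vecMulVec_apply]
    have h3 : fromBlocks A (replicateCol Unit t) (replicateRow Unit (-r)) 1
        = M.updateRow (Sum.inr ()) (Sum.elim (-r) 0 + Sum.elim (0 : m → ℝ) (1 : Unit → ℝ)) := by
      ext (a | a) (b | b) <;> simp [hM, updateRow_apply]
    have h4 : M.updateRow (Sum.inr ()) (Sum.elim (0 : m → ℝ) (1 : Unit → ℝ)) = M := by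
      ext (a | a) (b | b) <;> simp [hM, updateRow_apply]
    rw [h2, h3, det_updateRow_add, h4, hM, det_fromBlocks_zero₂₁, hA]; simp
  simp_rw [h1]
  constructor
  · intro x y
    rw [← det_updateRow_add]
    congr 2; ext (a | a) <;> simp [add_comm]
  · intro c x
    rw [smul_eq_mul, ← det_updateRow_smul]
    congr 2; ext (a | a) <;> simp

lemma det_eq_zero_of_vecMul [DecidableEq m] {A : Matrix m m ℝ} {t : m → ℝ} (ht : t ⬝ᵥ t = 1)
    (h : t ᵥ* A = 0) : A.det = 0 :=
  exists_vecMul_eq_zero_iff.1 ⟨t, by rintro rfl; simp at ht, h⟩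

lemma det_eq_zero_of_mulVec [DecidableEq m] {A : Matrix m m ℝ} {t : m → ℝ} (ht : t ⬝ᵥ t = 1)
    (h : A *ᵥ t = 0) : A.det = 0 :=
  exists_mulVec_eq_zero_iff.1 ⟨t, by rintro rfl; simp at ht, h⟩

lemma exists_unit_smul [Nonempty m] (v : m → ℝ) : ∃ (t : m → ℝ) (ρ : ℝ), t ⬝ᵥ t = 1 ∧ v = ρ • t := by
  classical
  by_cases hv : v = 0
  · exact ⟨Pi.single (Classical.arbitrary m) 1, 0, by simp, by simp [hv]⟩
  have hpos : 0 < v ⬝ᵥ v :=
    lt_of_le_of_ne (dot_self_nonneg v) fun h => hv (dotProduct_self_eq_zero.1 h.symm)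
  have hs : √(v ⬝ᵥ v) ≠ 0 := (Real.sqrt_pos.2 hpos).ne'
  refine ⟨(√(v ⬝ᵥ v))⁻¹ • v, √(v ⬝ᵥ v), ?_, by rw [smul_smul, mul_inv_cancel₀ hs, one_smul]⟩
  rw [smul_dotProduct, dotProduct_smul, smul_eq_mul, smul_eq_mul]
  field_simp
  rw [Real.sq_sqrt hpos.le]

lemma exists_unit_mulVec [DecidableEq m] {A : Matrix m m ℝ} (hA : A.det = 0) :
    ∃ t : m → ℝ, t ⬝ᵥ t = 1 ∧ A *ᵥ t = 0 := by
  obtain ⟨v, hv, h⟩ := exists_mulVec_eq_zero_iff.2 hA
  have : Nonempty m := by
    by_contra hne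
    rw [not_nonempty_iff] at hne
    exact hv (Subsingleton.elim _ _)
  obtain ⟨t, ρ, ht, rfl⟩ := exists_unit_smul v
  refine ⟨t, ht, ?_⟩
  rw [mulVec_smul, smul_eq_zero] at h
  exact h.resolve_left fun h0 => hv (by simp [h0])

/-- projection of the columns orthogonally to `t` -/
def prj (t : m → ℝ) (Y : Matrix m n ℝ) : Matrix m n ℝ := Y - vecMulVec t (t ᵥ* Y)

omit [Fintype n] in
lemma vecMul_prj {t : m → ℝ} (ht : t ⬝ᵥ t = 1) (Y : Matrix m n ℝ) : t ᵥ* prj t Y = 0 := by
  rw [prj, vecMul_sub, vecMul_vecMulVec, ht, one_smul, sub_self]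

omit [Fintype n] in
@[fun_prop]
lemma continuous_prj (t : m → ℝ) : Continuous (prj t : Matrix m n ℝ → Matrix m n ℝ) := by
  unfold prj; fun_prop

lemma vec_dot_vecMulVec (X : Matrix m n ℝ) (t : m → ℝ) (r : n → ℝ) :
    vec X ⬝ᵥ vec (vecMulVec t r) = (t ᵥ* X) ⬝ᵥ r := by
  simp only [dotProduct, vec, Fintype.sum_prod_type_right, vecMulVec_apply, vecMul, Finset.sum_mul]
  exact Finset.sum_congr rfl fun k _ => Finset.sum_congr rfl fun a _ => by ring

omit [Fintype m] [Fintype n] in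
lemma vec_add (A B : Matrix m n ℝ) : vec (A + B) = vec A + vec B := rfl

omit [Fintype m] [Fintype n] in
lemma vec_sub (A B : Matrix m n ℝ) : vec (A - B) = vec A - vec B := rfl

lemma mp_row {t : m → ℝ} (ht : t ⬝ᵥ t = 1) :
    MeasurePreserving (fun p : (m × n → ℝ) × (n → ℝ) => vec (prj t (mat p.1) + vecMulVec t p.2))
      ((gam (m × n)).prod (gam n)) (gam (m × n)) := by
  refine mp2 (Continuous.measurable (by fun_prop)) fun θ =>
    ⟨vec (prj t (mat θ)), t ᵥ* mat θ, fun x y => ?_, ?_⟩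
  · conv_lhs => rw [← vec_mat θ]
    conv_rhs => rw [← vec_mat x]
    simp only [prj, vec_add, vec_sub, dotProduct_add, dotProduct_sub, sub_dotProduct,
      vec_dot_vecMulVec, dotProduct_comm (vec (vecMulVec _ _)) (vec (mat x)),
      dotProduct_comm (t ᵥ* mat x)]
  · conv_rhs => rw [← vec_mat θ]
    simp only [prj, vec_sub, dotProduct_sub, sub_dotProduct,
      vec_dot_vecMulVec, dotProduct_comm (vec (vecMulVec _ _)) (vec (mat θ)),
      vecMul_vecMulVec, ht, one_smul]
    ring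

lemma mp_vec {t : m → ℝ} (ht : t ⬝ᵥ t = 1) :
    MeasurePreserving (fun p : (Unit → ℝ) × (m → ℝ) => p.2 - (t ⬝ᵥ p.2) • t + p.1 () • t)
      ((gam Unit).prod (gam m)) (gam m) := by
  refine mp2 (by fun_prop) fun θ => ⟨fun _ => t ⬝ᵥ θ, θ - (t ⬝ᵥ θ) • t, fun x y => ?_, ?_⟩
  · simp only [dotProduct_add, dotProduct_sub, sub_dotProduct, dotProduct_smul, smul_dotProduct,
      smul_eq_mul, dotProduct_comm θ t]
    simp [dotProduct]; ring
  · simp only [dotProduct_sub, sub_dotProduct, dotProduct_smul, smul_dotProduct,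
      smul_eq_mul, dotProduct_comm θ t, ht]
    simp [dotProduct]

/-- Reduction to the rank one part attached to one column. -/
lemma allowed_reduce [Nonempty m] [DecidableEq n] {W : Type} [Fintype W] (k : n)
    (Ψ : Matrix m n ℝ → (W → ℝ) → ℝ≥0∞)
    (hΨ : Measurable fun q : (m × n → ℝ) × (W → ℝ) => Ψ (mat q.1) q.2)
    (h : ∀ (t : m → ℝ) (ρ : ℝ) (A : Matrix m n ℝ), t ⬝ᵥ t = 1 → t ᵥ* A = 0 → (∀ a, A a k = 0) →
      Allowed fun w => ∫⁻ r, Ψ (A + vecMulVec t (Function.update r k ρ)) w ∂gam n) :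
    Allowed fun w => ∫⁻ x, Ψ (mat x) w ∂gam (m × n) := by
  have hm1 : Measurable fun q : ((m × n → ℝ) × (W → ℝ)) × (m × n → ℝ) =>
      Ψ (mat (pw (fun q : m × n => q.2 ≠ k) q.2 q.1.1)) q.1.2 :=
    hΨ.comp (f := fun q : ((m × n → ℝ) × (W → ℝ)) × (m × n → ℝ) =>
      (pw (fun q : m × n => q.2 ≠ k) q.2 q.1.1, q.1.2)) (by fun_prop)
  refine (Allowed.mix' (gam (m × n)) (F := fun x w =>
    ∫⁻ y, Ψ (mat (pw (fun q : m × n => q.2 ≠ k) y x)) w ∂gam (m × n))
    hm1.lintegral_prod_right' fun x => ?_).congr fun w =>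
      lintegral_pw _ (g := fun x => Ψ (mat x) w) (hΨ.comp (measurable_id.prodMk measurable_const))
  obtain ⟨t, ρ, ht, hρ⟩ := exists_unit_smul fun a => x (a, k)
  have hmp := mp_row (n := n) ht
  have hm2 : Measurable fun q : ((m × n → ℝ) × (W → ℝ)) × (n → ℝ) =>
      Ψ (mat (pw (fun q : m × n => q.2 ≠ k) (vec (prj t (mat q.1.1) + vecMulVec t q.2)) x)) q.1.2 :=
    hΨ.comp (f := fun q : ((m × n → ℝ) × (W → ℝ)) × (n → ℝ) =>
      (pw (fun q : m × n => q.2 ≠ k) (vec (prj t (mat q.1.1) + vecMulVec t q.2)) x, q.1.2))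
      ((measurable_pw _ (hmp.measurable.comp (f := fun q : ((m × n → ℝ) × (W → ℝ)) × (n → ℝ) =>
        (q.1.1, q.2)) (by fun_prop)) measurable_const).prodMk (by fun_prop))
  refine (Allowed.mix' (gam (m × n)) (F := fun y w => ∫⁻ r, Ψ (mat (pw (fun q : m × n => q.2 ≠ k)
    (vec (prj t (mat y) + vecMulVec t r)) x)) w ∂gam n)
    hm2.lintegral_prod_right' fun y => ?_).congr fun w =>
      lintegral_split hmp (g := fun y => Ψ (mat (pw (fun q : m × n => q.2 ≠ k) y x)) w)
        (hΨ.comp (f := fun y => (pw (fun q : m × n => q.2 ≠ k) y x, w)) (by fun_prop))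
  refine (h t ρ (Matrix.of fun a k' => if k' = k then 0 else prj t (mat y) a k') ht ?_
    (by simp)).congr fun w => lintegral_congr fun r => ?_
  · ext k'
    have := congrFun (vecMul_prj ht (mat y)) k'
    by_cases hk : k' = k
    · simp [vecMul, dotProduct, hk]
    · simpa [vecMul, dotProduct, hk] using this
  · congr 1
    ext a k'
    have := congrFun hρ a
    by_cases hk : k' = k
    · subst hk
      simp only [Pi.smul_apply, smul_eq_mul] at this
      simp [pw, vecMulVec_apply, this, mul_comm]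
    · simp [pw, vecMulVec_apply, hk]

end

end Pool.Agent.Lib.MP_9d9c13_pr
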