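import Pool.Agent.Lib.MP_9d9c13_pr.Gauss

/-!
Moments of linear functionals, the density of the Gaussian measure and linear changes of variables.
-/

open MeasureTheory ProbabilityTheory Matrix Set
open scoped ENNReal NNReal

namespace Pool.Agent.Lib.MP_9d9c13_pr

noncomputable section

variable {ι κ η : Type*} [Fintype ι] [Fintype κ] [Fintype η]

lemma integrable_abs_rpow_mul_exp {b : ℝ} (hb : 0 < b) {s : ℝ} (hs : -1 < s) :
    Integrable fun x : ℝ => |x| ^ s * Real.exp (-b * x ^ 2) := by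
  have h0 : IntegrableOn (fun x : ℝ => |x| ^ s * Real.exp (-b * x ^ 2)) (Ioi 0) := by
    refine (integrableOn_rpow_mul_exp_neg_mul_sq hb hs).congr_fun (fun x hx => ?_) measurableSet_Ioi
    simp only [abs_of_pos (mem_Ioi.1 hx)]
  rw [← integrableOn_univ, ← @Iio_union_Ici _ _ (0 : ℝ), integrableOn_union,
    integrableOn_Ici_iff_integrableOn_Ioi]
  refine ⟨?_, h0⟩
  rw [← (Measure.measurePreserving_neg (volume : Measure ℝ)).integrableOn_comp_preimage
      (Homeomorph.neg ℝ).measurableEmbedding]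
  simpa only [Function.comp_def, neg_sq, neg_preimage, neg_Iio, neg_zero, abs_neg] using h0

lemma integrable_abs_rpow_gaussianReal {s : ℝ} (hs : -1 < s) :
    Integrable (fun x : ℝ => |x| ^ s) (gaussianReal 0 1) := by
  rw [gaussianReal_of_var_ne_zero _ one_ne_zero,
    integrable_withDensity_iff (measurable_gaussianPDF _ _) (ae_of_all _ fun _ => gaussianPDF_lt_top)]
  simp_rw [toReal_gaussianPDF, gaussianPDFReal]
  have := (integrable_abs_rpow_mul_exp (b := 1 / 2) (by norm_num) hs).const_mul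
    (√(2 * Real.pi * ((1 : ℝ≥0) : ℝ)))⁻¹
  refine this.congr (ae_of_all _ fun x => ?_)
  simp only [NNReal.coe_one, sub_zero, mul_one]
  rw [show -x ^ 2 / 2 = -(1 / 2) * x ^ 2 by ring]; ring

lemma integrable_abs_dot_rpow (a : ι → ℝ) {s : ℝ} (hs : -1 < s) :
    Integrable (fun x => |a ⬝ᵥ x| ^ s) (gam ι) := by
  have hm : Measurable (fun y : ℝ => |y| ^ s) := by fun_prop
  have h1 : Integrable (fun y : ℝ => |y| ^ s) ((gam ι).map fun x => a ⬝ᵥ x) := by
    rw [map_dot', integrable_map_measure hm.aestronglyMeasurable (by fun_prop)]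
    have := (integrable_abs_rpow_gaussianReal hs).const_mul (|√(a ⬝ᵥ a)| ^ s)
    refine this.congr (ae_of_all _ fun x => ?_)
    simp only [Function.comp, abs_mul]
    rw [Real.mul_rpow (abs_nonneg _) (abs_nonneg _)]
  exact (integrable_map_measure hm.aestronglyMeasurable (measurable_dot a).aemeasurable).1 h1

lemma integrable_dot (a : ι → ℝ) : Integrable (fun x => a ⬝ᵥ x) (gam ι) := by
  have := integrable_abs_dot_rpow a (s := 1) (by norm_num)
  simp only [Real.rpow_one] at this
  exact (integrable_norm_iff (measurable_dot a).aestronglyMeasurable).1 this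

lemma integrable_dot_sq (a : ι → ℝ) : Integrable (fun x => (a ⬝ᵥ x) ^ 2) (gam ι) := by
  have := integrable_abs_dot_rpow a (s := 2) (by norm_num)
  simpa only [Real.rpow_two, sq_abs] using this

/-- the power `|x| ^ s` with values in `[0, ∞]` -/
def apow (s x : ℝ) : ℝ≥0∞ := ENNReal.ofReal |x| ^ s

@[fun_prop]
lemma measurable_apow {A : Type*} [MeasurableSpace A] (s : ℝ) {f : A → ℝ} (hf : Measurable f) :
    Measurable fun a => apow s (f a) := by
  unfold apow; fun_prop

lemma apow_mul (s x y : ℝ) : apow s (x * y) = apow s x * apow s y := by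
  unfold apow
  rw [abs_mul, ENNReal.ofReal_mul (abs_nonneg _),
    ENNReal.mul_rpow_of_ne_top ENNReal.ofReal_ne_top ENNReal.ofReal_ne_top]

@[simp] lemma apow_zero (x : ℝ) : apow 0 x = 1 := by simp [apow]

@[simp] lemma apow_one (s : ℝ) : apow s 1 = 1 := by simp [apow]

lemma apow_eq_ofReal {s x : ℝ} (h : x ≠ 0 ∨ 0 ≤ s) : apow s x = ENNReal.ofReal (|x| ^ s) := by
  unfold apow
  rcases h with h | h
  · exact ENNReal.ofReal_rpow_of_pos (abs_pos.2 h)
  · exact ENNReal.ofReal_rpow_of_nonneg (abs_nonneg _) h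

lemma apow_prod {D : Type*} (t : Finset D) (s : ℝ) (f : D → ℝ) :
    apow s (∏ i ∈ t, f i) = ∏ i ∈ t, apow s (f i) := by
  classical
  induction t using Finset.induction_on with
  | empty => simp
  | insert a t ha ih => rw [Finset.prod_insert ha, Finset.prod_insert ha, apow_mul, ih]

/-- the absolute moment of the standard normal law -/
def gmom (s : ℝ) : ℝ≥0∞ := ∫⁻ g, apow s g ∂gaussianReal 0 1

lemma gmom_lt_top {s : ℝ} (hs : -1 < s) : gmom s < ⊤ := by
  have h := (integrable_abs_rpow_gaussianReal hs).lintegral_lt_top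
  have := nullSingletonClass_gaussianReal (μ := 0) (v := 1) one_ne_zero
  have hae : ∀ᵐ g ∂gaussianReal 0 1, g ≠ 0 := by
    rw [ae_iff]; simp
  unfold gmom
  rwa [lintegral_congr_ae (g := fun x => ENNReal.ofReal (|x| ^ s))]
  filter_upwards [hae] with g hg using apow_eq_ofReal (Or.inl hg)

lemma lintegral_apow_dot (a : ι → ℝ) (s : ℝ) :
    ∫⁻ x, apow s (a ⬝ᵥ x) ∂gam ι = apow s (√(a ⬝ᵥ a)) * gmom s := by
  rw [lintegral_dot a (f := apow s) (by fun_prop)]
  simp_rw [apow_mul]
  rw [lintegral_const_mul _ (by fun_prop)]; rfl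

/-- the density of the standard Gaussian measure -/
lemma gam_eq_withDensity : gam ι = (volume : Measure (ι → ℝ)).withDensity
    fun x => ENNReal.ofReal (∏ i, gaussianPDFReal 0 1 (x i)) := by
  refine Measure.pi_eq fun s hs => ?_
  rw [withDensity_apply _ (MeasurableSet.univ_pi hs), ← lintegral_indicator (MeasurableSet.univ_pi hs)]
  have h1 : ∀ x : ι → ℝ, (univ.pi s).indicator
      (fun x => ENNReal.ofReal (∏ i, gaussianPDFReal 0 1 (x i))) x
      = ENNReal.ofReal (∏ i, (s i).indicator (gaussianPDFReal 0 1) (x i)) := by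
    intro x
    by_cases hx : x ∈ univ.pi s
    · rw [indicator_of_mem hx]
      congr 1
      exact Finset.prod_congr rfl fun i _ => (indicator_of_mem (hx i (mem_univ i)) _).symm
    · rw [indicator_of_notMem hx]
      obtain ⟨i, hi⟩ : ∃ i, x i ∉ s i := by simpa [mem_pi] using hx
      rw [Finset.prod_eq_zero (Finset.mem_univ i) (indicator_of_notMem hi _)]; simp
  simp_rw [h1]
  have hint : ∀ i, Integrable ((s i).indicator (gaussianPDFReal 0 1)) volume := fun i =>
    (integrable_gaussianPDFReal 0 1).indicator (hs i)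
  have hnn : ∀ i y, 0 ≤ (s i).indicator (gaussianPDFReal 0 1) y := fun i y =>
    indicator_nonneg (fun y _ => gaussianPDFReal_nonneg 0 1 y) y
  rw [volume_pi, ← ofReal_integral_eq_lintegral_ofReal (Integrable.fintype_prod hint)
    (ae_of_all _ fun x => Finset.prod_nonneg fun i _ => hnn i _)]
  rw [integral_fintype_prod_eq_prod, ENNReal.ofReal_prod_of_nonneg
    fun i _ => integral_nonneg (hnn i)]
  refine Finset.prod_congr rfl fun i _ => ?_
  rw [integral_indicator (hs i), gaussianReal_apply_eq_integral _ one_ne_zero]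

lemma prod_gaussianPDFReal (x : ι → ℝ) : ∏ i, gaussianPDFReal 0 1 (x i)
    = (√(2 * Real.pi))⁻¹ ^ Fintype.card ι * Real.exp (-(x ⬝ᵥ x) / 2) := by
  simp only [gaussianPDFReal, NNReal.coe_one, mul_one, sub_zero]
  rw [Finset.prod_mul_distrib, Finset.prod_const, Finset.card_univ, ← Real.exp_sum]
  congr 2
  rw [dotProduct, neg_div, Finset.sum_div, ← Finset.sum_neg_distrib]
  refine Finset.sum_congr rfl fun i _ => by ring

/-- linear change of variables in Gaussian integrals -/
lemma lintegral_mulVec [DecidableEq ι] {L : Matrix ι ι ℝ} (hL : L.det ≠ 0)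
    {g : (ι → ℝ) → ℝ≥0∞} (hg : Measurable g) :
    ∫⁻ x, g (L *ᵥ x) * ENNReal.ofReal (Real.exp (-((L *ᵥ x) ⬝ᵥ (L *ᵥ x) - x ⬝ᵥ x) / 2)) ∂gam ι
      = ENNReal.ofReal |L.det⁻¹| * ∫⁻ x, g x ∂gam ι := by
  have hLm : Measurable fun x : ι → ℝ => L *ᵥ x := (Matrix.toLin' L).continuous_of_finiteDimensional.measurable
  set ρ : (ι → ℝ) → ℝ≥0∞ := fun x => ENNReal.ofReal (∏ i, gaussianPDFReal 0 1 (x i)) with hρ
  have hρm : Measurable ρ := by
    refine ENNReal.measurable_ofReal.comp (Finset.measurable_prod _ fun i _ => ?_)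
    exact (measurable_gaussianPDFReal 0 1).comp (measurable_pi_apply i)
  have hdm : Measurable fun x : ι → ℝ => x ⬝ᵥ x := by unfold dotProduct; fun_prop
  have hEm : Measurable fun x : ι → ℝ =>
      ENNReal.ofReal (Real.exp (-((L *ᵥ x) ⬝ᵥ (L *ᵥ x) - x ⬝ᵥ x) / 2)) :=
    ENNReal.measurable_ofReal.comp (Real.measurable_exp.comp
      ((((hdm.comp hLm).sub hdm).neg).div_const 2))
  have hm2 : Measurable fun x : ι → ℝ => g (L *ᵥ x) *
      ENNReal.ofReal (Real.exp (-((L *ᵥ x) ⬝ᵥ (L *ᵥ x) - x ⬝ᵥ x) / 2)) := (hg.comp hLm).mul hEm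
  rw [gam_eq_withDensity, lintegral_withDensity_eq_lintegral_mul _ hρm hm2,
    lintegral_withDensity_eq_lintegral_mul _ hρm hg]
  have h2 := lintegral_map (μ := (volume : Measure (ι → ℝ))) (hρm.mul hg) hLm
  have h3 : Measure.map (fun x : ι → ℝ => L *ᵥ x) volume
      = ENNReal.ofReal |L.det⁻¹| • (volume : Measure (ι → ℝ)) :=
    Real.map_matrix_volume_pi_eq_smul_volume_pi hL
  rw [h3, lintegral_smul_measure, smul_eq_mul] at h2
  refine Eq.trans ?_ h2.symm
  refine lintegral_congr fun x => ?_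
  simp only [Pi.mul_apply, hρ, prod_gaussianPDFReal]
  rw [mul_comm (g _), ← mul_assoc, ← ENNReal.ofReal_mul (by positivity), mul_assoc, ← Real.exp_add]
  congr 4; ring

end

end Pool.Agent.Lib.MP_9d9c13_pr
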