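import Pool.Agent.Lib.MP_9d9c13_pr.Moments

/-!
The rotation lemma: for two independent copies `x, y` of a Gaussian vector, the variable
`∑ c j * ⟨B j, y⟩ / ⟨B j, x⟩` is Cauchy, conditionally on all rotation invariant data.
-/

open MeasureTheory ProbabilityTheory Matrix Set Complex Filter Topology
open scoped ENNReal NNReal ComplexConjugate

namespace Pool.Agent.Lib.MP_9d9c13_pr

noncomputable section

variable {ι D : Type*} [Fintype ι] [Fintype D]

/-- complex coordinate of a pair of vectors -/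
def cx (b : ι → ℝ) (p : (ι → ℝ) × (ι → ℝ)) : ℂ := (b ⬝ᵥ p.1 : ℝ) + (b ⬝ᵥ p.2 : ℝ) * I

@[fun_prop]
lemma measurable_cx (b : ι → ℝ) : Measurable (cx b) := by
  unfold cx; fun_prop

lemma cx_re (b : ι → ℝ) (p : (ι → ℝ) × (ι → ℝ)) : (cx b p).re = b ⬝ᵥ p.1 := by simp [cx]

lemma cx_im (b : ι → ℝ) (p : (ι → ℝ) × (ι → ℝ)) : (cx b p).im = b ⬝ᵥ p.2 := by simp [cx]

lemma cx_rot (b : ι → ℝ) (θ : ℝ) (p : (ι → ℝ) × (ι → ℝ)) :
    cx b (rot θ p) = ei θ * cx b p := by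
  simp only [cx, rot, ei, dotProduct_sub, dotProduct_add, dotProduct_smul, smul_eq_mul,
    Complex.exp_mul_I]
  push_cast
  linear_combination (-Complex.sin θ * ((b ⬝ᵥ p.2 : ℝ) : ℂ)) * I_sq

lemma ei_ne_zero (θ : ℝ) : ei θ ≠ 0 := Complex.exp_ne_zero _

/-- the squared direction of the complex coordinate -/
def om (b : ι → ℝ) (p : (ι → ℝ) × (ι → ℝ)) : ℂ := cx b p / conj (cx b p)

@[fun_prop]
lemma measurable_om (b : ι → ℝ) : Measurable (om b) := by
  unfold om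
  exact (measurable_cx b).div (continuous_conj.measurable.comp (measurable_cx b))

lemma om_rot (b : ι → ℝ) (θ : ℝ) (p : (ι → ℝ) × (ι → ℝ)) :
    om b (rot (θ / 2) p) = ei θ * om b p := by
  have h1 : conj (ei (θ / 2)) = (ei (θ / 2))⁻¹ := by
    simp only [ei]; rw [← Complex.exp_conj, ← Complex.exp_neg, map_mul, conj_ofReal, conj_I, mul_neg]
  have h2 : ei θ = ei (θ / 2) * ei (θ / 2) := by rw [← ei_add]; simp
  simp only [om, cx_rot, map_mul, h1]
  rw [h2]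
  have := ei_ne_zero (θ / 2)
  field_simp

lemma norm_om_le (b : ι → ℝ) (p : (ι → ℝ) × (ι → ℝ)) : ‖om b p‖ ≤ 1 := by
  simp only [om, norm_div, Complex.norm_conj]
  exact div_self_le_one _

/-- the holomorphic family of bounded functions -/
def Phi (B : D → ι → ℝ) (c : D → ℝ) (ζ : ℂ) (p : (ι → ℝ) × (ι → ℝ)) : ℂ :=
  Complex.exp (-∑ j, (c j : ℂ) * ((1 - ζ * om (B j) p) / (1 + ζ * om (B j) p)))

lemma re_mob_nonneg {z : ℂ} (hz : ‖z‖ ≤ 1) : 0 ≤ ((1 - z) / (1 + z)).re := by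
  rw [Complex.div_re, ← add_div]
  refine div_nonneg ?_ (normSq_nonneg _)
  have h : z.re ^ 2 + z.im ^ 2 ≤ 1 := by
    have h1 : ‖z‖ ^ 2 ≤ 1 := by nlinarith [norm_nonneg z]
    rw [Complex.sq_norm, normSq_apply] at h1
    nlinarith
  simp only [sub_re, one_re, add_re, sub_im, one_im, add_im]
  nlinarith

lemma norm_Phi_le (B : D → ι → ℝ) {c : D → ℝ} (hc : ∀ j, 0 ≤ c j) {ζ : ℂ} (hζ : ‖ζ‖ ≤ 1)
    (p : (ι → ℝ) × (ι → ℝ)) : ‖Phi B c ζ p‖ ≤ 1 := by
  rw [Phi, Complex.norm_exp, Real.exp_le_one_iff, neg_re, re_sum, neg_nonpos]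
  refine Finset.sum_nonneg fun j _ => ?_
  rw [re_ofReal_mul]
  refine mul_nonneg (hc j) (re_mob_nonneg ?_)
  rw [norm_mul]
  exact mul_le_one₀ hζ (norm_nonneg _) (norm_om_le _ _)

@[fun_prop]
lemma measurable_Phi {A : Type*} [MeasurableSpace A] (B : D → ι → ℝ) (c : D → ℝ)
    {ζ : A → ℂ} {p : A → (ι → ℝ) × (ι → ℝ)} (hζ : Measurable ζ) (hp : Measurable p) :
    Measurable fun a => Phi B c (ζ a) (p a) := by
  unfold Phi; fun_prop

lemma Phi_rot (B : D → ι → ℝ) (c : D → ℝ) (r θ : ℝ) (p : (ι → ℝ) × (ι → ℝ)) :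
    Phi B c r (rot (θ / 2) p) = Phi B c (circleMap 0 r θ) p := by
  simp only [Phi, om_rot, circleMap, zero_add, mul_assoc]

lemma one_add_ne_zero {z : ℂ} (hz : ‖z‖ < 1) : 1 + z ≠ 0 := by
  intro h
  have : z = -1 := by linear_combination h
  rw [this] at hz; simp at hz

lemma circleAverage_Phi (B : D → ι → ℝ) (c : D → ℝ) {r : ℝ} (hr : |r| < 1)
    (p : (ι → ℝ) × (ι → ℝ)) :
    Real.circleAverage (fun ζ => Phi B c ζ p) 0 r = (Real.exp (-∑ j, c j) : ℝ) := by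
  have hd : ∀ z ∈ Metric.closedBall (0 : ℂ) |r|, DifferentiableAt ℂ (fun ζ => Phi B c ζ p) z := by
    intro z hz
    have hz1 : ‖z‖ < 1 := lt_of_le_of_lt (by simpa using hz) hr
    have hne : ∀ j, 1 + z * om (B j) p ≠ 0 := fun j => one_add_ne_zero (by
      rw [norm_mul]
      exact lt_of_le_of_lt (mul_le_of_le_one_right (norm_nonneg _) (norm_om_le _ _)) hz1)
    unfold Phi
    refine DifferentiableAt.cexp (DifferentiableAt.neg (DifferentiableAt.fun_sum fun j _ => ?_))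
    have := hne j
    fun_prop (disch := assumption)
  rw [circleAverage_of_differentiable_on_off_countable (s := ∅) countable_empty
    (fun z hz => (hd z hz).continuousAt.continuousWithinAt)
    (fun z hz => hd z (Metric.ball_subset_closedBall hz.1))]
  simp [Phi]

/-- the vector `∑ c j / ⟨B j, x⟩ • B j` -/
def Vc (B : D → ι → ℝ) (c : D → ℝ) (x : ι → ℝ) : ι → ℝ := ∑ j, (c j / (B j ⬝ᵥ x)) • B j

@[fun_prop]
lemma measurable_Vc {A : Type*} [MeasurableSpace A] (B : D → ι → ℝ) {c : A → D → ℝ}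
    {x : A → ι → ℝ} (hc : Measurable c) (hx : Measurable x) :
    Measurable fun a => Vc B (c a) (x a) := by
  unfold Vc
  refine Finset.measurable_sum _ fun j _ => ?_
  fun_prop

lemma Vc_dot (B : D → ι → ℝ) (c : D → ℝ) (x y : ι → ℝ) :
    Vc B c x ⬝ᵥ y = ∑ j, c j * (B j ⬝ᵥ y / B j ⬝ᵥ x) := by
  simp only [Vc, sum_dotProduct, smul_dotProduct, smul_eq_mul]
  exact Finset.sum_congr rfl fun j _ => by ring

lemma one_add_om_ne_zero {b : ι → ℝ} {p : (ι → ℝ) × (ι → ℝ)} (h : b ⬝ᵥ p.1 ≠ 0) :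
    1 + om b p ≠ 0 ∧ (1 - om b p) / (1 + om b p) = -(((b ⬝ᵥ p.2 / b ⬝ᵥ p.1 : ℝ) : ℂ) * I) := by
  have hX : ((b ⬝ᵥ p.1 : ℝ) : ℂ) ≠ 0 := by exact_mod_cast h
  have hc : conj (cx b p) ≠ 0 := by
    intro h0
    have := congrArg Complex.re h0
    simp [cx_re] at this
    exact h this
  have hconj : conj (cx b p) = (b ⬝ᵥ p.1 : ℝ) - (b ⬝ᵥ p.2 : ℝ) * I := by
    simp [cx, sub_eq_add_neg]
  have h1 : 1 + om b p = 2 * (b ⬝ᵥ p.1 : ℝ) / conj (cx b p) := by
    rw [om, eq_div_iff hc, add_mul, div_mul_cancel₀ _ hc, hconj, cx]; ring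
  have h2 : 1 - om b p = -2 * (b ⬝ᵥ p.2 : ℝ) * I / conj (cx b p) := by
    rw [om, eq_div_iff hc, sub_mul, div_mul_cancel₀ _ hc, hconj, cx]; ring
  refine ⟨by rw [h1]; exact div_ne_zero (mul_ne_zero two_ne_zero hX) hc, ?_⟩
  rw [h1, h2]
  push_cast
  field_simp

lemma Phi_one (B : D → ι → ℝ) (c : D → ℝ) {p : (ι → ℝ) × (ι → ℝ)} (h : ∀ j, B j ⬝ᵥ p.1 ≠ 0) :
    Phi B c 1 p = ei (Vc B c p.1 ⬝ᵥ p.2) := by
  rw [Phi, Vc_dot, ei]
  congr 1
  simp only [one_mul, fun j => (one_add_om_ne_zero (h j)).2]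
  push_cast
  rw [← Finset.sum_neg_distrib, Finset.sum_mul]
  exact Finset.sum_congr rfl fun j _ => by ring

lemma ae_all_ne_zero {B : D → ι → ℝ} (hB : ∀ j, B j ⬝ᵥ B j ≠ 0) :
    ∀ᵐ x ∂gam ι, ∀ j, B j ⬝ᵥ x ≠ 0 := ae_all_iff.2 fun j => ae_dot_ne_zero (hB j)

lemma ae_all_ne_zero_prod {B : D → ι → ℝ} (hB : ∀ j, B j ⬝ᵥ B j ≠ 0) :
    ∀ᵐ p ∂(gam ι).prod (gam ι), ∀ j, B j ⬝ᵥ p.1 ≠ 0 :=
  Measure.quasiMeasurePreserving_fst.ae (ae_all_ne_zero hB)

lemma rotation_radius (B : D → ι → ℝ) {c : D → ℝ} (hc : ∀ j, 0 ≤ c j)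
    {G : (ι → ℝ) × (ι → ℝ) → ℂ} (hGm : Measurable G)
    (hG : Integrable G ((gam ι).prod (gam ι))) (hinv : ∀ θ p, G (rot θ p) = G p)
    {r : ℝ} (hr : |r| < 1) :
    ∫ p, G p * Phi B c r p ∂(gam ι).prod (gam ι)
      = (Real.exp (-∑ j, c j) : ℝ) * ∫ p, G p ∂(gam ι).prod (gam ι) := by
  have hPm : ∀ ζ, Measurable fun p => G p * Phi B c ζ p := fun ζ => by fun_prop
  have h1 : ∀ θ : ℝ, ∫ p, G p * Phi B c r p ∂(gam ι).prod (gam ι)
      = ∫ p, G p * Phi B c (circleMap 0 r θ) p ∂(gam ι).prod (gam ι) := by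
    intro θ
    have hmp := mp_rot (ι := ι) (θ / 2)
    conv_lhs => rw [← hmp.map_eq]
    rw [integral_map hmp.measurable.aemeasurable (hPm _).aestronglyMeasurable]
    simp only [hinv, Phi_rot]
  have hint : Integrable (Function.uncurry fun (θ : ℝ) p => G p * Phi B c (circleMap 0 r θ) p)
      ((volume.restrict (uIoc 0 (2 * Real.pi))).prod ((gam ι).prod (gam ι))) := by
    have hfin : IsFiniteMeasure (volume.restrict (uIoc (0 : ℝ) (2 * Real.pi))) := by
      rw [uIoc]; infer_instance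
    refine Integrable.mono' (g := fun q => ‖G q.2‖) (hG.norm.comp_snd _) ?_ ?_
    · have hcm : Measurable (circleMap 0 r) := (continuous_circleMap 0 r).measurable
      have : Measurable fun q : ℝ × ((ι → ℝ) × (ι → ℝ)) =>
          G q.2 * Phi B c (circleMap 0 r q.1) q.2 := by fun_prop
      exact this.aestronglyMeasurable
    · refine ae_of_all _ fun q => ?_
      simp only [Function.uncurry, norm_mul]
      refine mul_le_of_le_one_right (norm_nonneg _) (norm_Phi_le B hc ?_ _)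
      simpa using hr.le
  have h2 := intervalIntegral_integral_swap hint
  simp_rw [← h1, intervalIntegral.integral_const_mul] at h2
  have h3 : ∀ p, ∫ θ in (0 : ℝ)..2 * Real.pi, Phi B c (circleMap 0 r θ) p
      = (2 * Real.pi : ℝ) * (Real.exp (-∑ j, c j) : ℝ) := by
    intro p
    rw [← circleAverage_Phi B c hr p, Real.circleAverage, real_smul, ← mul_assoc, ← ofReal_mul,
      mul_inv_cancel₀ (by positivity)]
    simp
  simp_rw [h3, integral_mul_const, intervalIntegral.integral_const, sub_zero, real_smul] at h2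
  have hpi : ((2 * Real.pi : ℝ) : ℂ) ≠ 0 := by
    exact_mod_cast (by positivity : (2 * Real.pi : ℝ) ≠ 0)
  apply mul_left_cancel₀ hpi
  rw [h2]; ring

/-- The rotation lemma. -/
lemma rotation_lemma {B : D → ι → ℝ} (hB : ∀ j, B j ⬝ᵥ B j ≠ 0) {c : D → ℝ} (hc : ∀ j, 0 ≤ c j)
    {G : (ι → ℝ) × (ι → ℝ) → ℂ} (hGm : Measurable G)
    (hG : Integrable G ((gam ι).prod (gam ι))) (hinv : ∀ θ p, G (rot θ p) = G p) :
    ∫ p, G p * ei (Vc B c p.1 ⬝ᵥ p.2) ∂(gam ι).prod (gam ι)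
      = (Real.exp (-∑ j, c j) : ℝ) * ∫ p, G p ∂(gam ι).prod (gam ι) := by
  have hPm : ∀ ζ, Measurable fun p => G p * Phi B c ζ p := fun ζ => by fun_prop
  have hev : ∀ᶠ r : ℝ in 𝓝[<] 1, |r| < 1 := by
    filter_upwards [Ioo_mem_nhdsLT (show (0 : ℝ) < 1 by norm_num)] with r hr
    rw [abs_of_pos hr.1]; exact hr.2
  have hlim : Tendsto (fun r : ℝ => ∫ p, G p * Phi B c r p ∂(gam ι).prod (gam ι)) (𝓝[<] 1)
      (𝓝 (∫ p, G p * ei (Vc B c p.1 ⬝ᵥ p.2) ∂(gam ι).prod (gam ι))) := by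
    refine tendsto_integral_filter_of_dominated_convergence (fun p => ‖G p‖)
      (Eventually.of_forall fun r => (hPm _).aestronglyMeasurable) ?_ hG.norm ?_
    · filter_upwards [hev] with r hr
      refine ae_of_all _ fun p => ?_
      rw [norm_mul]
      refine mul_le_of_le_one_right (norm_nonneg _) (norm_Phi_le B hc ?_ _)
      simpa using hr.le
    · filter_upwards [ae_all_ne_zero_prod hB] with p hp
      rw [← Phi_one B c hp]
      refine Tendsto.const_mul _ (Tendsto.mono_left ?_ nhdsWithin_le_nhds)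
      have : ContinuousAt (fun r : ℝ => Phi B c r p) 1 := by
        unfold Phi
        refine ContinuousAt.cexp (ContinuousAt.neg (tendsto_finsetSum _ fun j _ => ?_))
        refine ContinuousAt.mul continuousAt_const (ContinuousAt.div (by fun_prop) (by fun_prop) ?_)
        simpa using (one_add_om_ne_zero (hp j)).1
      simpa using this.tendsto
  have hconst : (fun r : ℝ => ∫ p, G p * Phi B c r p ∂(gam ι).prod (gam ι)) =ᶠ[𝓝[<] 1]
      fun _ => (Real.exp (-∑ j, c j) : ℝ) * ∫ p, G p ∂(gam ι).prod (gam ι) := by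
    filter_upwards [hev] with r hr using rotation_radius B hc hGm hG hinv hr
  exact tendsto_nhds_unique (hlim.congr' hconst) tendsto_const_nhds

end

end Pool.Agent.Lib.MP_9d9c13_pr
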