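import Pool.Agent.Lib.MP_9d9c13_pr.TModel
import Pool.Agent.Lib.MP_9d9c13_pr.Defs

/-!
The Jacobian of `X ↦ R X Rᵀ` on symmetric matrices and the scaling of gamma integrals.
-/

open MeasureTheory ProbabilityTheory Matrix Set Filter Topology
open scoped ENNReal NNReal

namespace Pool.Agent.Lib.MP_9d9c13_pr

noncomputable section

variable {p : ℕ}

@[simp] lemma symMat_apply (x : Sym2 (Fin p) → ℝ) (i j : Fin p) : symMat x i j = x s(i, j) := rfl

lemma symMat_transpose (x : Sym2 (Fin p) → ℝ) : (symMat x)ᵀ = symMat x := by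
  ext i j; simp [Sym2.eq_swap]

lemma symMat_isHermitian (x : Sym2 (Fin p) → ℝ) : (symMat x).IsHermitian := by
  rw [IsHermitian, conjTranspose_eq_transpose_of_trivial, symMat_transpose]

@[fun_prop]
lemma continuous_symMat : Continuous (symMat : (Sym2 (Fin p) → ℝ) → Matrix (Fin p) (Fin p) ℝ) :=
  continuous_matrix fun i j => continuous_apply s(i, j)

/-- `symMat` as a linear map -/
def symL : (Sym2 (Fin p) → ℝ) →ₗ[ℝ] Matrix (Fin p) (Fin p) ℝ where
  toFun := symMat
  map_add' _ _ := rfl
  map_smul' _ _ := rfl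

/-- coordinates of the symmetric part -/
def unSym : Matrix (Fin p) (Fin p) ℝ →ₗ[ℝ] (Sym2 (Fin p) → ℝ) where
  toFun M := Sym2.lift ⟨fun i j => (M i j + M j i) / 2, fun i j => by ring⟩
  map_add' M N := by
    ext q; induction q using Sym2.ind; simp; ring
  map_smul' c M := by
    ext q; induction q using Sym2.ind; simp; ring

lemma symMat_unSym {M : Matrix (Fin p) (Fin p) ℝ} (hM : Mᵀ = M) : symMat (unSym M) = M := by
  ext i j
  have := congrFun (congrFun hM i) j
  simp only [transpose_apply] at this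
  simp [unSym, this]

lemma unSym_symMat (x : Sym2 (Fin p) → ℝ) : unSym (symMat x) = x := by
  ext q; induction q using Sym2.ind with
  | _ i j => simp [unSym, Sym2.eq_swap (a := j)]

/-- the congruence action in coordinates -/
def cR (R : Matrix (Fin p) (Fin p) ℝ) : (Sym2 (Fin p) → ℝ) →ₗ[ℝ] (Sym2 (Fin p) → ℝ) :=
  unSym ∘ₗ (LinearMap.mulRight ℝ Rᵀ) ∘ₗ (LinearMap.mulLeft ℝ R) ∘ₗ symL

lemma cR_apply (R : Matrix (Fin p) (Fin p) ℝ) (x : Sym2 (Fin p) → ℝ) :
    cR R x = unSym (R * symMat x * Rᵀ) := rfl

lemma symMat_cR (R : Matrix (Fin p) (Fin p) ℝ) (x : Sym2 (Fin p) → ℝ) :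
    symMat (cR R x) = R * symMat x * Rᵀ := by
  rw [cR_apply, symMat_unSym]
  rw [transpose_mul, transpose_mul, transpose_transpose, symMat_transpose, Matrix.mul_assoc]

lemma cR_mul (R R' : Matrix (Fin p) (Fin p) ℝ) : cR (R * R') = cR R ∘ₗ cR R' := by
  refine LinearMap.ext fun x => ?_
  rw [LinearMap.comp_apply, cR_apply R, symMat_cR, cR_apply, transpose_mul]
  simp only [Matrix.mul_assoc]

lemma cR_one : cR (1 : Matrix (Fin p) (Fin p) ℝ) = LinearMap.id := by
  refine LinearMap.ext fun x => ?_
  rw [cR_apply, transpose_one, Matrix.one_mul, Matrix.mul_one, unSym_symMat]; rfl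

lemma det_cR_mul (R R' : Matrix (Fin p) (Fin p) ℝ) :
    LinearMap.det (cR (R * R')) = LinearMap.det (cR R) * LinearMap.det (cR R') := by
  rw [cR_mul, LinearMap.det_comp]

lemma det_cR_one : LinearMap.det (cR (1 : Matrix (Fin p) (Fin p) ℝ)) = 1 := by
  rw [cR_one, LinearMap.det_id]

lemma prod_sym2 (d : Fin p → ℝ) :
    ∏ q : Sym2 (Fin p), Sym2.lift ⟨fun i j => d i * d j, fun _ _ => mul_comm _ _⟩ q
      = (∏ i, d i) ^ (p + 1) := by
  rw [← Sym2.sortEquiv.symm.prod_comp]
  simp only [Sym2.sortEquiv_symm_apply, Sym2.lift_mk]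
  rw [← Finset.prod_subtype (Finset.univ.filter fun q : Fin p × Fin p => q.1 ≤ q.2) (by simp)
    (fun q => d q.1 * d q.2), Finset.prod_filter, Fintype.prod_prod_type]
  have h1 : ∀ i j : Fin p, (if i ≤ j then d i * d j else 1)
      = (if i ≤ j then d i else 1) * (if i ≤ j then d j else 1) := fun i j => by
    split_ifs <;> simp
  simp_rw [h1, Finset.prod_mul_distrib]
  rw [Finset.prod_comm (f := fun i j => if i ≤ j then d j else 1), ← Finset.prod_mul_distrib,
    ← Finset.prod_pow]
  refine Finset.prod_congr rfl fun i _ => ?_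
  rw [Finset.prod_ite, Finset.prod_ite]
  simp only [Finset.prod_const_one, mul_one, Finset.prod_const]
  have h2 : Finset.univ.filter (fun j => i ≤ j) = Finset.Ici i := by ext; simp
  have h3 : Finset.univ.filter (fun j => j ≤ i) = Finset.Iic i := by ext; simp
  rw [h2, h3, Fin.card_Ici, Fin.card_Iic, ← pow_add]
  congr 1
  have := i.2
  omega

lemma det_cR_diagonal (d : Fin p → ℝ) :
    LinearMap.det (cR (diagonal d)) = (diagonal d).det ^ (p + 1) := by
  have : cR (diagonal d) = toLin' (diagonal fun q : Sym2 (Fin p) =>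
      Sym2.lift ⟨fun i j => d i * d j, fun _ _ => mul_comm _ _⟩ q) := by
    ext1 x
    ext q
    induction q using Sym2.ind with
    | _ i j =>
      simp [cR_apply, unSym, mulVec_diagonal, Sym2.eq_swap (a := j)]
      ring
  rw [this, LinearMap.det_toLin', det_diagonal, det_diagonal, prod_sym2]

lemma det_cR_transvection {i j : Fin p} (hij : i ≠ j) (c : ℝ) :
    LinearMap.det (cR (transvection i j c)) = 1 := by
  set f : Matrix (Fin p) (Fin p) ℝ → ℝ := fun R => LinearMap.det (cR R) with hf
  have hmul : ∀ R R', f (R * R') = f R * f R' := det_cR_mul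
  have h1 : f 1 = 1 := det_cR_one
  set d : Fin p → ℝ := fun a => if a = i then 2 else 1 with hd
  set d' : Fin p → ℝ := fun a => if a = i then 2⁻¹ else 1 with hd'
  have hdd : diagonal d * diagonal d' = 1 := by
    rw [diagonal_mul_diagonal, ← diagonal_one]
    congr 1; ext a; simp only [hd, hd']; split_ifs <;> norm_num
  have hconj : diagonal d * transvection i j c * diagonal d' = transvection i j (c + c) := by
    simp only [transvection, Matrix.mul_add, Matrix.add_mul, Matrix.mul_one, hdd]
    congr 1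
    ext a b
    simp only [mul_diagonal, diagonal_mul, single_apply, hd, hd']
    by_cases h : i = a ∧ j = b
    · obtain ⟨rfl, rfl⟩ := h
      simp [hij.symm]; ring
    · simp [h]
  have h2 : f (transvection i j c) * f (transvection i j c) = f (transvection i j c) := by
    rw [← hmul, transvection_mul_transvection_same _ _ hij, ← hconj, hmul, hmul, mul_right_comm,
      ← hmul, hdd, h1, one_mul]
  have h3 : f (transvection i j c) * f (transvection i j (-c)) = 1 := by
    rw [← hmul, transvection_mul_transvection_same _ _ hij, add_neg_cancel, transvection_zero, h1]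
  have h4 : f (transvection i j c) ≠ 0 := left_ne_zero_of_mul_eq_one h3
  exact mul_left_cancel₀ h4 (h2.trans (mul_one _).symm)

lemma det_cR {R : Matrix (Fin p) (Fin p) ℝ} (hR : R.det ≠ 0) :
    LinearMap.det (cR R) = R.det ^ (p + 1) := by
  refine diagonal_transvection_induction_of_det_ne_zero
    (fun R => LinearMap.det (cR R) = R.det ^ (p + 1)) R hR (fun d _ => det_cR_diagonal d)
    (fun t => ?_) fun A B _ _ hA hB => by rw [det_cR_mul, hA, hB, det_mul, mul_pow]
  rw [TransvectionStruct.det, one_pow]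
  exact det_cR_transvection t.hij t.c

lemma isClosed_psdCone : IsClosed {x : Sym2 (Fin p) → ℝ | (symMat x).PosSemidef} := by
  have : {x : Sym2 (Fin p) → ℝ | (symMat x).PosSemidef}
      = ⋂ v : Fin p → ℝ, {x | 0 ≤ v ⬝ᵥ (symMat x *ᵥ v)} := by
    ext x
    simp only [posSemidef_iff_dotProduct_mulVec, symMat_isHermitian x, true_and, mem_iInter,
      mem_ofPred_eq, star_trivial]
  rw [this]
  exact isClosed_iInter fun v => isClosed_le continuous_const (by fun_prop)

lemma measurableSet_posCone : MeasurableSet (posCone p) := by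
  have : posCone p = {x : Sym2 (Fin p) → ℝ | (symMat x).PosSemidef}
      ∩ {x | (symMat x).det = 0}ᶜ := by
    ext x
    simp only [posCone, mem_ofPred_eq, mem_inter_iff, mem_compl_iff]
    exact ⟨fun h => ⟨h.posSemidef, h.det_pos.ne'⟩, fun h => h.1.posDef_iff_det_ne_zero.2 h.2⟩
  rw [this]
  exact isClosed_psdCone.measurableSet.inter
    (isClosed_eq (by fun_prop) continuous_const).measurableSet.compl

/-- the gamma integral over the cone, with values in `[0, ∞]` -/
def GamL (p : ℕ) (e : ℝ) (A : Matrix (Fin p) (Fin p) ℝ) : ℝ≥0∞ :=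
  ∫⁻ x in posCone p, ENNReal.ofReal ((symMat x).det ^ e * Real.exp (-(A * symMat x).trace))

lemma measurable_gamIntegrand (e : ℝ) (A : Matrix (Fin p) (Fin p) ℝ) :
    Measurable fun x : Sym2 (Fin p) → ℝ =>
      (symMat x).det ^ e * Real.exp (-(A * symMat x).trace) := by
  have h1 : Measurable fun x : Sym2 (Fin p) → ℝ => (symMat x).det :=
    Continuous.measurable (by fun_prop)
  have h2 : Measurable fun x : Sym2 (Fin p) → ℝ => (A * symMat x).trace :=
    Continuous.measurable (by fun_prop)
  fun_prop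

lemma GamL_scale (e : ℝ) {A : Matrix (Fin p) (Fin p) ℝ} (hA : A.PosDef) :
    GamL p e A = ENNReal.ofReal (A.det ^ (-(e + ((p : ℝ) + 1) / 2))) * GamL p e 1 := by
  obtain ⟨L, hL, -⟩ := exists_lower_factor hA
  have hdet : A.det = L.det ^ 2 := by rw [← hL, det_mul, det_transpose, _root_.sq]
  have hLne : L.det ≠ 0 := by
    intro h; have := hA.det_pos; rw [hdet, h] at this; simp at this
  have hLabs : 0 < |L.det| := abs_pos.2 hLne
  set g : (Sym2 (Fin p) → ℝ) → ℝ≥0∞ := (posCone p).indicator fun x =>
    ENNReal.ofReal ((symMat x).det ^ e * Real.exp (-((1 : Matrix (Fin p) (Fin p) ℝ)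
      * symMat x).trace)) with hg
  have hgm : Measurable g :=
    (ENNReal.measurable_ofReal.comp (measurable_gamIntegrand e 1)).indicator measurableSet_posCone
  have hcm : Measurable (cR L) := (cR L).continuous_of_finiteDimensional.measurable
  have h1 := lintegral_map (μ := (volume : Measure (Sym2 (Fin p) → ℝ))) hgm hcm
  rw [Real.map_linearMap_volume_pi_eq_smul_volume_pi (by rw [det_cR hLne]; positivity),
    lintegral_smul_measure, smul_eq_mul, det_cR hLne, hg,
    lintegral_indicator measurableSet_posCone] at h1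
  have h2 : ∀ x, g (cR L x) = ENNReal.ofReal (A.det ^ e) * (posCone p).indicator (fun x =>
      ENNReal.ofReal ((symMat x).det ^ e * Real.exp (-(A * symMat x).trace))) x := by
    intro x
    have hU : IsUnit L := (isUnit_iff_isUnit_det _).2 hLne.isUnit
    have hiff : cR L x ∈ posCone p ↔ x ∈ posCone p := by
      simp only [posCone, mem_ofPred_eq, symMat_cR]
      exact Matrix.IsUnit.posDef_star_right_conjugate_iff hU
    by_cases hx : x ∈ posCone p
    · rw [hg, indicator_of_mem (hiff.2 hx), indicator_of_mem hx, symMat_cR, Matrix.one_mul,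
        trace_mul_cycle, hL, det_mul, det_mul, det_transpose, mul_right_comm, ← _root_.sq, ← hdet,
        Real.mul_rpow hA.det_pos.le (PosDef.det_pos hx).le, mul_assoc,
        ENNReal.ofReal_mul (Real.rpow_nonneg hA.det_pos.le _)]
    · rw [hg, indicator_of_notMem (fun h => hx (hiff.1 h)), indicator_of_notMem hx, mul_zero]
  rw [← hg] at h1
  simp_rw [h2] at h1
  rw [lintegral_const_mul _ ((measurable_gamIntegrand e A).ennreal_ofReal.indicator
    measurableSet_posCone),
    lintegral_indicator measurableSet_posCone] at h1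
  have hpos := Real.rpow_pos_of_pos hA.det_pos e
  have hreal : A.det ^ (-(e + ((p : ℝ) + 1) / 2)) = (A.det ^ e)⁻¹ * |(L.det ^ (p + 1))⁻¹| := by
    rw [neg_add, Real.rpow_add hA.det_pos, Real.rpow_neg hA.det_pos.le e]
    congr 1
    rw [hdet, abs_inv, abs_pow, ← sq_abs, ← Real.rpow_natCast, ← Real.rpow_natCast,
      ← Real.rpow_mul hLabs.le, ← Real.rpow_neg hLabs.le]
    congr 1; push_cast; ring
  rw [hreal, ENNReal.ofReal_mul (by positivity), mul_assoc]
  unfold GamL
  rw [h1, ← mul_assoc, ← ENNReal.ofReal_mul (by positivity), inv_mul_cancel₀ hpos.ne',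
    ENNReal.ofReal_one, one_mul]

end

end Pool.Agent.Lib.MP_9d9c13_pr
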