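import Pool.Agent.Lib.MP_9d9c13_pr.Final

/-!
The product inequality with a positive semidefinite shift in each block.
-/

open MeasureTheory ProbabilityTheory Matrix Set Filter Topology
open scoped ENNReal NNReal

namespace Pool.Agent.Lib.MP_9d9c13_pr

noncomputable section

lemma Allowed.comp_linear {ι η : Type} [Fintype ι] [Fintype η] {f : (ι → ℝ) → ℝ≥0∞}
    (hf : Allowed f) {L : (η → ℝ) → (ι → ℝ)} (hL : IsLinearMap ℝ L) :
    Allowed fun w => f (L w) := by
  have hm : Measurable L := (IsLinearMap.mk' L hL).continuous_of_finiteDimensional.measurable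
  induction hf with
  | base b σ =>
    obtain ⟨a, ha⟩ := exists_dot_of_isLinear (f := fun w => b ⬝ᵥ L w)
      ⟨fun x y => by rw [hL.map_add, dotProduct_add],
        fun c x => by rw [hL.map_smul, dotProduct_smul]⟩
    exact (Allowed.base a σ).congr fun w => by simp only [basef, ha]
  | mix Ω m μ hμ F hF h ih =>
    exact Allowed.mix' μ (F := fun ω w => F ω (L w))
      (hF.comp (measurable_fst.prodMk (hm.comp measurable_snd))) ih

section Blk

variable {B ι κ η : Type} [Fintype B] [Fintype ι] [Fintype κ] [Fintype η] [DecidableEq B]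
  [DecidableEq ι] [DecidableEq η]

/-- the extra rows are always active -/
def actS (act : ι → Prop) : ι ⊕ η → Prop := Sum.elim act fun _ => True

instance (act : ι → Prop) [DecidablePred act] : DecidablePred (actS (η := η) act)
  | Sum.inl a => inferInstanceAs (Decidable (act a))
  | Sum.inr _ => isTrue trivial

/-- append the fixed rows `Dm` -/
def ext (Dm : Matrix η κ ℝ) (z : ι × κ → ℝ) : (ι ⊕ η) × κ → ℝ := vec (fromRows (mat z) Dm)

omit [Fintype ι] [Fintype κ] [Fintype η] [DecidableEq ι] [DecidableEq η] in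
@[simp] lemma ext_inl (Dm : Matrix η κ ℝ) (z : ι × κ → ℝ) (a : ι) (j : κ) :
    ext Dm z (Sum.inl a, j) = z (a, j) := rfl

omit [Fintype ι] [Fintype κ] [Fintype η] [DecidableEq ι] [DecidableEq η] in
@[simp] lemma ext_inr (Dm : Matrix η κ ℝ) (z : ι × κ → ℝ) (a : η) (j : κ) :
    ext Dm z (Sum.inr a, j) = Dm a j := rfl

omit [Fintype ι] [Fintype κ] [Fintype η] [DecidableEq ι] [DecidableEq η] in
lemma measurable_ext (Dm : Matrix η κ ℝ) : Measurable (ext (ι := ι) Dm) := by
  refine measurable_pi_iff.2 ?_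
  rintro ⟨a | a, j⟩
  · exact measurable_pi_apply (a, j)
  · exact measurable_const

omit [Fintype ι] [Fintype κ] [Fintype η] [DecidableEq ι] [DecidableEq η] in
lemma isLinear_ext : IsLinearMap ℝ (ext (ι := ι) (0 : Matrix η κ ℝ)) := by
  constructor
  · intro x y; ext ⟨a | a, j⟩ <;> simp
  · intro c x; ext ⟨a | a, j⟩ <;> simp

omit [Fintype ι] [Fintype κ] [Fintype η] in
lemma ext_pw (Dm : Matrix η κ ℝ) (k : ι) (w x : ι × κ → ℝ) :
    ext Dm (pw (fun q : ι × κ => q.1 = k) w x)
      = pw (fun q : (ι ⊕ η) × κ => q.1 = Sum.inl k) (ext 0 w) (ext Dm x) := by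
  ext ⟨a | a, j⟩ <;> simp [pw]

omit [DecidableEq ι] [DecidableEq η] in
lemma mp_inl : MeasurePreserving (fun y : (ι ⊕ η) × κ → ℝ => fun q : ι × κ => y (Sum.inl q.1, q.2))
    (gam ((ι ⊕ η) × κ)) (gam (ι × κ)) := by
  refine mp1 (by fun_prop) fun t => ⟨ext 0 t, fun x => ?_, ?_⟩ <;>
    simp [dotProduct, Fintype.sum_prod_type, Fintype.sum_sum_type]

omit [DecidableEq B] [DecidableEq ι] [DecidableEq η] in
lemma mp_cols : MeasurePreserving
    (fun q : (B × ι → ℝ) × (B × η → ℝ) => vec (fromCols (mat q.1) (mat q.2)))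
    ((gam (B × ι)).prod (gam (B × η))) (gam (B × (ι ⊕ η))) := by
  refine mp2 ?_ fun t => ⟨fun q => t (q.1, Sum.inl q.2), fun q => t (q.1, Sum.inr q.2),
    fun x y => ?_, ?_⟩
  · refine measurable_pi_iff.2 ?_
    rintro ⟨a, j | j⟩
    · exact (measurable_pi_apply (a, j)).comp measurable_fst
    · exact (measurable_pi_apply (a, j)).comp measurable_snd
  · simp [dotProduct, Fintype.sum_prod_type, Fintype.sum_sum_type, Finset.sum_add_distrib]
  · simp [dotProduct, Fintype.sum_prod_type, Fintype.sum_sum_type, Finset.sum_add_distrib]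

variable (e : B → ι) (act : ι → Prop) [DecidablePred act] (Q : Matrix κ B ℝ) (Dm : Matrix η κ ℝ)
  (γ s : ℝ)

/-- the shifted block functional -/
def FS (z : ι × κ → ℝ) : ℝ≥0∞ :=
  FB (fun b => (Sum.inl (e b) : ι ⊕ η)) (actS act) Q γ s (ext Dm z)

lemma measurable_FS : Measurable (FS e act Q Dm γ s) :=
  (measurable_FB _ _ _ _ _).comp (measurable_ext Dm)

lemma allowedS_inactive {k : ι} (hk : ¬ act k) (x : ι × κ → ℝ) :
    Allowed fun w => FS e act Q Dm γ s (pw (fun q : ι × κ => q.1 = k) w x) := by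
  have h := allowed_inactive (fun b => (Sum.inl (e b) : ι ⊕ η)) (actS act) Q γ s
    (k := Sum.inl k) hk (ext Dm x)
  exact (h.comp_linear isLinear_ext).congr fun w => by rw [FS, ext_pw]

lemma allowedS_own (he : Function.Injective e) {s : ℝ} (hs : 0 ≤ s) (b : B) (x : ι × κ → ℝ) :
    Allowed fun w => FS e act Q Dm γ s (pw (fun q : ι × κ => q.1 = e b) w x) := by
  have h := allowed_own (fun b => (Sum.inl (e b) : ι ⊕ η)) (actS act) Q γ
    (Sum.inl_injective.comp he) hs b (ext Dm x)
  exact (h.comp_linear isLinear_ext).congr fun w => by rw [FS, ext_pw]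

lemma allowedS_low (he : Function.Injective e) (hact : ∀ b, act (e b)) {s : ℝ} (hs : 0 ≤ s)
    (O : Finset ι) (hO : ∀ k, k ∈ O ↔ ∃ b, e b = k) {k : ι} (hk : k ∉ O) (x : ι × κ → ℝ) :
    Allowed fun w => marg (fun q : ι × κ => q.1 ∈ O) (FS e act Q Dm γ s)
      (pw (fun q : ι × κ => q.1 = k) w x) := by
  have h := allowed_low (fun b => (Sum.inl (e b) : ι ⊕ η)) (actS act) Q γ
    (Sum.inl_injective.comp he) hact hs (O.map Function.Embedding.inl) (by
      rintro (a | a)
      · simpa using hO a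
      · simp) (k := Sum.inl k) (by simpa using hk) (ext Dm x)
  refine (h.comp_linear isLinear_ext).congr fun w => ?_
  rw [← ext_pw, marg, marg, ← (mp_inl (η := η)).lintegral_comp
    (f := fun y => FS e act Q Dm γ s (pw (fun q : ι × κ => q.1 ∈ O) y
      (pw (fun q : ι × κ => q.1 = k) w x)))
    ((measurable_FS e act Q Dm γ s).comp (by fun_prop))]
  refine lintegral_congr fun y => ?_
  rw [FS]
  congr 1
  ext ⟨a | a, j⟩ <;> simp [pw]

/-- the averaged shifted power of the determinant -/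
def psiS (C : Matrix η B ℝ) (s : ℝ) (y : B × B → ℝ) : ℝ≥0∞ :=
  ∫⁻ n, apow s (mat y + mat n * C).det ∂gam (B × η)

omit [DecidableEq η] in
lemma measurable_psiS (C : Matrix η B ℝ) (s : ℝ) : Measurable (psiS C s) := by
  have : Measurable fun q : (B × B → ℝ) × (B × η → ℝ) => apow s (mat q.1 + mat q.2 * C).det :=
    measurable_apow _ (Continuous.measurable (by fun_prop))
  exact this.lintegral_prod_right'

/-- the weighted average of a general function of the block -/
def FG (ψ : (B × B → ℝ) → ℝ≥0∞) (z : ι × κ → ℝ) : ℝ≥0∞ :=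
  ∫⁻ t, apow γ ((mat t).submatrix id e).det * ψ (vec (msk act (mat t) * mat z * Q)) ∂gam (B × ι)

lemma measurable_FG_aux {ψ : (B × B → ℝ) → ℝ≥0∞} (hψ : Measurable ψ) :
    Measurable fun q : (B × ι → ℝ) × (ι × κ → ℝ) => apow γ ((mat q.1).submatrix id e).det
      * ψ (vec (msk act (mat q.1) * mat q.2 * Q)) :=
  (measurable_apow _ (Continuous.measurable (by fun_prop))).mul
    (hψ.comp (Continuous.measurable (by fun_prop)))

lemma measurable_FG {ψ : (B × B → ℝ) → ℝ≥0∞} (hψ : Measurable ψ) :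
    Measurable (FG e act Q γ ψ) :=
  (measurable_FG_aux e act Q γ hψ).lintegral_prod_left'

lemma FS_eq (z : ι × κ → ℝ) : FS e act Q Dm γ s z = FG e act Q γ (psiS (Dm * Q) s) z := by
  rw [FS, FB, lintegral_split mp_cols (g := fun t => PhiB (fun b => (Sum.inl (e b) : ι ⊕ η))
    (actS act) Q γ s (mat t) (mat (ext Dm z)))
    (measurable_PhiB _ _ _ _ _ measurable_id measurable_const)]
  refine lintegral_congr fun t => ?_
  rw [psiS, ← lintegral_const_mul _ (measurable_apow _ (Continuous.measurable (by fun_prop)))]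
  refine lintegral_congr fun n => ?_
  have h1 : msk (actS act) (fromCols (mat t) (mat n)) = fromCols (msk act (mat t)) (mat n) := by
    ext a (j | j) <;> simp [msk, actS]
  simp only [PhiB, mat_vec, ext, h1, fromCols_mul_fromRows, Matrix.add_mul, Matrix.mul_assoc]
  rfl

lemma FG_one (he : Function.Injective e) (z : ι × κ → ℝ) :
    FG e act Q γ (fun _ => 1) z = dmom B γ := by
  rw [← FB_zero he act Q γ z]
  simp [FG, FB, PhiB]

omit [DecidableEq ι] in
lemma det_gauss {H : Matrix ι B ℝ} (hH : (Hᵀ * H).PosDef) (s : ℝ) :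
    ∫⁻ n, apow s (mat n * H).det ∂gam (B × ι) = dmom B s * apow (s / 2) (Hᵀ * H).det := by
  obtain ⟨V, hV⟩ := exists_factor_psd hH.posSemidef
  have hdet : (Hᵀ * H).det = V.det ^ 2 := by
    rw [← hV, det_mul, det_transpose, _root_.sq]
  have hVne : V.det ≠ 0 := by
    intro h; have := hH.det_pos; rw [hdet, h] at this; simp at this
  have hU : (H * V⁻¹)ᵀ * (H * V⁻¹) = 1 := by
    rw [transpose_mul, Matrix.mul_assoc, ← Matrix.mul_assoc Hᵀ, ← hV, Matrix.mul_assoc,
      mul_nonsing_inv _ hVne.isUnit, Matrix.mul_one, ← transpose_mul,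
      mul_nonsing_inv _ hVne.isUnit, transpose_one]
  have h := (mp_mul (E := (1 : Matrix B B ℝ)) (by simp) hU).lintegral_comp
    (measurable_apow_det s)
  have h1 : ∀ n : B × ι → ℝ, mat n * H = mat n * (H * V⁻¹) * V := by
    intro n
    rw [Matrix.mul_assoc, nonsing_inv_mul_cancel_right _ _ hVne.isUnit]
  simp only [mat_vec, Matrix.one_mul] at h
  simp_rw [h1, det_mul _ V, apow_mul]
  rw [lintegral_mul_const _ (measurable_apow _ (Continuous.measurable (by fun_prop))), h, hdet]
  congr 1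
  rw [apow_eq_ofReal (Or.inl hVne), apow_eq_ofReal (Or.inl (pow_ne_zero 2 hVne)), abs_pow,
    ← Real.rpow_natCast, ← Real.rpow_mul (abs_nonneg _)]
  congr 2; push_cast; ring

omit [DecidableEq ι] [DecidableEq η] in
lemma lintegral_psiS {P : Matrix ι B ℝ} {C : Matrix η B ℝ} (h : (Pᵀ * P + Cᵀ * C).PosDef) (s : ℝ) :
    ∫⁻ n, psiS C s (vec (mat n * P)) ∂gam (B × ι)
      = dmom B s * apow (s / 2) (Pᵀ * P + Cᵀ * C).det := by
  have h1 : (fromRows P C)ᵀ * fromRows P C = Pᵀ * P + Cᵀ * C := by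
    rw [transpose_fromRows, fromCols_mul_fromRows]
  rw [← h1, ← det_gauss (h1 ▸ h), lintegral_split mp_cols
    (measurable_apow _ (Continuous.measurable (by fun_prop)))]
  simp only [psiS, mat_vec, fromCols_mul_fromRows]

end Blk

end

end Pool.Agent.Lib.MP_9d9c13_pr
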