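import Pool.Agent.Lib.MP_9d9c13_pr.Shift

/-!
The shifted product inequality for one Wishart matrix, in `[0, ∞]`.
-/

open MeasureTheory ProbabilityTheory Matrix Set Filter Topology
open scoped ENNReal NNReal

namespace Pool.Agent.Lib.MP_9d9c13_pr

noncomputable section

variable {p : ℕ} {D : Type} [Fintype D] [LinearOrder D]

/-- the general block functional of the triangular model -/
abbrev FTG (blk : Fin p → D) (α : ℝ) (Q : Matrix (Fin p) (Fin p) ℝ) (i : D)
    (ψ : ({a // blk a = i} × {a // blk a = i} → ℝ) → ℝ≥0∞) : (Fin p × Fin p → ℝ) → ℝ≥0∞ :=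
  FG (Subtype.val : {a // blk a = i} → Fin p) (fun k => blk k ≤ i) (Q.submatrix id Subtype.val)
    (α - nle blk i) ψ

lemma T_side_gen (blk : Fin p → D) (α : ℝ) (Q : Matrix (Fin p) (Fin p) ℝ)
    {ψ : ∀ i, ({a // blk a = i} × {a // blk a = i} → ℝ) → ℝ≥0∞} (hψ : ∀ i, Measurable (ψ i)) :
    ∫⁻ t, wT blk α t * ∫⁻ z, ∏ i, ψ i (vec (sq blk i (tmask blk (mat t) * mat z * Q)))
        ∂gam (Fin p × Fin p) ∂gam (Fin p × Fin p)
      = ∫⁻ z, ∏ i, FTG blk α Q i (ψ i) z ∂gam (Fin p × Fin p) := by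
  obtain ⟨r, hmp, hr'⟩ : ∃ r : ∀ i : D, (Fin p × Fin p → ℝ) → ({a // blk a = i} × Fin p → ℝ),
      (∀ i, MeasurePreserving (r i) (gam _) (gam _))
        ∧ ∀ i t, mat (r i t) = (mat t).submatrix Subtype.val id :=
    ⟨fun i t => vec (sel (Subtype.val : {a // blk a = i} → Fin p) * mat t
      * (1 : Matrix (Fin p) (Fin p) ℝ)),
      fun i => mp_mul (sel_mul_sel Subtype.val_injective) (by simp),
      fun i t => by rw [mat_vec, Matrix.mul_one, sel_mul]⟩
  obtain ⟨Φ, hΦ⟩ : ∃ Φ : D → (Fin p × Fin p → ℝ) → (Fin p × Fin p → ℝ) → ℝ≥0∞, ∀ i t z, Φ i t z =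
    apow (α - nle blk i) ((mat (r i t)).submatrix id (Subtype.val : {a // blk a = i} → Fin p)).det
      * ψ i (vec (msk (fun k => blk k ≤ i) (mat (r i t)) * mat z * Q.submatrix id Subtype.val)) :=
    ⟨_, fun _ _ _ => rfl⟩
  have hΦm : ∀ i, Measurable fun q : (Fin p × Fin p → ℝ) × (Fin p × Fin p → ℝ) =>
      Φ i q.1 q.2 := by
    intro i
    simp only [hΦ]
    exact (measurable_FG_aux _ _ _ _ (hψ i)).comp
      (f := fun q : (Fin p × Fin p → ℝ) × (Fin p × Fin p → ℝ) => (r i q.1, q.2))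
      (((hmp i).measurable.comp measurable_fst).prodMk measurable_snd)
  have h1 : ∀ t z, wT blk α t * ∏ i, ψ i (vec (sq blk i (tmask blk (mat t) * mat z * Q)))
      = ∏ i, Φ i t z := by
    intro t z
    rw [wT, ← Finset.prod_mul_distrib]
    refine Finset.prod_congr rfl fun i _ => ?_
    have h2 : sq blk i (tmask blk (mat t) * mat z * Q)
        = msk (fun k => blk k ≤ i) ((mat t).submatrix Subtype.val id) * mat z
          * Q.submatrix id Subtype.val := by
      ext a b
      simp [mul_apply, tmask, msk, a.2]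
    rw [hΦ, hr', h2]
    rfl
  have h2 : ∀ t, Measurable fun z : Fin p × Fin p → ℝ =>
      ∏ i, ψ i (vec (sq blk i (tmask blk (mat t) * mat z * Q))) := fun t =>
    Finset.measurable_prod _ fun i _ => (hψ i).comp (Continuous.measurable (by fun_prop))
  simp_rw [← lintegral_const_mul _ (h2 _), h1]
  have h3 : Measurable fun q : (Fin p × Fin p → ℝ) × (Fin p × Fin p → ℝ) => ∏ i, Φ i q.1 q.2 :=
    Finset.measurable_prod _ fun i _ => hΦm i
  rw [lintegral_lintegral_swap h3.aemeasurable]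
  refine lintegral_congr fun z => ?_
  rw [lintegral_prod_indep (fun q : Fin p × Fin p => blk q.1) (fun i t => Φ i t z)
    (fun i => (hΦm i).comp (measurable_id.prodMk measurable_const))]
  · refine Finset.prod_congr rfl fun i _ => ?_
    simp only [hΦ]
    exact (hmp i).lintegral_comp (f := fun t => apow (α - nle blk i)
      ((mat t).submatrix id (Subtype.val : {a // blk a = i} → Fin p)).det
      * ψ i (vec (msk (fun k => blk k ≤ i) (mat t) * mat z * Q.submatrix id Subtype.val)))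
      ((measurable_apow _ (Continuous.measurable (by fun_prop))).mul
        ((hψ i).comp (Continuous.measurable (by fun_prop))))
  · intro i x y h
    have h4 : (mat x).submatrix (Subtype.val : {a // blk a = i} → Fin p) id
        = (mat y).submatrix Subtype.val id := by
      ext a b
      exact h (a, b) a.2
    simp only [hΦ, hr', h4]

lemma X_side_gen (blk : Fin p → D) (P : Matrix (Fin p) (Fin p) ℝ)
    {ψ : ∀ i, ({a // blk a = i} × {a // blk a = i} → ℝ) → ℝ≥0∞} (hψ : ∀ i, Measurable (ψ i)) :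
    ∫⁻ n, ∏ i, ψ i (vec (sq blk i (mat n * P))) ∂gam (Fin p × Fin p)
      = ∏ i, ∫⁻ n, ψ i (vec (mat n * P.submatrix id Subtype.val))
        ∂gam ({a // blk a = i} × Fin p) := by
  have hm : ∀ i, Measurable fun n : Fin p × Fin p → ℝ => ψ i (vec (sq blk i (mat n * P))) :=
    fun i => (hψ i).comp (Continuous.measurable (by fun_prop))
  rw [lintegral_prod_indep (fun q : Fin p × Fin p => blk q.1) _ hm]
  swap
  · intro i x y h
    congr 2
    ext a b
    simp only [submatrix_apply, mul_apply, mat_apply]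
    exact Finset.sum_congr rfl fun k _ => by rw [h (a, k) a.2]
  refine Finset.prod_congr rfl fun i _ => ?_
  have h := (mp_mul (sel_mul_sel (e := (Subtype.val : {a // blk a = i} → Fin p))
    Subtype.val_injective) (U := (1 : Matrix (Fin p) (Fin p) ℝ)) (by simp)).lintegral_comp
    (f := fun n => ψ i (vec (mat n * P.submatrix id Subtype.val)))
    ((hψ i).comp (Continuous.measurable (by fun_prop)))
  rw [← h]
  refine lintegral_congr fun n => ?_
  congr 2
  rw [mat_vec, Matrix.mul_one, sel_mul]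
  ext a b; simp [mul_apply]

/-- Transfer of a product inequality from the triangular model to the Wishart law. -/
theorem wishart_transfer {blk : Fin p → D} (hblk : Monotone blk) {α : ℝ}
    (hα : (p : ℝ) - 1 < α) {S Q : Matrix (Fin p) (Fin p) ℝ} (hS : S.PosDef) (hQ : Qᵀ * Q = S)
    {ψ : ∀ i, ({a // blk a = i} × {a // blk a = i} → ℝ) → ℝ≥0∞} (hψ : ∀ i, Measurable (ψ i))
    {Ψ : D → (Sym2 (Fin p) → ℝ) → ℝ≥0∞}
    (hΨ : ∀ i, ∀ x ∈ posCone p, ∀ P : Matrix (Fin p) (Fin p) ℝ, Pᵀ * P = symMat x →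
      ∫⁻ n, ψ i (vec (mat n * P.submatrix id Subtype.val)) ∂gam ({a // blk a = i} × Fin p) = Ψ i x)
    (hdec : ∏ i, ∫⁻ z, FTG blk α Q i (ψ i) z ∂gam (Fin p × Fin p)
      ≤ ∫⁻ z, ∏ i, FTG blk α Q i (ψ i) z ∂gam (Fin p × Fin p)) :
    ∏ i, ∫⁻ x, Ψ i x ∂wishart α S ≤ ∫⁻ x, ∏ i, Ψ i x ∂wishart α S := by
  obtain ⟨R, hR, hRR⟩ := exists_measurable_root (p := p)
  have hγ : ∀ i, -1 < α - nle blk i := fun i => by
    have : nle blk i ≤ p := by simpa [nle] using Finset.card_filter_le Finset.univ fun k => blk k ≤ i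
    have : (nle blk i : ℝ) ≤ p := by exact_mod_cast this
    linarith
  set c : D → ℝ≥0∞ := fun i => dmom {a // blk a = i} (α - nle blk i) with hc
  have hc0 : ∀ i, c i ≠ 0 := fun i => dmom_ne_zero _
  have hct : ∀ i, c i ≠ ⊤ := fun i => dmom_ne_top (hγ i)
  have hζ : ∫⁻ t, wT blk α t ∂gam (Fin p × Fin p) = ∏ i, c i := by
    have := T_side blk α Q 0
    simpa [FT, FB_zero Subtype.val_injective] using this
  have hid : ∀ φ : ∀ i, ({a // blk a = i} × {a // blk a = i} → ℝ) → ℝ≥0∞, (∀ i, Measurable (φ i)) →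
      ∫⁻ z, ∏ i, FTG blk α Q i (φ i) z ∂gam (Fin p × Fin p)
      = (∏ i, c i) * ∫⁻ x, ∏ i, ∫⁻ n, φ i (vec (mat n * (mat (R x)).submatrix id Subtype.val))
        ∂gam ({a // blk a = i} × Fin p) ∂wishart α S := by
    intro φ hφ
    have h := law_eq hblk hα hS hQ hR hRR (by rw [hζ]; exact ENNReal.prod_ne_top fun i _ => hct i)
      (G := fun m => ∏ i, φ i (vec (sq blk i (mat m))))
      (Finset.measurable_prod _ fun i _ => (hφ i).comp (Continuous.measurable (by fun_prop)))
    simp only [mat_vec, sq_bmask] at h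
    rw [← T_side_gen blk α Q hφ, h, hζ]
    simp only [X_side_gen blk _ hφ]
  have hone : ∀ i, ∫⁻ z, FTG blk α Q i (ψ i) z ∂gam (Fin p × Fin p)
      = c i * ∫⁻ x, Ψ i x ∂wishart α S := by
    intro i
    obtain ⟨φ, hφi, hφj⟩ : ∃ φ : ∀ j, ({a // blk a = j} × {a // blk a = j} → ℝ) → ℝ≥0∞,
        φ i = ψ i ∧ ∀ j, j ≠ i → φ j = fun _ => 1 :=
      ⟨fun j => if j = i then ψ j else fun _ => 1, if_pos rfl, fun j hj => if_neg hj⟩
    have h := hid φ fun j => by
      by_cases hj : j = i
      · subst hj; rw [hφi]; exact hψ j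
      · rw [hφj j hj]; exact measurable_const
    have h1 : ∀ z, ∏ j, FTG blk α Q j (φ j) z
        = (∏ j ∈ Finset.univ.erase i, c j) * FTG blk α Q i (ψ i) z := by
      intro z
      rw [← Finset.prod_erase_mul _ _ (Finset.mem_univ i), hφi]
      congr 1
      refine Finset.prod_congr rfl fun j hj => ?_
      rw [hφj j (Finset.ne_of_mem_erase hj), FTG, FG_one _ _ _ _ Subtype.val_injective]
    have h2 : ∀ x ∈ posCone p, ∏ j, ∫⁻ n, φ j
        (vec (mat n * (mat (R x)).submatrix id Subtype.val)) ∂gam ({a // blk a = j} × Fin p)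
        = Ψ i x := by
      intro x hx
      rw [Finset.prod_eq_single i (fun j _ hj => by simp [hφj j hj]) (by simp), hφi]
      exact hΨ i x hx _ (hRR x hx)
    simp_rw [h1] at h
    rw [lintegral_congr_ae ((ae_wishart α S).mono h2), lintegral_const_mul _
      (measurable_FG _ _ _ _ (hψ i)), ← Finset.prod_erase_mul _ _ (Finset.mem_univ i),
      mul_assoc] at h
    exact (ENNReal.mul_right_inj (Finset.prod_ne_zero_iff.2 fun j _ => hc0 j)
      (ENNReal.prod_ne_top fun j _ => hct j)).1 h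
  rw [hid ψ hψ, lintegral_congr_ae (g := fun x => ∏ i, Ψ i x) ((ae_wishart α S).mono fun x hx =>
    Finset.prod_congr rfl fun i _ => hΨ i x hx _ (hRR x hx))] at hdec
  simp only [hone, Finset.prod_mul_distrib] at hdec
  rwa [ENNReal.mul_le_mul_iff_right (Finset.prod_ne_zero_iff.2 fun j _ => hc0 j)
    (ENNReal.prod_ne_top fun j _ => hct j)] at hdec

lemma FS_decouple (blk : Fin p → D) (α : ℝ) (Q : Matrix (Fin p) (Fin p) ℝ)
    (Dm : D → Matrix (Fin p) (Fin p) ℝ) {s : D → ℝ} (hs : ∀ i, 0 ≤ s i) :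
    ∏ i, ∫⁻ z, FS (Subtype.val : {a // blk a = i} → Fin p) (fun k => blk k ≤ i)
        (Q.submatrix id Subtype.val) (Dm i) (α - nle blk i) (s i) z ∂gam (Fin p × Fin p)
      ≤ ∫⁻ z, ∏ i, FS (Subtype.val : {a // blk a = i} → Fin p) (fun k => blk k ≤ i)
        (Q.submatrix id Subtype.val) (Dm i) (α - nle blk i) (s i) z ∂gam (Fin p × Fin p) := by
  refine decouple Prod.fst blk _ (fun i => measurable_FS _ _ _ _ _ _) fun i k => ?_
  have h0 : ∀ (F : (Fin p × Fin p → ℝ) → ℝ≥0∞) x,
      marg (fun q : Fin p × Fin p => q.1 ∈ (∅ : Finset (Fin p))) F x = F x := by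
    intro F x
    have : ∀ y, pw (fun q : Fin p × Fin p => q.1 ∈ (∅ : Finset (Fin p))) y x = x := fun y => by
      ext q; simp [pw]
    simp [marg, this]
  rcases lt_trichotomy (blk k) i with h | h | h
  · refine ⟨Finset.univ.filter fun a => blk a = i, fun k' hk' => ?_, fun x => ?_⟩
    · rw [(Finset.mem_filter.1 hk').2]; exact h
    · exact allowedS_low _ _ _ _ _ Subtype.val_injective (fun b => b.2.le) (hs i) _ (by simp)
        (by simpa using h.ne) x
  · refine ⟨∅, by simp, fun x => ?_⟩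
    simp_rw [h0]
    exact allowedS_own _ _ _ _ _ Subtype.val_injective (hs i) ⟨k, h⟩ x
  · refine ⟨∅, by simp, fun x => ?_⟩
    simp_rw [h0]
    exact allowedS_inactive _ (fun k => blk k ≤ i) _ _ _ _ (not_le.2 h) x

/-- The product inequality for one Wishart matrix with a shift in each block. -/
theorem wishart_shift_lintegral {blk : Fin p → D} (hblk : Monotone blk) {α : ℝ}
    (hα : (p : ℝ) - 1 < α) {S : Matrix (Fin p) (Fin p) ℝ} (hS : S.PosDef) {ν : D → ℝ}
    (hν : ∀ i, 0 ≤ ν i) {A : D → Matrix (Fin p) (Fin p) ℝ} (hA : ∀ i, (A i).PosSemidef) :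
    ∏ i, ∫⁻ x, apow (ν i) (sq blk i (A i + symMat x)).det ∂wishart α S
      ≤ ∫⁻ x, ∏ i, apow (ν i) (sq blk i (A i + symMat x)).det ∂wishart α S := by
  obtain ⟨Q, hQ⟩ := exists_factor_psd hS.posSemidef
  have hQne : IsUnit Q.det := by
    refine Ne.isUnit fun h => ?_
    have := hS.det_pos
    rw [← hQ, det_mul, h, mul_zero] at this
    exact lt_irrefl _ this
  choose C hC using fun i => exists_factor_psd (hA i)
  have hDQ : ∀ i, C i * Q⁻¹ * Q.submatrix id (Subtype.val : {a // blk a = i} → Fin p)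
      = (C i).submatrix id Subtype.val := by
    intro i
    rw [← mul_sel, ← Matrix.mul_assoc, nonsing_inv_mul_cancel_right _ _ hQne, mul_sel]
  have hdec := FS_decouple blk α Q (fun i => C i * Q⁻¹) (s := fun i => 2 * ν i)
    fun i => by linarith [hν i]
  simp only [FS_eq, hDQ] at hdec
  have h := wishart_transfer hblk hα hS hQ
    (ψ := fun i => psiS ((C i).submatrix id Subtype.val) (2 * ν i))
    (fun i => measurable_psiS _ _) (Ψ := fun i x => dmom {a // blk a = i} (2 * ν i)
      * apow (ν i) (sq blk i (A i + symMat x)).det) (fun i x hx P hP => ?_) hdec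
  · have hm : ∀ i, Measurable fun x : Sym2 (Fin p) → ℝ =>
        apow (ν i) (sq blk i (A i + symMat x)).det :=
      fun i => measurable_apow _ (Continuous.measurable (by fun_prop))
    simp only [lintegral_const_mul _ (hm _), Finset.prod_mul_distrib] at h
    rwa [lintegral_const_mul _ (Finset.measurable_prod _ fun i _ => hm i),
      ENNReal.mul_le_mul_iff_right (Finset.prod_ne_zero_iff.2 fun j _ => dmom_ne_zero _)
      (ENNReal.prod_ne_top fun j _ => dmom_ne_top (by linarith [hν j]))] at h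
  · have h1 : (P.submatrix id (Subtype.val : {a // blk a = i} → Fin p))ᵀ
        * P.submatrix id Subtype.val + ((C i).submatrix id Subtype.val)ᵀ
        * (C i).submatrix id Subtype.val = sq blk i (A i + symMat x) := by
      rw [← hP, ← hC i, add_comm]
      ext a b; simp [mul_apply]
    rw [lintegral_psiS (by
      rw [h1]
      exact (PosDef.posSemidef_add (hA i) hx).submatrix Subtype.val_injective), h1,
      mul_div_cancel_left₀ _ (two_ne_zero (α := ℝ))]

end

end Pool.Agent.Lib.MP_9d9c13_pr
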