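import Pool.Agent.Lib.MP_9d9c13_pr.ShiftMain

/-!
Sums of independent Wishart matrices and Gaussian rank one matrices.
-/

open MeasureTheory ProbabilityTheory Matrix Set Filter Topology
open scoped ENNReal NNReal

namespace Pool.Agent.Lib.MP_9d9c13_pr

noncomputable section

variable {p : ℕ} {D : Type} [Fintype D] [LinearOrder D]

omit [LinearOrder D] in
lemma lintegral_pi_prod {W : Type} [MeasurableSpace W] (π : Measure W) [IsProbabilityMeasure π]
    {g : D → W → ℝ≥0∞} (hg : ∀ i, Measurable (g i)) :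
    ∫⁻ w, ∏ i, g i (w i) ∂Measure.pi (fun _ : D => π) = ∏ i, ∫⁻ w, g i w ∂π := by
  rw [lintegral_prod_eq_prod_lintegral_of_indepFun Finset.univ (fun i (w : D → W) => g i (w i))
    (iIndepFun_pi (μ := fun _ : D => π) fun i => (hg i).aemeasurable)
    fun i => (hg i).comp (measurable_pi_apply i)]
  exact Finset.prod_congr rfl fun i _ =>
    (measurePreserving_eval (fun _ : D => π) i).lintegral_comp (hg i)

omit [LinearOrder D] in
/-- product inequalities are stable under mixing each factor separately -/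
lemma prod_mix {W Ω : Type} [MeasurableSpace W] [MeasurableSpace Ω] (π : Measure W)
    [IsProbabilityMeasure π] (μ : Measure Ω) [SFinite μ] {F : D → W → Ω → ℝ≥0∞}
    (hF : ∀ i, Measurable (Function.uncurry (F i))) {P : W → Prop} (hP : ∀ᵐ w ∂π, P w)
    (h : ∀ w : D → W, (∀ i, P (w i)) →
      ∏ i, ∫⁻ x, F i (w i) x ∂μ ≤ ∫⁻ x, ∏ i, F i (w i) x ∂μ) :
    ∏ i, ∫⁻ x, ∫⁻ w, F i w x ∂π ∂μ ≤ ∫⁻ x, ∏ i, ∫⁻ w, F i w x ∂π ∂μ := by
  have hP' : ∀ᵐ w ∂Measure.pi (fun _ : D => π), ∀ i, P (w i) :=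
    ae_all_iff.2 fun i => (measurePreserving_eval (fun _ : D => π) i).quasiMeasurePreserving.ae hP
  have hm : Measurable (Function.uncurry fun (w : D → W) (x : Ω) => ∏ i, F i (w i) x) :=
    Finset.measurable_prod _ fun i _ => (hF i).comp (f := fun q : (D → W) × Ω => (q.1 i, q.2))
      (((measurable_pi_apply i).comp measurable_fst).prodMk measurable_snd)
  calc ∏ i, ∫⁻ x, ∫⁻ w, F i w x ∂π ∂μ = ∏ i, ∫⁻ w, ∫⁻ x, F i w x ∂μ ∂π :=
        Finset.prod_congr rfl fun i _ => (lintegral_lintegral_swap (hF i).aemeasurable).symm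
    _ = ∫⁻ w, ∏ i, ∫⁻ x, F i (w i) x ∂μ ∂Measure.pi (fun _ : D => π) :=
        (lintegral_pi_prod π (g := fun i w => ∫⁻ x, F i w x ∂μ)
          fun i => (hF i).lintegral_prod_right).symm
    _ ≤ ∫⁻ w, ∫⁻ x, ∏ i, F i (w i) x ∂μ ∂Measure.pi (fun _ : D => π) :=
        lintegral_mono_ae (hP'.mono h)
    _ = _ := by
        rw [lintegral_lintegral_swap hm.aemeasurable]
        exact lintegral_congr fun x => lintegral_pi_prod π (g := fun i w => F i w x)
          fun i => (hF i).of_uncurry_right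

/-- the power of the determinant of a diagonal block -/
def fb (blk : Fin p → D) (ν : D → ℝ) (i : D) (M : Matrix (Fin p) (Fin p) ℝ) : ℝ≥0∞ :=
  apow (ν i) (sq blk i M).det

omit [Fintype D] in
lemma measurable_fb (blk : Fin p → D) (ν : D → ℝ) (i : D) {Ω : Type*} [MeasurableSpace Ω]
    {Y : Ω → Matrix (Fin p) (Fin p) ℝ} (hY : Measurable fun ω => vec (Y ω)) :
    Measurable fun ω => fb blk ν i (Y ω) := by
  have h : Measurable fun m : Fin p × Fin p → ℝ => fb blk ν i (mat m) :=
    measurable_apow _ (Continuous.measurable (by fun_prop))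
  simpa only [Function.comp_def, mat_vec] using h.comp hY

lemma measurable_trace {Ω : Type*} [MeasurableSpace Ω]
    {Y : Ω → Matrix (Fin p) (Fin p) ℝ} (hY : Measurable fun ω => vec (Y ω)) :
    Measurable fun ω => (Y ω).trace := by
  have h : Measurable fun m : Fin p × Fin p → ℝ => (mat m).trace :=
    Continuous.measurable (by fun_prop)
  exact h.comp hY

/-- random matrices for which the shifted product inequality holds -/
structure Good (blk : Fin p → D) (ν : D → ℝ) {Ω : Type} [MeasurableSpace Ω] (μ : Measure Ω)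
    (Y : Ω → Matrix (Fin p) (Fin p) ℝ) : Prop where
  meas : Measurable fun ω => vec (Y ω)
  psd : ∀ᵐ ω ∂μ, (Y ω).PosSemidef
  expm : ∃ r : ℝ, 0 < r ∧ ∫⁻ ω, ENNReal.ofReal (Real.exp (r * (Y ω).trace)) ∂μ ≠ ⊤
  ineq : ∀ A : D → Matrix (Fin p) (Fin p) ℝ, (∀ i, (A i).PosSemidef) →
    ∏ i, ∫⁻ ω, fb blk ν i (A i + Y ω) ∂μ ≤ ∫⁻ ω, ∏ i, fb blk ν i (A i + Y ω) ∂μ

variable {blk : Fin p → D} {ν : D → ℝ} {Ω Ω' : Type} [MeasurableSpace Ω] [MeasurableSpace Ω']
  {μ : Measure Ω} {μ' : Measure Ω'}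

lemma measurable_vec_add {Ω : Type*} [MeasurableSpace Ω] {Y Y' : Ω → Matrix (Fin p) (Fin p) ℝ}
    (hY : Measurable fun ω => vec (Y ω)) (hY' : Measurable fun ω => vec (Y' ω)) :
    Measurable fun ω => vec (Y ω + Y' ω) := hY.add hY'

lemma Good.const [IsProbabilityMeasure μ] {M : Matrix (Fin p) (Fin p) ℝ} (hM : M.PosSemidef) :
    Good blk ν μ fun _ => M :=
  ⟨measurable_const, ae_of_all _ fun _ => hM, ⟨1, one_pos, by simp⟩, fun A _ => by simp⟩

lemma Good.comp {Y : Ω → Matrix (Fin p) (Fin p) ℝ} (h : Good blk ν μ Y) {f : Ω' → Ω}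
    (hf : MeasurePreserving f μ' μ) : Good blk ν μ' fun ω => Y (f ω) := by
  obtain ⟨r, hr, he⟩ := h.expm
  refine ⟨h.meas.comp hf.measurable, hf.quasiMeasurePreserving.ae h.psd, ⟨r, hr, ?_⟩,
    fun A hA => ?_⟩
  · rwa [hf.lintegral_comp (f := fun ω => ENNReal.ofReal (Real.exp (r * (Y ω).trace)))
      (by have := measurable_trace h.meas; fun_prop)]
  · have hm : ∀ i, Measurable fun ω => fb blk ν i (A i + Y ω) := fun i =>
      measurable_fb blk ν i (measurable_vec_add measurable_const h.meas)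
    rw [hf.lintegral_comp (f := fun ω => ∏ i, fb blk ν i (A i + Y ω))
      (Finset.measurable_prod _ fun i _ => hm i)]
    simp only [hf.lintegral_comp (hm _)]
    exact h.ineq A hA

lemma Good.add [IsProbabilityMeasure μ] [IsProbabilityMeasure μ']
    {Y : Ω → Matrix (Fin p) (Fin p) ℝ} {Y' : Ω' → Matrix (Fin p) (Fin p) ℝ}
    (h : Good blk ν μ Y) (h' : Good blk ν μ' Y') :
    Good blk ν (μ.prod μ') fun q => Y q.1 + Y' q.2 := by
  have hm : Measurable fun q : Ω × Ω' => vec (Y q.1 + Y' q.2) :=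
    measurable_vec_add (h.meas.comp measurable_fst) (h'.meas.comp measurable_snd)
  have h1 : ∀ᵐ q ∂μ.prod μ', (Y q.1).PosSemidef :=
    measurePreserving_fst.quasiMeasurePreserving.ae h.psd
  have h2 : ∀ᵐ q ∂μ.prod μ', (Y' q.2).PosSemidef :=
    measurePreserving_snd.quasiMeasurePreserving.ae h'.psd
  refine ⟨hm, by filter_upwards [h1, h2] with q a b using a.add b, ?_, fun A hA => ?_⟩
  · obtain ⟨r, hr, he⟩ := h.expm
    obtain ⟨r', hr', he'⟩ := h'.expm
    refine ⟨min r r', lt_min hr hr', ne_top_of_le_ne_top (ENNReal.mul_ne_top he he') ?_⟩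
    have := measurable_trace h.meas
    have := measurable_trace h'.meas
    rw [← lintegral_prod_mul (Measurable.aemeasurable (by fun_prop))
      (Measurable.aemeasurable (by fun_prop))]
    refine lintegral_mono_ae ?_
    filter_upwards [h1, h2] with q a b
    rw [← ENNReal.ofReal_mul (Real.exp_pos _).le, ← Real.exp_add, trace_add, mul_add]
    refine ENNReal.ofReal_le_ofReal (Real.exp_le_exp.2 (add_le_add ?_ ?_))
    · exact mul_le_mul_of_nonneg_right (min_le_left _ _) a.trace_nonneg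
    · exact mul_le_mul_of_nonneg_right (min_le_right _ _) b.trace_nonneg
  · have hf : ∀ i, Measurable fun q : Ω × Ω' => fb blk ν i (A i + (Y q.1 + Y' q.2)) := fun i =>
      measurable_fb blk ν i (measurable_vec_add measurable_const hm)
    rw [lintegral_prod _ (Finset.measurable_prod _ fun i _ => hf i).aemeasurable]
    simp only [lintegral_prod _ (hf _).aemeasurable]
    refine (prod_mix μ' μ (F := fun i w x => fb blk ν i (A i + (Y x + Y' w)))
      (fun i => measurable_fb blk ν i (Y := fun q : Ω' × Ω => A i + (Y q.2 + Y' q.1))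
        (measurable_vec_add measurable_const (measurable_vec_add (h.meas.comp measurable_snd)
          (h'.meas.comp measurable_fst)))) h'.psd fun w hw => ?_).trans
      (lintegral_mono_ae (h.psd.mono fun x hx => ?_))
    · simp only [add_comm (Y _), ← add_assoc]
      exact h.ineq _ fun i => (hA i).add (hw i)
    · simp only [← add_assoc]
      exact h'.ineq _ fun i => (hA i).add hx

lemma Good.pi {K : ℕ} {μ : Fin K → Measure Ω} [∀ k, IsProbabilityMeasure (μ k)]
    {Y : Ω → Matrix (Fin p) (Fin p) ℝ} (h : ∀ k, Good blk ν (μ k) Y) :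
    Good blk ν (Measure.pi μ) fun ω => ∑ k, Y (ω k) := by
  induction K with
  | zero => simpa using Good.const (μ := Measure.pi μ) PosSemidef.zero
  | succ K ih =>
    have h1 := ((h 0).add (ih fun k => h (Fin.succAbove 0 k))).comp
      (measurePreserving_piFinSuccAbove μ 0)
    simpa [Fin.sum_univ_succ, Fin.tail] using h1

lemma good_wishart (hblk : Monotone blk) (hν : ∀ i, 0 ≤ ν i) {α : ℝ} (hα : (p : ℝ) - 1 < α)
    {S : Matrix (Fin p) (Fin p) ℝ} (hS : S.PosDef) : Good blk ν (wishart α S) symMat := by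
  refine ⟨Continuous.measurable (by fun_prop),
    (ae_wishart α S).mono fun x hx => PosDef.posSemidef hx, ?_,
    fun A hA => wishart_shift_lintegral hblk hα hS hν hA⟩
  obtain ⟨r, hr, hP⟩ := exists_sub_smul_posDef hS.inv
  refine ⟨r / 2, by positivity, ?_⟩
  have hL := wishart_laplace_gen hα hS hP
  refine ne_of_eq_of_ne (Eq.trans (lintegral_congr fun x => ?_) hL) ENNReal.ofReal_ne_top
  rw [Matrix.smul_mul, Matrix.one_mul, trace_smul, smul_eq_mul]
  congr 2; ring

section Gauss

variable {B ι η W : Type} [Fintype B] [Fintype ι] [Fintype η] [Fintype W] [DecidableEq B]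

lemma det_gauss' (H : Matrix ι B ℝ) {s : ℝ} (hs : 0 ≤ s) :
    ∫⁻ n, apow s (mat n * H).det ∂gam (B × ι) = dmom B s * apow (s / 2) (Hᵀ * H).det := by
  have hH : (Hᵀ * H).PosSemidef := by simpa using posSemidef_conjTranspose_mul_self H
  by_cases h : (Hᵀ * H).det = 0
  swap
  · exact det_gauss (hH.posDef_iff_det_ne_zero.2 h) s
  rcases hs.eq_or_lt with rfl | hs
  · simp
  obtain ⟨v, hv, hHv⟩ := exists_unit_mulVec h
  have h1 : H *ᵥ v = 0 := by
    refine dotProduct_self_eq_zero.1 ?_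
    rw [dotProduct_mulVec, ← vecMul_transpose, vecMul_vecMul, ← dotProduct_mulVec, hHv,
      dotProduct_zero]
  have h2 : ∀ n : B × ι → ℝ, (mat n * H).det = 0 := fun n =>
    det_eq_zero_of_mulVec hv (by rw [← mulVec_mulVec, h1, mulVec_zero])
  simp [h2, h, apow, ENNReal.zero_rpow_of_pos hs, ENNReal.zero_rpow_of_pos (half_pos hs)]

lemma allowed_rank_one (C : Matrix η B ℝ) {L : (W → ℝ) → (B → ℝ)} (hL : IsLinearMap ℝ L) {s : ℝ}
    (hs : 0 ≤ s) : Allowed fun w => ∫⁻ n,
      apow s (mat n * fromRows (replicateRow Unit (L w)) C).det ∂gam (B × (Unit ⊕ η)) := by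
  classical
  rcases isEmpty_or_nonempty B with hB | hB
  · exact (Allowed.const 1).congr fun w => by simp
  have hc : Continuous L := (IsLinearMap.mk' L hL).continuous_of_finiteDimensional
  have hc2 : Continuous fun w => fromRows (replicateRow Unit (L w)) C := by
    refine continuous_matrix ?_
    rintro (a | a) b
    · exact (continuous_apply b).comp hc
    · exact continuous_const
  refine allowed_reduce (Sum.inl ())
    (fun (T : Matrix B (Unit ⊕ η) ℝ) w => apow s (T * fromRows (replicateRow Unit (L w)) C).det)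
    (measurable_apow _ ((continuous_mat.comp continuous_fst).matrix_mul
      (hc2.comp continuous_snd)).matrix_det.measurable) fun t ρ A ht hA hAk => ?_
  set H0 : Matrix (Unit ⊕ η) B ℝ := fromRows 0 C with hH0
  have hφ := isLinear_det_add (A := A * H0) (det_eq_zero_of_vecMul ht (by
    rw [← vecMul_vecMul, hA, zero_vecMul])) t
  have hβ : IsLinearMap ℝ fun w => ρ • L w :=
    ⟨fun x y => by rw [hL.map_add, smul_add], fun c x => by rw [hL.map_smul, smul_comm]⟩
  refine (allowed_lin hs (isLinear_comp hφ hβ) (isLinear_comp hφ (isLinear_vecMul H0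
    (g := fun r : Unit ⊕ η → ℝ => r) ⟨fun _ _ => rfl, fun _ _ => rfl⟩))).congr fun w => ?_
  refine lintegral_congr fun r => ?_
  rw [← hφ.map_add]
  congr 2
  rw [Matrix.add_mul, vecMulVec_mul]
  congr 1
  · ext a b
    simp [hH0, mul_apply, Fintype.sum_sum_type, hAk]
  · congr 1
    ext b
    simp [hH0, vecMul, dotProduct, Fintype.sum_sum_type]

end Gauss

lemma good_gauss (hν : ∀ i, 0 ≤ ν i) (T : Matrix (Fin p) (Fin p) ℝ) :
    Good blk ν (multivariateGaussian 0 T) fun g => vecMulVec g.ofLp g.ofLp := by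
  have hm : Measurable fun g : EuclideanSpace ℝ (Fin p) => vec (vecMulVec g.ofLp g.ofLp) :=
    Continuous.measurable (by fun_prop)
  refine ⟨hm, ae_of_all _ fun g => by simpa using posSemidef_vecMulVec_self_star g.ofLp, ?_,
    fun A hA => ?_⟩
  · obtain ⟨r, hr, h⟩ := IsGaussian.exists_integrable_exp_sq (multivariateGaussian 0 T)
    refine ⟨r, hr, ne_of_eq_of_ne (lintegral_congr fun g => ?_) h.lintegral_lt_top.ne⟩
    rw [trace_vecMulVec, EuclideanSpace.real_norm_sq_eq]
    simp only [dotProduct, _root_.sq]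
  obtain ⟨R, hR⟩ : ∃ R : Matrix (Fin p) (Fin p) ℝ, MeasurePreserving
      (fun z : Fin p → ℝ => WithLp.toLp 2 (R *ᵥ z)) (gam (Fin p)) (multivariateGaussian 0 T) := by
    open scoped MatrixOrder in
    refine ⟨CFC.sqrt T, Continuous.measurable (by fun_prop), ?_⟩
    rw [multivariateGaussian, ← map_pi_eq_stdGaussian,
      Measure.map_map (by fun_prop) (by fun_prop)]
    congr 1
    ext z : 1
    simp
  have hf : ∀ i, Measurable fun g : EuclideanSpace ℝ (Fin p) =>
      fb blk ν i (A i + vecMulVec g.ofLp g.ofLp) := fun i =>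
    measurable_fb blk ν i (measurable_vec_add measurable_const hm)
  rw [← hR.lintegral_comp (Finset.measurable_prod _ fun i _ => hf i)]
  simp only [← hR.lintegral_comp (hf _)]
  choose C hC using fun i => exists_factor_psd (hA i)
  have h := Allowed.prod_le fun i => allowed_rank_one
    ((C i).submatrix id (Subtype.val : {a // blk a = i} → Fin p))
    (L := fun z a => (R *ᵥ z) a.1) ⟨fun x y => by ext a; simp [mulVec_add],
      fun c x => by ext a; simp [mulVec_smul]⟩ (s := 2 * ν i) (by linarith [hν i])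
  have h1 : ∀ i (z : Fin p → ℝ), ∫⁻ n, apow (2 * ν i) (mat n * fromRows
      (replicateRow Unit fun a : {a // blk a = i} => (R *ᵥ z) a.1)
      ((C i).submatrix id Subtype.val)).det ∂gam ({a // blk a = i} × (Unit ⊕ Fin p))
      = dmom {a // blk a = i} (2 * ν i) * fb blk ν i (A i + vecMulVec (R *ᵥ z) (R *ᵥ z)) := by
    intro i z
    rw [det_gauss' _ (by linarith [hν i]), mul_div_cancel_left₀ _ (two_ne_zero (α := ℝ)), fb,
      transpose_fromRows, fromCols_mul_fromRows, ← hC i, add_comm]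
    congr 3
    ext a b
    simp [mul_apply, vecMulVec_apply]
  have hm2 : ∀ i, Measurable fun z : Fin p → ℝ =>
      fb blk ν i (A i + vecMulVec (R *ᵥ z) (R *ᵥ z)) := fun i =>
    measurable_fb blk ν i (Continuous.measurable (by fun_prop))
  simp only [h1, lintegral_const_mul _ (hm2 _), Finset.prod_mul_distrib] at h
  rwa [lintegral_const_mul _ (Finset.measurable_prod _ fun i _ => hm2 i),
    ENNReal.mul_le_mul_iff_right (Finset.prod_ne_zero_iff.2 fun j _ => dmom_ne_zero _)
    (ENNReal.prod_ne_top fun j _ => dmom_ne_top (by linarith [hν j]))] at h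

lemma Good.joint_ne_top {Y : Ω → Matrix (Fin p) (Fin p) ℝ} (h : Good blk ν μ Y) {ν' : D → ℝ}
    (hν : ∀ i, 0 ≤ ν' i) :
    ∫⁻ ω, ENNReal.ofReal (∏ i, (sq blk i (Y ω)).det ^ ν' i) ∂μ ≠ ⊤ := by
  obtain ⟨r, hr, he⟩ := h.expm
  set N := Fintype.card D with hN
  choose C hC hle using fun i => exists_det_rpow_le
    (Subtype.val : {a // blk a = i} → Fin p) (ε := r / (N + 1)) (hν i) (by positivity)
  refine ne_top_of_le_ne_top (ENNReal.mul_ne_top (ENNReal.ofReal_ne_top (r := ∏ i, C i)) he) ?_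
  rw [← lintegral_const_mul' _ _ ENNReal.ofReal_ne_top]
  refine lintegral_mono_ae (h.psd.mono fun x hx => ?_)
  have ht := hx.trace_nonneg
  rw [← ENNReal.ofReal_mul (Finset.prod_nonneg fun i _ => (hC i).le)]
  refine ENNReal.ofReal_le_ofReal ?_
  calc _ ≤ ∏ i, C i * Real.exp (r / (N + 1) * (Y x).trace) :=
        Finset.prod_le_prod (fun i _ => Real.rpow_nonneg (hx.submatrix _).det_nonneg _)
          fun i _ => hle i _ hx
    _ = (∏ i, C i) * Real.exp (N * (r / (N + 1) * (Y x).trace)) := by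
        rw [Finset.prod_mul_distrib, Finset.prod_const, Finset.card_univ, Real.exp_nat_mul]
    _ ≤ _ := by
        refine mul_le_mul_of_nonneg_left (Real.exp_le_exp.2 ?_)
          (Finset.prod_nonneg fun i _ => (hC i).le)
        have h2 : (N : ℝ) * (r / (N + 1)) ≤ r := by
          rw [mul_div_assoc', div_le_iff₀ (by positivity)]
          nlinarith
        nlinarith

theorem Good.integral {Y : Ω → Matrix (Fin p) (Fin p) ℝ} (h : Good blk ν μ Y)
    (hν : ∀ i, 0 ≤ ν i) :
    (∀ i, Integrable (fun ω => (sq blk i (Y ω)).det ^ ν i) μ) ∧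
    Integrable (fun ω => ∏ i, (sq blk i (Y ω)).det ^ ν i) μ ∧
    ∏ i, ∫ ω, (sq blk i (Y ω)).det ^ ν i ∂μ ≤ ∫ ω, ∏ i, (sq blk i (Y ω)).det ^ ν i ∂μ := by
  have hm : ∀ i (s : ℝ), Measurable fun ω => (sq blk i (Y ω)).det ^ s := by
    intro i s
    have h1 : Measurable fun ω => (sq blk i (Y ω)).det := (measurable_sq_det blk i).comp h.meas
    fun_prop
  have h0 : ∀ᵐ ω ∂μ, ∀ i, 0 ≤ (sq blk i (Y ω)).det :=
    h.psd.mono fun ω hω i => (hω.submatrix _).det_nonneg
  have hint : ∀ ν' : D → ℝ, (∀ i, 0 ≤ ν' i) →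
      Integrable (fun ω => ∏ i, (sq blk i (Y ω)).det ^ ν' i) μ := fun ν' hν' =>
    ⟨(Finset.measurable_prod _ fun i _ => hm i _).aestronglyMeasurable,
      (hasFiniteIntegral_iff_ofReal (h0.mono fun ω hω =>
        Finset.prod_nonneg fun i _ => Real.rpow_nonneg (hω i) _)).2 (h.joint_ne_top hν').lt_top⟩
  refine ⟨fun i => ?_, hint ν hν, ?_⟩
  · convert hint (Pi.single i (ν i)) (fun j => by
      by_cases hj : j = i
      · subst hj; simpa using hν j
      · simp [Pi.single_eq_of_ne hj]) using 2 with ω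
    rw [Finset.prod_eq_single i (fun j _ hj => by simp [Pi.single_eq_of_ne hj]) (by simp)]
    simp
  have h1 : ∀ᵐ ω ∂μ, ∀ i, ENNReal.ofReal ((sq blk i (Y ω)).det ^ ν i) = fb blk ν i (0 + Y ω) :=
    h0.mono fun ω hω i => by
      rw [zero_add, fb, apow_eq_ofReal (Or.inr (hν i)), abs_of_nonneg (hω i)]
  have h2 : ∀ i, ∫ ω, (sq blk i (Y ω)).det ^ ν i ∂μ
      = (∫⁻ ω, fb blk ν i (0 + Y ω) ∂μ).toReal := by
    intro i
    rw [integral_eq_lintegral_of_nonneg_ae (h0.mono fun ω hω => Real.rpow_nonneg (hω i) _)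
      (hm i _).aestronglyMeasurable]
    congr 1
    exact lintegral_congr_ae (h1.mono fun ω hω => hω i)
  have h3 : ∫⁻ ω, ∏ i, fb blk ν i (0 + Y ω) ∂μ
      = ∫⁻ ω, ENNReal.ofReal (∏ i, (sq blk i (Y ω)).det ^ ν i) ∂μ := by
    refine lintegral_congr_ae ?_
    filter_upwards [h0, h1] with ω a b
    rw [ENNReal.ofReal_prod_of_nonneg fun i _ => Real.rpow_nonneg (a i) _]
    exact Finset.prod_congr rfl fun i _ => (b i).symm
  rw [integral_eq_lintegral_of_nonneg_ae (h0.mono fun ω hω =>
    Finset.prod_nonneg fun i _ => Real.rpow_nonneg (hω i) _)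
    (Finset.measurable_prod _ fun i _ => hm i _).aestronglyMeasurable]
  simp only [h2]
  rw [← ENNReal.toReal_prod]
  exact ENNReal.toReal_mono (h.joint_ne_top hν)
    ((h.ineq (fun _ => 0) fun _ => PosSemidef.zero).trans h3.le)

/-- shifted sums of independent Wishart matrices and Gaussian rank one matrices -/
theorem good_sum (hblk : Monotone blk) (hν : ∀ i, 0 ≤ ν i) {B : Matrix (Fin p) (Fin p) ℝ}
    (hB : B.PosSemidef) {K : ℕ} {α : Fin K → ℝ} (hα : ∀ k, (p : ℝ) - 1 < α k)
    {S : Fin K → Matrix (Fin p) (Fin p) ℝ} (hS : ∀ k, (S k).PosDef) {J : ℕ}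
    (T : Fin J → Matrix (Fin p) (Fin p) ℝ) :
    Good blk ν ((Measure.pi fun k => wishart (α k) (S k)).prod
      (Measure.pi fun j => multivariateGaussian 0 (T j)))
      fun q => B + ∑ k, symMat (q.1 k) + ∑ j, vecMulVec (q.2 j).ofLp (q.2 j).ofLp := by
  have := fun k => isProbabilityMeasure_wishart (hα k) (hS k)
  have h1 := Good.pi fun k => good_wishart hblk hν (hα k) (hS k)
  have h2 := Good.pi fun j => good_gauss (blk := blk) hν (T j)
  have h3 := ((Good.const (μ := Measure.dirac ()) hB).add h1).comp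
    (f := fun x => ((), x)) ⟨by fun_prop, by rw [Measure.dirac_prod]⟩
  exact h3.add h2

end

end Pool.Agent.Lib.MP_9d9c13_pr
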