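import Pool.Agent.Lib.MP_9d9c13_pr.DetMom

/-!
The block triangular random matrix and its Laplace transform.
-/

open MeasureTheory ProbabilityTheory Matrix Set Filter Topology
open scoped ENNReal NNReal

namespace Pool.Agent.Lib.MP_9d9c13_pr

noncomputable section

variable {p : ℕ} {D : Type} [Fintype D] [LinearOrder D]

lemma exists_lower_factor {S : Matrix (Fin p) (Fin p) ℝ} (hS : S.PosDef) :
    ∃ L : Matrix (Fin p) (Fin p) ℝ, Lᵀ * L = S ∧ ∀ a b, a < b → L a b = 0 := by
  have hS' := hS.inv
  set Li := LDL.lowerInv hS' with hLi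
  have hinv : Invertible Li := LDL.invertibleLowerInv hS'
  have hdet : IsUnit Li.det := (isUnit_iff_isUnit_det _).1 (isUnit_of_invertible Li)
  have h1 : diagonal (LDL.diagEntries hS') = Li * S⁻¹ * Liᵀ := by
    have := LDL.diag_eq_lowerInv_conj hS'
    rw [conjTranspose_eq_transpose_of_trivial] at this
    exact this
  set d := LDL.diagEntries hS'
  have hd : ∀ a, 0 < d a := by
    have h2 : (Li * S⁻¹ * Liᴴ).PosDef :=
      hS'.mul_mul_conjTranspose_same (vecMul_injective_of_invertible Li)
    rw [conjTranspose_eq_transpose_of_trivial, ← h1] at h2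
    exact posDef_diagonal_iff.1 h2
  refine ⟨diagonal (fun a => (√(d a))⁻¹) * Li, ?_, fun a b hab => ?_⟩
  · have hSdet : IsUnit S.det := hS.det_pos.ne'.isUnit
    have h3 : diagonal (fun a => (√(d a))⁻¹) * diagonal (fun a => (√(d a))⁻¹) * diagonal d = 1 := by
      rw [diagonal_mul_diagonal, diagonal_mul_diagonal, ← diagonal_one]
      congr 1; ext a
      have := Real.sqrt_pos.2 (hd a)
      field_simp
      rw [Real.sq_sqrt (hd a).le]
    have h4 : (diagonal (fun a => (√(d a))⁻¹) * Li)ᵀ * (diagonal (fun a => (√(d a))⁻¹) * Li)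
        * S⁻¹ * Liᵀ = Liᵀ := by
      rw [transpose_mul, diagonal_transpose]
      calc _ = Liᵀ * (diagonal (fun a => (√(d a))⁻¹) * diagonal (fun a => (√(d a))⁻¹)
            * (Li * S⁻¹ * Liᵀ)) := by simp only [Matrix.mul_assoc]
        _ = Liᵀ := by rw [← h1, h3, Matrix.mul_one]
    have hdetT : IsUnit Liᵀ.det := by rwa [det_transpose]
    have h5 := congrArg (· * Liᵀ⁻¹ * S) h4
    simp only [mul_nonsing_inv_cancel_right _ _ hdetT, mul_nonsing_inv _ hdetT,
      nonsing_inv_mul_cancel_right _ _ hSdet, Matrix.one_mul] at h5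
    exact h5
  · rw [diagonal_mul, hLi, LDL.lowerInv_triangular hS' hab, mul_zero]

/-- the diagonal block with label `i` -/
abbrev sq (blk : Fin p → D) (i : D) (M : Matrix (Fin p) (Fin p) ℝ) :
    Matrix {a // blk a = i} {a // blk a = i} ℝ := M.submatrix Subtype.val Subtype.val

/-- the block lower triangular part -/
def tmask (blk : Fin p → D) (T : Matrix (Fin p) (Fin p) ℝ) : Matrix (Fin p) (Fin p) ℝ :=
  Matrix.of fun a k => if blk k ≤ blk a then T a k else 0

/-- number of indices in the blocks up to `i` -/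
def nle (blk : Fin p → D) (i : D) : ℕ := (Finset.univ.filter fun k => blk k ≤ i).card

/-- the weight of the triangular model -/
def wT (blk : Fin p → D) (α : ℝ) (t : Fin p × Fin p → ℝ) : ℝ≥0∞ :=
  ∏ i, apow (α - nle blk i) (sq blk i (mat t)).det

lemma measurable_sq_det (blk : Fin p → D) (i : D) :
    Measurable fun t : Fin p × Fin p → ℝ => (sq blk i (mat t)).det :=
  Continuous.measurable (by fun_prop)

lemma measurable_wT (blk : Fin p → D) (α : ℝ) : Measurable (wT blk α) :=
  Finset.measurable_prod _ fun i _ => measurable_apow _ (measurable_sq_det blk i)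

@[fun_prop]
lemma continuous_tmask (blk : Fin p → D) : Continuous (tmask blk) := by
  refine continuous_matrix fun a k => ?_
  simp only [tmask, of_apply]
  split_ifs
  · exact continuous_id.matrix_elem a k
  · exact continuous_const

lemma sum_block (blk : Fin p → D) (i : D) (f : Fin p → ℝ) (hf : ∀ b, blk b ≠ i → f b = 0) :
    ∑ b, f b = ∑ b : {a // blk a = i}, f b := by
  rw [← Finset.sum_subtype (Finset.univ.filter fun a => blk a = i) (by simp) f, Finset.sum_filter]
  refine Finset.sum_congr rfl fun b _ => ?_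
  split_ifs with h
  · rfl
  · exact hf b h

lemma laplace_T {blk : Fin p → D} (hblk : Monotone blk) (α : ℝ) {S : Matrix (Fin p) (Fin p) ℝ}
    (hS : S.PosSemidef) :
    ∫⁻ t, wT blk α t * ENNReal.ofReal
        (Real.exp (-((tmask blk (mat t))ᵀ * S * tmask blk (mat t)).trace / 2)) ∂gam (Fin p × Fin p)
      = ENNReal.ofReal ((1 + S).det ^ (-α / 2)) * ∫⁻ t, wT blk α t ∂gam (Fin p × Fin p) := by
  have hP : (1 + S).PosDef := PosDef.one.add_posSemidef hS
  obtain ⟨L, hL, htri⟩ := exists_lower_factor hP
  have hLb : ∀ a b, blk a < blk b → L a b = 0 := fun a b h => htri a b (hblk.reflect_lt h)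
  have hdetL : L.det = ∏ a, L a a := det_of_isLowerTriangular L fun a b h => htri a b h
  have hdetP : (1 + S).det = ∏ a, L a a ^ 2 := by
    rw [← hL, det_mul, det_transpose, hdetL, ← Finset.prod_mul_distrib]
    exact Finset.prod_congr rfl fun a _ => (_root_.sq _).symm
  have hne : ∀ a, L a a ≠ 0 := by
    intro a h
    have := hP.det_pos
    rw [hdetP, Finset.prod_eq_zero (Finset.mem_univ a) (by simp [h])] at this
    exact lt_irrefl _ this
  set Lk : Fin p → Matrix (Fin p) (Fin p) ℝ := fun k =>
    Matrix.of fun a b => if blk k ≤ blk a ∧ blk k ≤ blk b then L a b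
      else (1 : Matrix (Fin p) (Fin p) ℝ) a b with hLk
  have hdetk : ∀ k, (Lk k).det = ∏ a, if blk k ≤ blk a then L a a else 1 := by
    intro k
    rw [det_of_isLowerTriangular (Lk k) fun a b h => ?_]
    · exact Finset.prod_congr rfl fun a _ => by simp [hLk]
    · have h' : a < b := h
      simp only [hLk, of_apply]
      split_ifs
      · exact htri a b h'
      · exact one_apply_ne h'.ne
  have hdetΛ : (blockDiagonal Lk).det = ∏ a, L a a ^ nle blk (blk a) := by
    rw [det_blockDiagonal]
    simp_rw [hdetk]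
    rw [Finset.prod_comm]
    refine Finset.prod_congr rfl fun a _ => ?_
    rw [Finset.prod_ite, Finset.prod_const_one, mul_one, Finset.prod_const, nle]
  have hΛ : ∀ t : Fin p × Fin p → ℝ, mat (blockDiagonal Lk *ᵥ t)
      = L * tmask blk (mat t) + (mat t - tmask blk (mat t)) := by
    intro t
    ext a k
    have h1 : (blockDiagonal Lk *ᵥ t) (a, k) = ∑ b, Lk k a b * t (b, k) := by
      simp only [mulVec, dotProduct, Fintype.sum_prod_type, blockDiagonal_apply]
      refine Finset.sum_congr rfl fun b _ => ?_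
      simp
    rw [mat_apply, h1]
    simp only [Matrix.add_apply, Matrix.sub_apply, mul_apply, tmask, of_apply, mat_apply, hLk]
    by_cases h : blk k ≤ blk a
    · simp only [h, true_and, if_true, sub_self, add_zero]
      refine Finset.sum_congr rfl fun b _ => ?_
      split_ifs with h'
      · rfl
      · rw [one_apply_ne (by rintro rfl; exact h' h)]; simp
    · simp only [h, false_and, if_false, sub_zero]
      rw [Finset.sum_eq_zero (s := Finset.univ)
        (f := fun b => L a b * if blk k ≤ blk b then t (b, k) else 0) fun b _ => ?_]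
      · simp [one_apply]
      · split_ifs with h'
        · rw [hLb a b (lt_of_lt_of_le (not_le.1 h) h'), zero_mul]
        · simp
  have hsupp : ∀ (T : Matrix (Fin p) (Fin p) ℝ) a k, ¬ blk k ≤ blk a → (L * tmask blk T) a k = 0 := by
    intro T a k h
    simp only [mul_apply, tmask, of_apply]
    refine Finset.sum_eq_zero fun b _ => ?_
    split_ifs with h'
    · rw [hLb a b (lt_of_lt_of_le (not_le.1 h) h'), zero_mul]
    · simp
  have horth : ∀ (A T : Matrix (Fin p) (Fin p) ℝ), (∀ a k, ¬ blk k ≤ blk a → A a k = 0) →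
      vec (A + (T - tmask blk T)) ⬝ᵥ vec (A + (T - tmask blk T))
        = vec A ⬝ᵥ vec A + vec (T - tmask blk T) ⬝ᵥ vec (T - tmask blk T) := by
    intro A T hA
    simp only [dotProduct, ← Finset.sum_add_distrib]
    refine Finset.sum_congr rfl fun q _ => ?_
    by_cases h : blk q.2 ≤ blk q.1
    · simp [tmask, h]
    · simp [tmask, h, hA _ _ h]
  have hquad : ∀ t : Fin p × Fin p → ℝ,
      (blockDiagonal Lk *ᵥ t) ⬝ᵥ (blockDiagonal Lk *ᵥ t) - t ⬝ᵥ t
        = ((tmask blk (mat t))ᵀ * S * tmask blk (mat t)).trace := by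
    intro t
    have h1 := horth (tmask blk (mat t)) (mat t) (fun a k h => by simp [tmask, h])
    rw [add_sub_cancel, vec_mat] at h1
    rw [← vec_mat (blockDiagonal Lk *ᵥ t), hΛ, horth _ _ (hsupp _), h1, vec_dot_vec, vec_dot_vec,
      vec_dot_vec, transpose_mul, Matrix.mul_assoc, ← Matrix.mul_assoc Lᵀ, hL, Matrix.add_mul,
      Matrix.one_mul, Matrix.mul_add, trace_add, Matrix.mul_assoc]
    ring
  have hsq : ∀ (t : Fin p × Fin p → ℝ) i,
      sq blk i (mat (blockDiagonal Lk *ᵥ t)) = sq blk i L * sq blk i (mat t) := by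
    intro t i
    ext a k
    rw [hΛ]
    have ha := a.2
    have hk := k.2
    simp only [submatrix_apply, Matrix.add_apply, Matrix.sub_apply, mul_apply, tmask, of_apply,
      ha, hk, le_refl, if_true, sub_self, add_zero]
    rw [sum_block blk i]
    · exact Finset.sum_congr rfl fun b _ => by simp [b.2]
    · intro b hb
      split_ifs with h
      · rw [hLb a b (by rw [ha]; exact lt_of_le_of_ne h hb.symm), zero_mul]
      · simp
  have hdetsq : ∀ i, (sq blk i L).det = ∏ a : {a // blk a = i}, L a a := fun i =>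
    det_of_isLowerTriangular _ fun a b h => htri a b h
  have hw : ∀ t, wT blk α (blockDiagonal Lk *ᵥ t)
      = ENNReal.ofReal (∏ a, |L a a| ^ (α - nle blk (blk a))) * wT blk α t := by
    intro t
    simp only [wT, hsq, det_mul, apow_mul, Finset.prod_mul_distrib, hdetsq, apow_prod]
    congr 1
    rw [ENNReal.ofReal_prod_of_nonneg fun a _ => by positivity,
      ← Fintype.prod_fiberwise blk]
    refine Finset.prod_congr rfl fun i _ => Finset.prod_congr rfl fun a _ => ?_
    rw [apow_eq_ofReal (Or.inl (hne a)), a.2]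
  have hΛne : (blockDiagonal Lk).det ≠ 0 := by
    rw [hdetΛ]; exact Finset.prod_ne_zero_iff.2 fun a _ => pow_ne_zero _ (hne a)
  have h := lintegral_mulVec hΛne (measurable_wT blk α)
  simp_rw [hw, hquad, mul_assoc] at h
  have hm : Measurable fun t : Fin p × Fin p → ℝ => wT blk α t * ENNReal.ofReal
      (Real.exp (-((tmask blk (mat t))ᵀ * S * tmask blk (mat t)).trace / 2)) :=
    (measurable_wT blk α).mul (ENNReal.measurable_ofReal.comp (Continuous.measurable (by fun_prop)))
  simp_rw [← Matrix.mul_assoc] at h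
  rw [lintegral_const_mul _ hm] at h
  have hC : 0 < ∏ a, |L a a| ^ (α - nle blk (blk a)) :=
    Finset.prod_pos fun a _ => Real.rpow_pos_of_pos (abs_pos.2 (hne a)) _
  have hreal : (1 + S).det ^ (-α / 2)
      = (∏ a, |L a a| ^ (α - nle blk (blk a)))⁻¹ * |(blockDiagonal Lk).det⁻¹| := by
    rw [hdetP, hdetΛ, abs_inv, Finset.abs_prod, ← mul_inv, ← Finset.prod_mul_distrib,
      ← Real.finsetProd_rpow _ _ (fun a _ => sq_nonneg _), ← Finset.prod_inv_distrib]
    refine Finset.prod_congr rfl fun a _ => ?_
    have ha := abs_pos.2 (hne a)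
    rw [abs_pow, ← Real.rpow_natCast |L a a|, ← Real.rpow_add ha, ← sq_abs, ← Real.rpow_natCast,
      ← Real.rpow_mul ha.le, ← Real.rpow_neg ha.le]
    congr 1; push_cast; ring
  rw [hreal, ENNReal.ofReal_mul (by positivity), mul_assoc, ← h, ← mul_assoc,
    ← ENNReal.ofReal_mul (by positivity), inv_mul_cancel₀ hC.ne', ENNReal.ofReal_one, one_mul]

end

end Pool.Agent.Lib.MP_9d9c13_pr
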