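import Pool.Agent.Lib.MP_9d9c13_pr.GamFin

/-!
The Laplace transform of the Wishart law; a measurable square root.
-/

open MeasureTheory ProbabilityTheory Matrix Set Filter Topology
open scoped ENNReal NNReal

namespace Pool.Agent.Lib.MP_9d9c13_pr

noncomputable section

variable {p : ℕ}

open scoped MatrixOrder in
lemma exists_factor_psd {m : Type} [Fintype m] [DecidableEq m] {S : Matrix m m ℝ}
    (hS : S.PosSemidef) : ∃ Q : Matrix m m ℝ, Qᵀ * Q = S := by
  refine ⟨CFC.sqrt S, ?_⟩
  have h1 : (CFC.sqrt S)ᵀ = CFC.sqrt S := by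
    have := (CFC.sqrt_nonneg S).posSemidef.1
    rwa [IsHermitian, conjTranspose_eq_transpose_of_trivial] at this
  rw [h1, CFC.sqrt_mul_sqrt_self S hS.nonneg]

open scoped MatrixOrder Matrix.Norms.L2Operator in
lemma exists_measurable_root : ∃ R : (Sym2 (Fin p) → ℝ) → (Fin p × Fin p → ℝ), Measurable R ∧
    ∀ x ∈ posCone p, (mat (R x))ᵀ * mat (R x) = symMat x := by
  classical
  have hc : ContinuousOn (fun x : Sym2 (Fin p) → ℝ => vec (CFC.sqrt (symMat x))) (posCone p) :=
    continuous_vec.comp_continuousOn (CFC.continuousOn_sqrt.comp continuous_symMat.continuousOn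
      fun x hx => (PosDef.posSemidef hx).nonneg)
  refine ⟨(posCone p).piecewise (fun x => vec (CFC.sqrt (symMat x))) fun _ => 0,
    hc.measurable_piecewise continuousOn_const measurableSet_posCone, fun x hx => ?_⟩
  rw [piecewise_eq_of_mem _ _ _ hx, mat_vec]
  have h1 : (CFC.sqrt (symMat x))ᵀ = CFC.sqrt (symMat x) := by
    have := (CFC.sqrt_nonneg (symMat x)).posSemidef.1
    rwa [IsHermitian, conjTranspose_eq_transpose_of_trivial] at this
  rw [h1, CFC.sqrt_mul_sqrt_self _ (PosDef.posSemidef hx).nonneg]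

lemma ae_wishart (α : ℝ) (S : Matrix (Fin p) (Fin p) ℝ) : ∀ᵐ x ∂wishart α S, x ∈ posCone p :=
  (withDensity_absolutelyContinuous _ _).ae_le (ae_restrict_mem measurableSet_posCone)

lemma measurable_wishartDensity (α : ℝ) (S : Matrix (Fin p) (Fin p) ℝ) :
    Measurable fun x : Sym2 (Fin p) → ℝ => wishartDensity α S (symMat x) := by
  have h := measurable_gamIntegrand (p := p) (α / 2 - ((p : ℝ) + 1) / 2) ((1 / 2 : ℝ) • S⁻¹)
  simp only [wishartDensity, Matrix.neg_mul, trace_neg]
  exact h.div_const _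

/-- the Laplace transform, for all parameters keeping the exponent negative definite -/
lemma wishart_laplace_gen {α : ℝ} (hα : (p : ℝ) - 1 < α) {S : Matrix (Fin p) (Fin p) ℝ}
    (hS : S.PosDef) {B : Matrix (Fin p) (Fin p) ℝ} (hB : (S⁻¹ + B).PosDef) :
    ∫⁻ x, ENNReal.ofReal (Real.exp (-(B * symMat x).trace / 2)) ∂wishart α S
      = ENNReal.ofReal ((1 + S * B).det ^ (-α / 2)) := by
  set e := α / 2 - ((p : ℝ) + 1) / 2 with he
  have he1 : -1 < e := by rw [he]; linarith
  have hG : GamL p e 1 ≠ ⊤ := GamL_ne_top he1 PosDef.one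
  have hG0 : GamL p e 1 ≠ 0 := GamL_ne_zero e 1
  have hg : 0 < mvGamma p (α / 2) := by rw [mvGamma_eq]; exact ENNReal.toReal_pos hG0 hG
  have h2S : ((2 : ℝ) • S).PosDef := hS.smul (by norm_num)
  have hA : ((1 / 2 : ℝ) • (S⁻¹ + B)).PosDef := hB.smul (by norm_num)
  have hc : 0 < ((2 : ℝ) • S).det ^ (α / 2) * mvGamma p (α / 2) :=
    mul_pos (Real.rpow_pos_of_pos h2S.det_pos _) hg
  have hm : Measurable fun x : Sym2 (Fin p) → ℝ =>
      ENNReal.ofReal (Real.exp (-(B * symMat x).trace / 2)) :=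
    ENNReal.measurable_ofReal.comp (Continuous.measurable (by fun_prop))
  rw [wishart, lintegral_withDensity_eq_lintegral_mul _
    (measurable_wishartDensity α S).ennreal_ofReal hm]
  have h1 : ∀ x ∈ posCone p, ENNReal.ofReal (wishartDensity α S (symMat x))
      * ENNReal.ofReal (Real.exp (-(B * symMat x).trace / 2))
      = ENNReal.ofReal (((2 : ℝ) • S).det ^ (α / 2) * mvGamma p (α / 2))⁻¹
        * ENNReal.ofReal ((symMat x).det ^ e
          * Real.exp (-(((1 / 2 : ℝ) • (S⁻¹ + B)) * symMat x).trace)) := by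
    intro x hx
    have hd : 0 < (symMat x).det := PosDef.det_pos hx
    rw [← ENNReal.ofReal_mul' (Real.exp_pos _).le, ← ENNReal.ofReal_mul (by positivity)]
    congr 1
    rw [wishartDensity, ← he, div_eq_mul_inv, mul_right_comm, mul_assoc (_ ^ e), ← Real.exp_add,
      mul_comm]
    congr 3
    simp only [Matrix.neg_mul, trace_neg, Matrix.smul_mul, Matrix.add_mul, trace_smul, trace_add,
      smul_eq_mul]
    ring
  simp only [Pi.mul_apply]
  rw [setLIntegral_congr_fun measurableSet_posCone h1,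
    lintegral_const_mul' _ _ ENNReal.ofReal_ne_top]
  change _ * GamL p e _ = _
  rw [GamL_scale e hA, ← ENNReal.ofReal_toReal hG, ← mvGamma_eq,
    ← ENNReal.ofReal_mul (Real.rpow_nonneg hA.det_pos.le _), ← ENNReal.ofReal_mul (by positivity)]
  congr 1
  have hdet : (1 + S * B).det = ((2 : ℝ) • S).det * ((1 / 2 : ℝ) • (S⁻¹ + B)).det := by
    rw [← det_mul, Matrix.smul_mul, Matrix.mul_smul, smul_smul, Matrix.mul_add,
      mul_nonsing_inv _ hS.det_pos.ne'.isUnit]
    norm_num
  rw [hdet, Real.mul_rpow h2S.det_pos.le hA.det_pos.le, show -(e + ((p : ℝ) + 1) / 2) = -α / 2 by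
    rw [he]; ring, neg_div, Real.rpow_neg h2S.det_pos.le]
  field_simp

lemma wishart_laplace {α : ℝ} (hα : (p : ℝ) - 1 < α) {S : Matrix (Fin p) (Fin p) ℝ}
    (hS : S.PosDef) {B : Matrix (Fin p) (Fin p) ℝ} (hB : B.PosSemidef) :
    ∫⁻ x, ENNReal.ofReal (Real.exp (-(B * symMat x).trace / 2)) ∂wishart α S
      = ENNReal.ofReal ((1 + S * B).det ^ (-α / 2)) :=
  wishart_laplace_gen hα hS (hS.inv.add_posSemidef hB)

/-- the Wishart law is a probability measure -/
lemma isProbabilityMeasure_wishart {α : ℝ} (hα : (p : ℝ) - 1 < α) {S : Matrix (Fin p) (Fin p) ℝ}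
    (hS : S.PosDef) : IsProbabilityMeasure (wishart α S) := by
  have h := wishart_laplace hα hS PosSemidef.zero
  constructor
  simpa using h

end

end Pool.Agent.Lib.MP_9d9c13_pr
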